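import Pool.Agent.Work.MP_638b00_ag.Sector

/-!
# A Borsuk-Ulam theorem for the circle group

`m` continuous functions on `ℂ^n`, `n > m`, each multiplied by `ζ ^ w` with `w ≠ 0` when the
variable is multiplied by `ζ`, `|ζ| = 1`, have a common zero different from `0`.
-/

set_option linter.unusedVariables false

namespace Pool.Agent.Work.MP_638b00_ag

open Finset Metric

section

variable {m : ℕ}

/-- multiplication by the root of unity -/
noncomputable def gg (p m : ℕ) : (Fin (m + 1) → ℂ) →ₗ[ℝ] (Fin (m + 1) → ℂ) where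
  toFun v := fun i => zt p * v i
  map_add' v w := by
    ext i
    simp [mul_add]
  map_smul' r v := by
    ext i
    simp [mul_left_comm]

lemma gg_apply (p m : ℕ) (v : Fin (m + 1) → ℂ) (i : Fin (m + 1)) : gg p m v i = zt p * v i := rfl

lemma gg_iter (p m k : ℕ) (v : Fin (m + 1) → ℂ) (i : Fin (m + 1)) :
    (gg p m)^[k] v i = zt p ^ k * v i := by
  induction k generalizing v with
  | zero => simp
  | succ k ih => rw [Function.iterate_succ_apply, ih, gg_apply, pow_succ]; ring

/-- the basis vectors -/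
noncomputable def ee (m : ℕ) (i : ℕ) : Fin (m + 1) → ℂ := fun l => if (l : ℕ) = i then 1 else 0

/-- the annulus -/
noncomputable def XX (p m : ℕ) : Set (Fin (m + 1) → ℂ) :=
  {v | ‖v‖ ≤ 1 ∧ Real.cos (Real.pi / p) / (m + 1) ≤ ‖v‖}

lemma cos_pos {p : ℕ} (hp : 3 ≤ p) : 0 < Real.cos (Real.pi / p) := by
  have hpi := Real.pi_pos
  have hp' : (3 : ℝ) ≤ p := by exact_mod_cast hp
  apply Real.cos_pos_of_mem_Ioo
  constructor
  · have : 0 < Real.pi / p := by positivity
    linarith
  · rw [div_lt_div_iff₀ (by linarith) (by norm_num)]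
    nlinarith

lemma isCompact_XX (p m : ℕ) : IsCompact (XX p m) := by
  apply Metric.isCompact_of_isClosed_isBounded
  · apply IsClosed.inter
    · exact isClosed_le continuous_norm continuous_const
    · exact isClosed_le continuous_const continuous_norm
  · rw [isBounded_iff_forall_norm_le]
    exact ⟨1, fun v hv => hv.1⟩

lemma ne_zero_of_mem_XX {p : ℕ} (hp : 3 ≤ p) {v : Fin (m + 1) → ℂ} (hv : v ∈ XX p m) : v ≠ 0 := by
  rintro rfl
  have h := hv.2
  rw [norm_zero] at h
  have := cos_pos hp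
  have h2 : 0 < Real.cos (Real.pi / p) / (m + 1) := by positivity
  linarith

lemma norm_gg (p m : ℕ) (v : Fin (m + 1) → ℂ) : ‖gg p m v‖ = ‖v‖ := by
  have h : gg p m v = zt p • v := by
    ext i
    rfl
  rw [h, norm_smul, norm_zt, one_mul]

lemma norm_comb {p : ℕ} (hp : 3 ≤ p) {a b : ℝ} (ha : 0 ≤ a) (hb : 0 ≤ b) :
    (a + b) * Real.cos (Real.pi / p) ≤ ‖(a : ℂ) + b * zt p‖ := by
  set h : ℂ := Complex.exp (((-(Real.pi / p) : ℝ) : ℂ) * Complex.I) with hh
  have h1 : ‖h‖ = 1 := Complex.norm_exp_ofReal_mul_I _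
  have h2 : ‖(a : ℂ) + b * zt p‖ = ‖h * (a + b * zt p)‖ := by rw [norm_mul, h1, one_mul]
  rw [h2]
  have hp' : (p : ℝ) ≠ 0 := by
    have : 0 < p := by omega
    positivity
  have h3 : h * zt p = Complex.exp (((Real.pi / p : ℝ) : ℂ) * Complex.I) := by
    rw [hh]
    unfold zt
    rw [← Complex.exp_add]
    congr 1
    push_cast
    ring
  have h4 : h * (a + b * zt p) = a * h + b * Complex.exp (((Real.pi / p : ℝ) : ℂ) * Complex.I) := by
    rw [← h3]
    ring
  have h5 : (h * (a + b * zt p)).re = (a + b) * Real.cos (Real.pi / p) := by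
    rw [h4, hh, Complex.add_re, Complex.re_ofReal_mul, Complex.re_ofReal_mul,
      Complex.exp_ofReal_mul_I_re, Complex.exp_ofReal_mul_I_re, Real.cos_neg]
    ring
  rw [← h5]
  exact Complex.re_le_norm _

/-- the face given by the exponents `k` -/
def Face (p m : ℕ) (k : ℕ → ℕ) : Set (Fin (m + 1) → ℂ) :=
  {v | ∃ a b : Fin (m + 1) → ℝ, (∀ i, 0 ≤ a i) ∧ (∀ i, 0 ≤ b i) ∧ ∑ i, (a i + b i) = 1 ∧
    ∀ i : Fin (m + 1), v i = zt p ^ (k i) * ((a i : ℂ) + b i * zt p)}

lemma convex_Face (p m : ℕ) (k : ℕ → ℕ) : Convex ℝ (Face p m k) := by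
  rintro x ⟨a, b, ha, hb, hab, hx⟩ y ⟨a', b', ha', hb', hab', hy⟩ s t hs ht hst
  refine ⟨fun i => s * a i + t * a' i, fun i => s * b i + t * b' i, ?_, ?_, ?_, ?_⟩
  · intro i
    have := ha i
    have := ha' i
    positivity
  · intro i
    have := hb i
    have := hb' i
    positivity
  · have : ∀ i, s * a i + t * a' i + (s * b i + t * b' i) = s * (a i + b i) + t * (a' i + b' i) := by
      intro i
      ring
    rw [Finset.sum_congr rfl fun i _ => this i, Finset.sum_add_distrib, ← Finset.mul_sum,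
      ← Finset.mul_sum, hab, hab']
    linarith
  · intro i
    simp only [Pi.add_apply, Pi.smul_apply, Complex.real_smul]
    rw [hx, hy]
    push_cast
    ring

lemma Face_subset {p : ℕ} (hp : 3 ≤ p) (m : ℕ) (k : ℕ → ℕ) : Face p m k ⊆ XX p m := by
  rintro v ⟨a, b, ha, hb, hab, hv⟩
  have hnorm : ∀ i, ‖v i‖ = ‖(a i : ℂ) + b i * zt p‖ := by
    intro i
    rw [hv, norm_mul, norm_pow, norm_zt, one_pow, one_mul]
  constructor
  · rw [pi_norm_le_iff_of_nonneg zero_le_one]
    intro i
    rw [hnorm, ← hab]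
    refine (norm_add_le _ _).trans ?_
    rw [norm_mul, norm_zt, mul_one, Complex.norm_real, Complex.norm_real, Real.norm_eq_abs,
      Real.norm_eq_abs, abs_of_nonneg (ha i), abs_of_nonneg (hb i)]
    exact Finset.single_le_sum (f := fun i => a i + b i)
      (fun i _ => add_nonneg (ha i) (hb i)) (Finset.mem_univ i)
  · have hex : ∃ i : Fin (m + 1), 1 / ((m : ℝ) + 1) ≤ a i + b i := by
      by_contra hcon
      push Not at hcon
      have h1 : ∑ i : Fin (m + 1), (a i + b i) < ∑ i : Fin (m + 1), 1 / ((m : ℝ) + 1) :=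
        Finset.sum_lt_sum_of_nonempty ⟨0, Finset.mem_univ _⟩ fun i _ => hcon i
      rw [hab, Finset.sum_const, Finset.card_univ, Fintype.card_fin, nsmul_eq_mul] at h1
      push_cast at h1
      have h2 : ((m : ℝ) + 1) * (1 / ((m : ℝ) + 1)) = 1 := by
        field_simp
      rw [h2] at h1
      exact lt_irrefl _ h1
    obtain ⟨i, hi⟩ := hex
    refine le_trans ?_ (norm_le_pi_norm v i)
    rw [hnorm]
    refine le_trans ?_ (norm_comb hp (ha i) (hb i))
    rw [div_eq_mul_one_div, mul_comm]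
    exact mul_le_mul_of_nonneg_right hi (cos_pos hp).le

lemma region {p : ℕ} (hp : 3 ≤ p) (m : ℕ) : Region p (gg p m) (ee m) m (XX p m) where
  face k := by
    refine ⟨Face p m k, convex_Face p m k, Face_subset hp m k, ?_⟩
    intro i hi
    have hsum : ∑ l : Fin (m + 1), ((if (l : ℕ) = i then 1 else 0 : ℝ) + 0) = 1 := by
      simp only [add_zero]
      rw [Finset.sum_eq_single ⟨i, by omega⟩]
      · simp
      · intro l _ hl
        rw [if_neg]
        intro h
        exact hl (Fin.ext h)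
      · intro h
        exact absurd (Finset.mem_univ _) h
    have hsum' : ∑ l : Fin (m + 1), ((0 : ℝ) + (if (l : ℕ) = i then 1 else 0 : ℝ)) = 1 :=
      (Finset.sum_congr rfl fun l _ => add_comm _ _).trans hsum
    constructor
    · refine ⟨fun l => if (l : ℕ) = i then 1 else 0, fun _ => 0, ?_, ?_, hsum, ?_⟩
      · intro l
        dsimp only
        split_ifs <;> norm_num
      · intro l
        exact le_rfl
      · intro l
        rw [gg_iter]
        unfold ee
        dsimp only
        by_cases h : (l : ℕ) = i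
        · simp [h]
        · simp [h]
    · refine ⟨fun _ => 0, fun l => if (l : ℕ) = i then 1 else 0, ?_, ?_, hsum', ?_⟩
      · intro l
        exact le_rfl
      · intro l
        dsimp only
        split_ifs <;> norm_num
      · intro l
        rw [gg_iter]
        unfold ee
        dsimp only
        by_cases h : (l : ℕ) = i
        · simp [h, pow_succ]
        · simp [h]
  diam a ha b hb := by
    rw [dist_eq_norm]
    have := norm_sub_le a b
    linarith [ha.1, hb.1]
  inv a ha := by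
    constructor
    · rw [norm_gg]; exact ha.1
    · rw [norm_gg]; exact ha.2

open Classical in
/-- A choice of an index satisfying a predicate. -/
noncomputable def pick {ι : Type*} (i₀ : ι) (P : ι → Prop) : ι :=
  if h : ∃ j, P j then h.choose else i₀

lemma pick_spec {ι : Type*} (i₀ : ι) {P : ι → Prop} (h : ∃ j, P j) : P (pick i₀ P) := by
  unfold pick
  rw [dif_pos h]
  exact h.choose_spec

/-- an equivariant function with values in the sectors -/
noncomputable def rr (p m : ℕ) (v : Fin (m + 1) → ℂ) : ZMod p :=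
  sec p (v (pick 0 fun l => v l ≠ 0))

lemma rr_gg {p : ℕ} (hp : 0 < p) {v : Fin (m + 1) → ℂ} (hv : v ≠ 0) :
    rr p m (gg p m v) = rr p m v + 1 := by
  have h1 : (fun l => gg p m v l ≠ 0) = fun l => v l ≠ 0 := by
    funext l
    rw [gg_apply, ne_eq, mul_eq_zero, not_or]
    simp [zt_ne p]
  unfold rr
  rw [h1, gg_apply]
  have h2 : v (pick 0 fun l => v l ≠ 0) ≠ 0 := by
    apply pick_spec (P := fun l => v l ≠ 0)
    by_contra hcon
    push Not at hcon
    exact hv (funext hcon)
  have h3 := sec_rot hp h2 1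
  rw [zpow_one] at h3
  rw [h3]
  push_cast
  rfl

/-- **Borsuk-Ulam theorem for the circle group**, for `m` functions on `ℂ^(m+1)`. -/
theorem borsuk_ulam_circle_aux (m : ℕ) (F : Fin m → (Fin (m + 1) → ℂ) → ℂ) (w : Fin m → ℤ)
    (hc : ∀ i, Continuous (F i)) (hw : ∀ i, w i ≠ 0)
    (hF : ∀ i v (ζ : ℂ), ‖ζ‖ = 1 → F i (fun l => ζ * v l) = ζ ^ (w i) * F i v) :
    ∃ v : Fin (m + 1) → ℂ, v ≠ 0 ∧ ∀ i, F i v = 0 := by
  classical
  by_contra hcon
  push Not at hcon
  -- the prime
  obtain ⟨p, hp1, hp2⟩ := Nat.exists_infinite_primes (∑ i, (w i).natAbs + 3)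
  have : Fact p.Prime := ⟨hp2⟩
  have hp3 : 3 ≤ p := by omega
  have hp0 : 0 < p := by omega
  have hwp : ∀ i, ((w i : ℤ) : ZMod p) ≠ 0 := by
    intro i h
    rw [ZMod.intCast_zmod_eq_zero_iff_dvd] at h
    have h1 : (w i).natAbs < p := by
      have h2 : (w i).natAbs ≤ ∑ i, (w i).natAbs :=
        Finset.single_le_sum (f := fun i => (w i).natAbs) (fun _ _ => Nat.zero_le _)
          (Finset.mem_univ i)
      omega
    have h2 : p ∣ (w i).natAbs := by
      rw [← Int.natCast_dvd]
      exact h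
    have h3 := Nat.eq_zero_of_dvd_of_lt h2 h1
    exact hw i (Int.natAbs_eq_zero.1 h3)
  -- a lower bound
  obtain ⟨c0, hc0, hlow⟩ : ∃ c0 : ℝ, 0 < c0 ∧ ∀ v ∈ XX p m, ∃ j, c0 ≤ ‖F j v‖ := by
    have hG : ContinuousOn (fun v => ∑ j, ‖F j v‖) (XX p m) :=
      continuousOn_finsetSum _ fun j _ => (hc j).norm.continuousOn
    have hne : (XX p m).Nonempty := by
      obtain ⟨C, -, hC, h⟩ := (region hp3 m).face (fun _ => 0)
      exact ⟨_, hC (h 0 (Nat.zero_le _)).1⟩
    obtain ⟨v0, hv0, hmin⟩ := (isCompact_XX p m).exists_isMinOn hne hG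
    have hpos : 0 < ∑ j, ‖F j v0‖ := by
      obtain ⟨j, hj⟩ := hcon v0 (ne_zero_of_mem_XX hp3 hv0)
      exact Finset.sum_pos' (fun _ _ => norm_nonneg _) ⟨j, Finset.mem_univ _, norm_pos_iff.2 hj⟩
    refine ⟨(∑ j, ‖F j v0‖) / (m + 1), by positivity, fun v hv => ?_⟩
    by_contra hcon2
    push Not at hcon2
    have h1 : ∑ j, ‖F j v0‖ ≤ ∑ j, ‖F j v‖ := hmin hv
    have h2 : ∑ j, ‖F j v‖ ≤ ∑ _j : Fin m, (∑ j, ‖F j v0‖) / (m + 1) :=
      Finset.sum_le_sum fun j _ => (hcon2 j).le
    rw [Finset.sum_const, Finset.card_univ, Fintype.card_fin, nsmul_eq_mul] at h2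
    have h3 : (m : ℝ) * ((∑ j, ‖F j v0‖) / (m + 1)) < ∑ j, ‖F j v0‖ := by
      rw [← mul_div_assoc, div_lt_iff₀ (by positivity)]
      nlinarith
    linarith
  -- nearby sectors
  obtain ⟨η, hη, hη1, hnear⟩ := sec_near hp0
  -- uniform continuity
  obtain ⟨δ, hδ, hunif⟩ : ∃ δ : ℝ, 0 < δ ∧ ∀ v ∈ XX p m, ∀ w ∈ XX p m, dist v w < δ →
      ∀ j, ‖F j v - F j w‖ < η * c0 := by
    have hF : ContinuousOn (fun v => fun j => F j v) (XX p m) :=
      continuousOn_pi.2 fun j => (hc j).continuousOn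
    have hU := (isCompact_XX p m).uniformContinuousOn_of_continuous hF
    rw [Metric.uniformContinuousOn_iff] at hU
    have hηc : 0 < η * c0 := by positivity
    obtain ⟨δ, hδ, h⟩ := hU (η * c0) hηc
    refine ⟨δ, hδ, fun v hv w hw hvw j => ?_⟩
    have h1 := h v hv w hw hvw
    rw [dist_pi_lt_iff hηc] at h1
    have h2 := h1 j
    rwa [dist_eq_norm] at h2
  obtain ⟨N, hN⟩ : ∃ N : ℕ, (((2 * m + 1 : ℕ) : ℝ) / ((2 * m + 1 : ℕ) + 1)) ^ N < δ / 2 := by
    apply exists_pow_lt_of_lt_one (by positivity)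
    rw [div_lt_one (by positivity)]
    linarith
  -- the functions `q`
  let W : ℕ → ZMod p := fun i => if h : i < m then ((w ⟨i, h⟩ : ℤ) : ZMod p) else 1
  let q : ℕ → (Fin (m + 1) → ℂ) → ZMod p := fun i v =>
    if h : i < m then (if F ⟨i, h⟩ v ≠ 0 then sec p (F ⟨i, h⟩ v) else (w ⟨i, h⟩ : ℤ) * rr p m v)
    else rr p m v
  have hW : ∀ i, W i ≠ 0 := by
    intro i
    by_cases h : i < m
    · simp only [W, h, dif_pos]
      exact hwp _
    · simp only [W, h, dif_neg, not_false_eq_true]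
      exact one_ne_zero
  have hq : ∀ i, ∀ a ∈ XX p m, q i (gg p m a) = q i a + W i := by
    intro i a ha
    have ha0 := ne_zero_of_mem_XX hp3 ha
    by_cases h : i < m
    · simp only [q, W, h, dif_pos]
      have e1 : F ⟨i, h⟩ (gg p m a) = zt p ^ (w ⟨i, h⟩) * F ⟨i, h⟩ a :=
        hF ⟨i, h⟩ a (zt p) (norm_zt p)
      rw [e1]
      by_cases h0 : F ⟨i, h⟩ a = 0
      · rw [h0, mul_zero, if_neg (by simp), if_neg (by simp), rr_gg hp0 ha0]
        ring
      · rw [if_pos (mul_ne_zero (zpow_ne_zero _ (zt_ne p)) h0), if_pos h0, sec_rot hp0 h0]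
    · simp only [q, W, h, dif_neg, not_false_eq_true]
      exact rr_gg hp0 ha0
  have hinv : ∀ k : ℕ, ∀ a ∈ XX p m, (gg p m)^[k] a ∈ XX p m := by
    intro k
    induction k with
    | zero => intro a ha; exact ha
    | succ k ih =>
      intro a ha
      rw [Function.iterate_succ_apply']
      exact (region hp3 m).inv _ (ih a ha)
  have hqk : ∀ i, ∀ a ∈ XX p m, ∀ k : ℕ, q i ((gg p m)^[k] a) = q i a + k * W i := by
    intro i a ha k
    induction k with
    | zero => simp
    | succ k ih =>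
      rw [Function.iterate_succ_apply', hq i _ (hinv k a ha), ih]
      push_cast
      ring
  have hgp : ((gg p m : (Fin (m + 1) → ℂ) → (Fin (m + 1) → ℂ)))^[p] = id := by
    funext v
    ext i
    rw [gg_iter, zt_pow_p hp0, one_mul]
    rfl
  have main := eval_WW (region hp3 m) hgp N q W (fun i => YY p (q i)) hq
    (fun i a ha b hb => sum_YY (q i) (gg p m) (hW i) (hqk i a ha) (hqk i b hb))
    (fun i a ha b hb c hc => YY_inv (q i) (gg p m) (W i) (hq i a ha) (hq i b hb) (hq i c hc))
    m le_rfl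
  have hzero : eA p (gg p m) (ee m) m (sdN N (2 * m + 1)
      (WW (fun i a b c => YY p (q i) b c - YY p (q i) a c + YY p (q i) a b) m)) = 0 := by
    apply eA_vanish (region hp3 m) N le_rfl
    intro σ hσ hσ2
    obtain ⟨j, hj⟩ := hlow (σ 0) (hσ 0)
    apply WW_eq_zero _ j.2
    intro a b c
    have hj0 : F j (σ 0) ≠ 0 := by
      intro h
      rw [h, norm_zero] at hj
      linarith
    obtain ⟨y0, hy0⟩ := hnear (F j (σ 0)) hj0
    have hclose : ∀ l, ∃ n : ℤ, q j (σ l) = n ∧ |(n : ℝ) - y0| < 1 := by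
      intro l
      have h1 : dist (σ l) (σ 0) < δ := by
        refine (hσ2 l 0).trans_lt ?_
        linarith
      have h2 := hunif (σ l) (hσ l) (σ 0) (hσ 0) h1 j
      have h3 : ‖F j (σ l) - F j (σ 0)‖ < η * ‖F j (σ 0)‖ := by
        refine h2.trans_le ?_
        gcongr
      obtain ⟨n, hn1, hn2⟩ := hy0 _ h3
      refine ⟨n, ?_, hn2⟩
      by_cases hl0 : F j (σ l) = 0
      · exfalso
        rw [hl0, zero_sub, norm_neg] at h3
        have := norm_nonneg (F j (σ 0))
        nlinarith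
      · simp only [q, j.2, dif_pos, Fin.eta]
        rw [if_pos hl0, hn1]
    obtain ⟨na, ha1, ha2⟩ := hclose a
    obtain ⟨nb, hb1, hb2⟩ := hclose b
    obtain ⟨nc, hc1, hc2⟩ := hclose c
    exact YY_zero_of_near hp3 (q j) ha1 hb1 hc1 ha2 hb2 hc2
  rw [main] at hzero
  exact Finset.prod_ne_zero_iff.2 (fun i _ => hW i) hzero

end

/-- **Borsuk-Ulam theorem for the circle group**: fewer equivariant functions than variables have
a common nontrivial zero. -/
theorem borsuk_ulam_circle {ι κ : Type*} [Fintype ι] [Fintype κ]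
    (hcard : Fintype.card κ < Fintype.card ι) (F : κ → (ι → ℂ) → ℂ) (w : κ → ℤ)
    (hc : ∀ i, Continuous (F i)) (hw : ∀ i, w i ≠ 0)
    (hF : ∀ i v (ζ : ℂ), ‖ζ‖ = 1 → F i (fun l => ζ * v l) = ζ ^ (w i) * F i v) :
    ∃ v : ι → ℂ, v ≠ 0 ∧ ∀ i, F i v = 0 := by
  classical
  set m := Fintype.card κ with hm
  obtain ⟨f⟩ : Nonempty (Fin (m + 1) ↪ ι) :=
    Function.Embedding.nonempty_of_card_le (by simpa using hcard)
  let en : κ ≃ Fin m := Fintype.equivFin κ
  let ex : (Fin (m + 1) → ℂ) → (ι → ℂ) := fun v l => if h : ∃ j, f j = l then v h.choose else 0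
  have hex : ∀ v j, ex v (f j) = v j := by
    intro v j
    have h : ∃ j', f j' = f j := ⟨j, rfl⟩
    simp only [ex]
    rw [dif_pos h]
    exact congrArg v (f.injective h.choose_spec)
  have hexc : Continuous ex := by
    refine continuous_pi fun l => ?_
    by_cases h : ∃ j, f j = l
    · have : (fun v => ex v l) = fun v => v h.choose := by
        funext v; simp only [ex]; rw [dif_pos h]
      rw [this]
      exact continuous_apply _
    · have : (fun v => ex v l) = fun v => 0 := by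
        funext v; simp only [ex]; rw [dif_neg h]
      rw [this]
      exact continuous_const
  have hexm : ∀ (ζ : ℂ) v, ex (fun l => ζ * v l) = fun l => ζ * ex v l := by
    intro ζ v
    funext l
    by_cases h : ∃ j, f j = l
    · simp only [ex]; rw [dif_pos h, dif_pos h]
    · simp only [ex]; rw [dif_neg h, dif_neg h, mul_zero]
  obtain ⟨v, hv, h0⟩ := borsuk_ulam_circle_aux m (fun i v => F (en.symm i) (ex v))
    (fun i => w (en.symm i)) (fun i => (hc _).comp hexc) (fun i => hw _) (by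
      intro i v ζ hζ
      rw [hexm, hF _ _ _ hζ])
  refine ⟨ex v, ?_, fun i => ?_⟩
  · intro h
    apply hv
    funext j
    rw [← hex v j, h]
    rfl
  · have := h0 (en i)
    simpa using this

end Pool.Agent.Work.MP_638b00_ag
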