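import Mathlib

/-!
# Cochains on tuples of points with coefficients in a ring

This is the combinatorial part of a self-contained proof of the Borsuk-Ulam theorem for
actions of cyclic groups. The mod 2 version is due to helper4 (MP_1fb4c7_an).
-/

set_option linter.unusedVariables false
set_option linter.unusedSectionVars false

namespace Pool.Agent.Work.MP_638b00_ag

open Finset

variable {V : Type*} {R : Type*} [CommRing R]

/-- cochains: functions of `n` points with values in `R` -/
abbrev Coch (V R : Type*) (n : ℕ) := (Fin n → V) → R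

/-- the coboundary -/
def dl {n : ℕ} : Coch V R n →ₗ[R] Coch V R (n + 1) where
  toFun c := fun σ => ∑ j : Fin (n + 1), (-1) ^ (j : ℕ) * c (fun i => σ (j.succAbove i))
  map_add' c c' := by
    ext σ
    simp only [Pi.add_apply, mul_add, Finset.sum_add_distrib]
  map_smul' r c := by
    ext σ
    simp only [Pi.smul_apply, smul_eq_mul, RingHom.id_apply, Finset.mul_sum]
    apply Finset.sum_congr rfl
    intro j _
    ring

/-- inserting a point in front -/
def ins {n : ℕ} (b : V) : Coch V R (n + 1) →ₗ[R] Coch V R n where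
  toFun c := fun τ => c (Fin.cons b τ)
  map_add' c c' := rfl
  map_smul' r c := rfl

/-- the action of a self-map on cochains -/
def act {n : ℕ} (g : V → V) : Coch V R n →ₗ[R] Coch V R n where
  toFun c := fun σ => c (fun i => g (σ i))
  map_add' c c' := rfl
  map_smul' r c := rfl

lemma dl_apply {n : ℕ} (c : Coch V R n) (σ : Fin (n + 1) → V) :
    dl c σ = ∑ j : Fin (n + 1), (-1) ^ (j : ℕ) * c (fun i => σ (j.succAbove i)) := rfl

lemma ins_apply {n : ℕ} (b : V) (c : Coch V R (n + 1)) (τ : Fin n → V) :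
    ins b c τ = c (Fin.cons b τ) := rfl

lemma act_apply {n : ℕ} (g : V → V) (c : Coch V R n) (σ : Fin n → V) :
    act g c σ = c (fun i => g (σ i)) := rfl

lemma cons_succAbove_succ {n : ℕ} (b : V) (τ : Fin (n + 1) → V) (j : Fin (n + 1)) :
    (fun i => (Fin.cons b τ : Fin (n + 2) → V) (j.succ.succAbove i)) =
      Fin.cons b (fun i => τ (j.succAbove i)) := by
  ext i
  refine Fin.cases ?_ (fun i => ?_) i
  · simp
  · simp

lemma ins_dl {n : ℕ} (b : V) (c : Coch V R (n + 1)) : ins b (dl c) = c - dl (ins b c) := by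
  ext τ
  simp only [ins_apply, dl_apply, Pi.sub_apply]
  rw [Fin.sum_univ_succ]
  have h1 : ∀ j : Fin (n + 1), (-1 : R) ^ ((j.succ : Fin (n + 2)) : ℕ) *
      c (fun i => (Fin.cons b τ : Fin (n + 2) → V) (j.succ.succAbove i)) =
      -((-1) ^ (j : ℕ) * c (Fin.cons b (fun i => τ (j.succAbove i)))) := by
    intro j
    rw [cons_succAbove_succ, Fin.val_succ, pow_succ]
    ring
  rw [Finset.sum_congr rfl fun j _ => h1 j, Finset.sum_neg_distrib]
  simp [sub_eq_add_neg]

lemma coch_zero (c : Coch V R 0) (x y : Fin 0 → V) : c x = c y :=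
  congrArg c (Subsingleton.elim x y)

lemma dl_zero_apply (c : Coch V R 0) (σ : Fin 1 → V) (x : Fin 0 → V) : dl c σ = c x := by
  rw [dl_apply]
  have h : ∀ j : Fin (0 + 1), (-1 : R) ^ (j : ℕ) * c (fun i => σ (j.succAbove i)) =
      (-1) ^ (j : ℕ) * c x := fun j => by rw [coch_zero c _ x]
  rw [Finset.sum_congr rfl fun j _ => h j]
  simp

lemma ins_dl_zero (b : V) (c : Coch V R 0) : ins b (dl c) = c := by
  ext τ
  exact dl_zero_apply c _ _

lemma ext_ins {n : ℕ} {c c' : Coch V R (n + 1)} (h : ∀ b, ins b c = ins b c') : c = c' := by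
  ext σ
  have := congrFun (h (σ 0)) (Fin.tail σ)
  simpa only [ins_apply, Fin.cons_self_tail] using this

lemma dl_dl {n : ℕ} (c : Coch V R n) : dl (dl c) = 0 := by
  induction n with
  | zero =>
    apply ext_ins
    intro b
    rw [ins_dl, ins_dl_zero, sub_self, map_zero]
  | succ n ih =>
    apply ext_ins
    intro b
    rw [ins_dl, ins_dl, map_sub, ih, sub_zero, sub_self, map_zero]

lemma ins_act {n : ℕ} (g : V → V) (b : V) (c : Coch V R (n + 1)) :
    ins b (act g c) = act g (ins (g b) c) := by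
  ext τ
  simp only [ins_apply, act_apply]
  congr 1
  ext i
  refine Fin.cases ?_ (fun i => ?_) i
  · simp
  · simp

lemma dl_act {n : ℕ} (g : V → V) (c : Coch V R n) : dl (act g c) = act g (dl c) := rfl

lemma act_act {n : ℕ} (g h : V → V) (c : Coch V R n) : act g (act h c) = act (h ∘ g) c := rfl

lemma act_id {n : ℕ} (c : Coch V R n) : act id c = c := rfl

section sd

variable [AddCommGroup V] [Module ℝ V]

/-- the barycenter of a tuple -/
noncomputable def bary {n : ℕ} (σ : Fin n → V) : V := (n : ℝ)⁻¹ • ∑ i, σ i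

/-- the dual of barycentric subdivision -/
noncomputable def sd : (n : ℕ) → Coch V R n →ₗ[R] Coch V R n
  | 0 => LinearMap.id
  | n + 1 =>
    { toFun := fun c σ => dl (sd n (ins (bary σ) c)) σ
      map_add' := fun c c' => by
        ext σ
        simp only [map_add, Pi.add_apply]
      map_smul' := fun r c => by
        ext σ
        simp only [map_smul, Pi.smul_apply, RingHom.id_apply] }

lemma sd_zero (c : Coch V R 0) : sd 0 c = c := rfl

lemma sd_succ {n : ℕ} (c : Coch V R (n + 1)) (σ : Fin (n + 1) → V) :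
    sd (n + 1) c σ = dl (sd n (ins (bary σ) c)) σ := rfl

lemma sd_dl {n : ℕ} (c : Coch V R n) : sd (n + 1) (dl c) = dl (sd n c) := by
  induction n with
  | zero =>
    ext σ
    rw [sd_succ, ins_dl_zero]
  | succ n ih =>
    ext σ
    rw [sd_succ, ins_dl, map_sub, ih, map_sub, dl_dl, sub_zero]

lemma sd_act (g : V →ₗ[ℝ] V) {n : ℕ} (c : Coch V R n) : sd n (act g c) = act g (sd n c) := by
  induction n with
  | zero => rfl
  | succ n ih =>
    ext σ
    have hb : g (bary σ) = bary (fun i => g (σ i)) := by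
      simp [bary]
    rw [sd_succ, ins_act, ih, dl_act, act_apply, act_apply, sd_succ, hb]

/-- iterated subdivision -/
noncomputable def sdN (N n : ℕ) : Coch V R n →ₗ[R] Coch V R n := (sd n) ^ N

lemma sdN_zero {n : ℕ} (c : Coch V R n) : sdN 0 n c = c := rfl

lemma sdN_succ (N : ℕ) {n : ℕ} (c : Coch V R n) : sdN (N + 1) n c = sd n (sdN N n c) := by
  unfold sdN
  rw [pow_succ']
  rfl

lemma sdN_dl (N : ℕ) {n : ℕ} (c : Coch V R n) : sdN N (n + 1) (dl c) = dl (sdN N n c) := by
  induction N with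
  | zero => rfl
  | succ N ih => rw [sdN_succ, ih, sd_dl, sdN_succ]

lemma sdN_act (N : ℕ) (g : V →ₗ[ℝ] V) {n : ℕ} (c : Coch V R n) :
    sdN N n (act g c) = act g (sdN N n c) := by
  induction N with
  | zero => rfl
  | succ N ih => rw [sdN_succ, ih, sd_act, sdN_succ]

end sd

section chain

variable (p : ℕ) (g : V → V) (e : ℕ → V)

/-- evaluation on the full sphere: the iterated join of the `p`-gons through `e 0, e 1, ...` -/
def EE : (j : ℕ) → Coch V R (2 * j) →ₗ[R] R
  | 0 =>
    { toFun := fun c => c (fun i => i.elim0)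
      map_add' := fun _ _ => rfl
      map_smul' := fun _ _ => rfl }
  | j + 1 => ∑ k ∈ range p,
      (EE j) ∘ₗ (ins (g (e j))) ∘ₗ (ins (e j)) ∘ₗ (act (g^[k]) : Coch V R (2 * j + 2) →ₗ[R] _)

/-- evaluation on the odd cell -/
def eB (j : ℕ) : Coch V R (2 * j + 2) →ₗ[R] R := (EE p g e j) ∘ₗ (ins (g (e j))) ∘ₗ (ins (e j))

/-- evaluation on the even cell -/
def eA (j : ℕ) : Coch V R (2 * j + 1) →ₗ[R] R := (EE p g e j) ∘ₗ (ins (e j))

lemma EE_zero (c : Coch V R 0) (x : Fin 0 → V) : EE p g e 0 c = c x :=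
  congrArg c (Subsingleton.elim _ _)

lemma EE_succ (j : ℕ) (c : Coch V R (2 * j + 2)) :
    EE p g e (j + 1) c = ∑ k ∈ range p, eB p g e j (act (g^[k]) c) := by
  change (∑ k ∈ range p, (EE p g e j) ∘ₗ (ins (g (e j))) ∘ₗ (ins (e j)) ∘ₗ
    (act (g^[k]) : Coch V R (2 * j + 2) →ₗ[R] _)) c = _
  rw [LinearMap.sum_apply]
  rfl

lemma EE_succ' (j : ℕ) (c : Coch V R (2 * j + 2)) :
    EE p g e (j + 1) c = eB p g e j (∑ k ∈ range p, act (g^[k]) c) := by
  rw [EE_succ, map_sum]

lemma eA_apply (j : ℕ) (c : Coch V R (2 * j + 1)) : eA p g e j c = EE p g e j (ins (e j) c) := rfl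

lemma eB_apply (j : ℕ) (c : Coch V R (2 * j + 2)) :
    eB p g e j c = EE p g e j (ins (g (e j)) (ins (e j) c)) := rfl

variable {p g e}

lemma EE_act (hg : g^[p] = id) (j : ℕ) (c : Coch V R (2 * j)) :
    EE p g e j (act g c) = EE p g e j c := by
  cases j with
  | zero => exact congrArg c (funext fun i => i.elim0)
  | succ j =>
    rw [EE_succ, EE_succ]
    have h1 : ∀ k, eB p g e j (act (g^[k]) (act g c)) = eB p g e j (act (g^[k + 1]) c) := by
      intro k
      rw [act_act, Function.iterate_succ']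
    rw [Finset.sum_congr rfl fun k _ => h1 k]
    have h2 := Finset.sum_range_succ (fun k => eB p g e j (act (g^[k]) c)) p
    have h3 := Finset.sum_range_succ' (fun k => eB p g e j (act (g^[k]) c)) p
    rw [h3] at h2
    have h4 : (g^[p]) = g^[0] := by rw [hg]; rfl
    rw [h4] at h2
    exact add_right_cancel h2

lemma EE_dl_of (hg : g^[p] = id) (j : ℕ) (h : ∀ c : Coch V R (2 * j + 1),
    eB p g e j (dl c) = eA p g e j (act g c) - eA p g e j c) (c : Coch V R (2 * j + 1)) :
    EE p g e (j + 1) (dl c) = 0 := by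
  rw [EE_succ]
  have h1 : ∀ k, eB p g e j (act (g^[k]) (dl c)) =
      eA p g e j (act (g^[k + 1]) c) - eA p g e j (act (g^[k]) c) := by
    intro k
    rw [← dl_act, h, act_act, Function.iterate_succ]
  rw [Finset.sum_congr rfl fun k _ => h1 k,
    Finset.sum_range_sub (fun k => eA p g e j (act (g^[k]) c)), hg]
  simp [act_id]

lemma eA_act (hg : g^[p] = id) (j : ℕ) (c : Coch V R (2 * j + 1)) :
    eA p g e j (act g c) = EE p g e j (ins (g (e j)) c) := by
  rw [eA_apply, ins_act, EE_act hg]

lemma EE_dl (hg : g^[p] = id) (j : ℕ) : ∀ c : Coch V R (2 * j + 1),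
    eB p g e j (dl c) = eA p g e j (act g c) - eA p g e j c := by
  induction j with
  | zero =>
    intro c
    rw [eA_act hg, eB_apply]
    have h1 : ins (e 0) (dl c) = c - dl (ins (e 0) c) := ins_dl (n := 0) (e 0) c
    have h2 : ins (g (e 0)) (dl (ins (e 0) c)) = ins (e 0) c :=
      ins_dl_zero (g (e 0)) (ins (e 0) c)
    rw [h1, map_sub, h2, map_sub, eA_apply]
  | succ j ih =>
    intro c
    have h1 : ins (e (j + 1)) (dl c) = c - dl (ins (e (j + 1)) c) :=
      ins_dl (n := 2 * j + 1 + 1) (e (j + 1)) c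
    have h2 : ins (g (e (j + 1))) (dl (ins (e (j + 1)) c)) =
      ins (e (j + 1)) c - dl (ins (g (e (j + 1))) (ins (e (j + 1)) c)) :=
      ins_dl (n := 2 * j + 1) (g (e (j + 1))) (ins (e (j + 1)) c)
    rw [eA_act hg, eB_apply, h1, map_sub, h2, map_sub, map_sub, eA_apply]
    have h3 := EE_dl_of (p := p) (g := g) (e := e) hg j ih
      (ins (g (e (j + 1))) (ins (e (j + 1)) c))
    rw [h3, sub_zero]

lemma eB_dl (hg : g^[p] = id) (j : ℕ) (c : Coch V R (2 * j + 1)) :
    eB p g e j (dl c) = eA p g e j (act g c) - eA p g e j c := EE_dl hg j c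

lemma eA_dl (hg : g^[p] = id) (j : ℕ) (c : Coch V R (2 * j + 2)) :
    eA p g e (j + 1) (dl c) = EE p g e (j + 1) c := by
  rw [eA_apply]
  have h2 : ins (e (j + 1)) (dl c) = c - dl (ins (e (j + 1)) c) :=
    ins_dl (n := 2 * j + 1) (e (j + 1)) c
  rw [h2, map_sub]
  have h3 := EE_dl_of (p := p) (g := g) (e := e) hg j (EE_dl hg j) (ins (e (j + 1)) c)
  rw [h3, sub_zero]

/-- `EE j` only depends on the values on tuples with entries among the vertices
`g^(k i) e i` and `g^(k i + 1) e i` -/
lemma EE_vanish (j : ℕ) (c : Coch V R (2 * j))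
    (h : ∀ k : ℕ → ℕ, ∀ σ : Fin (2 * j) → V,
      (∀ l, ∃ i < j, σ l = g^[k i] (e i) ∨ σ l = g^[k i + 1] (e i)) → c σ = 0) :
    EE p g e j c = 0 := by
  induction j with
  | zero =>
    exact h (fun _ => 0) _ (fun l => l.elim0)
  | succ j ih =>
    rw [EE_succ]
    apply Finset.sum_eq_zero
    intro k0 _
    rw [eB_apply]
    apply ih
    intro k τ hτ
    rw [ins_apply, ins_apply, act_apply]
    apply h (fun i => if i = j then k0 else k i + k0)
    intro l
    refine Fin.cases ?_ (fun l => ?_) l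
    · refine ⟨j, Nat.lt_succ_self j, Or.inl ?_⟩
      simp
    · refine Fin.cases ?_ (fun l => ?_) l
      · refine ⟨j, Nat.lt_succ_self j, Or.inr ?_⟩
        simp
      · obtain ⟨i, hi, h1⟩ := hτ l
        refine ⟨i, Nat.lt_succ_of_lt hi, ?_⟩
        simp only [Fin.cons_succ, if_neg hi.ne]
        rcases h1 with h1 | h1
        · left
          rw [h1, ← Function.iterate_add_apply, add_comm]
        · right
          have h5 : k i + k0 + 1 = k0 + (k i + 1) := by ring
          rw [h1, ← Function.iterate_add_apply, h5]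

end chain

end Pool.Agent.Work.MP_638b00_ag
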