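import Mathlib

/-!
# Polynomials with continuous coefficients, weighted homogeneity and reality
-/

set_option linter.unusedVariables false

namespace Pool.Agent.Work.MP_638b00_ag

open Polynomial ComplexConjugate

/-! ### families of polynomials with continuous coefficients -/

section CC

variable {V : Type*} [TopologicalSpace V]

/-- a family of polynomials with continuous coefficients -/
def CC (P : V → ℂ[X]) : Prop := ∀ j, Continuous fun v => (P v).coeff j

lemma CC.const (p : ℂ[X]) : CC fun _ : V => p := fun _ => continuous_const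

lemma CC.add {P Q : V → ℂ[X]} (hP : CC P) (hQ : CC Q) : CC fun v => P v + Q v := by
  intro j
  simp only [coeff_add]
  exact (hP j).add (hQ j)

lemma CC.mul {P Q : V → ℂ[X]} (hP : CC P) (hQ : CC Q) : CC fun v => P v * Q v := by
  intro j
  simp only [coeff_mul]
  exact continuous_finsetSum _ fun x _ => (hP _).mul (hQ _)

lemma CC.sum {ι : Type*} (s : Finset ι) {P : ι → V → ℂ[X]} (hP : ∀ i ∈ s, CC (P i)) :
    CC fun v => ∑ i ∈ s, P i v := by
  intro j
  simp only [finsetSum_coeff]
  exact continuous_finsetSum _ fun x hx => hP x hx j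

lemma CC.C {c : V → ℂ} (hc : Continuous c) : CC fun v => Polynomial.C (c v) := by
  intro j
  simp only [coeff_C]
  by_cases h : j = 0
  · simp only [h, if_true]; exact hc
  · simp only [h, if_false]; exact continuous_const

lemma CC.aeval {σ : Type*} (f : MvPolynomial σ ℝ) {g : σ → V → ℂ[X]} (hg : ∀ s, CC (g s)) :
    CC fun v => MvPolynomial.aeval (fun s => g s v) f := by
  induction f using MvPolynomial.induction_on with
  | C a =>
    simp only [MvPolynomial.aeval_C]
    exact CC.const _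
  | add p q hp hq =>
    simp only [map_add]
    exact hp.add hq
  | mul_X p s hp =>
    simp only [map_mul, MvPolynomial.aeval_X]
    exact hp.mul (hg s)

end CC

/-! ### weighted homogeneity -/

lemma aeval_wh {σ A : Type*} [CommRing A] [Algebra ℝ A] {wt : σ → ℕ} {d : ℕ}
    {f : MvPolynomial σ ℝ} (hf : f.IsWeightedHomogeneous wt d) (c : A) (g : σ → A) :
    MvPolynomial.aeval (fun s => c ^ wt s * g s) f = c ^ d * MvPolynomial.aeval g f := by
  rw [MvPolynomial.aeval_def, MvPolynomial.aeval_def, MvPolynomial.eval₂_eq, MvPolynomial.eval₂_eq,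
    Finset.mul_sum]
  apply Finset.sum_congr rfl
  intro μ hμ
  have h1 : Finsupp.weight wt μ = d := hf (MvPolynomial.mem_support_iff.1 hμ)
  have h2 : ∏ i ∈ μ.support, (c ^ wt i * g i) ^ μ i = c ^ d * ∏ i ∈ μ.support, g i ^ μ i := by
    rw [← h1, Finsupp.weight_apply, Finsupp.sum, ← Finset.prod_pow_eq_pow_sum,
      ← Finset.prod_mul_distrib]
    apply Finset.prod_congr rfl
    intro i _
    rw [mul_pow, ← pow_mul, smul_eq_mul, mul_comm (wt i)]
  rw [h2]
  ring

lemma aeval_am {σ A : Type*} [CommRing A] [Algebra ℝ A] (x : σ → ℝ) (f : MvPolynomial σ ℝ) :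
    MvPolynomial.aeval (fun o => algebraMap ℝ A (x o)) f =
      algebraMap ℝ A (MvPolynomial.eval x f) := by
  have h := MvPolynomial.aeval_algebraMap_apply A x f
  rw [MvPolynomial.aeval_eq_eval] at h
  exact h

/-! ### the reality condition -/

/-- reality of a polynomial of formal degree `2 w` -/
structure Rl (w : ℕ) (A : ℂ[X]) : Prop where
  deg : A.natDegree ≤ 2 * w
  refl : (A.map (starRingEnd ℂ)).reflect (2 * w) = C ((-1) ^ w) * A.comp (-X)

lemma Rl.add {w : ℕ} {A B : ℂ[X]} (hA : Rl w A) (hB : Rl w B) : Rl w (A + B) where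
  deg := (natDegree_add_le _ _).trans (max_le hA.deg hB.deg)
  refl := by
    rw [Polynomial.map_add, reflect_add, hA.refl, hB.refl, add_comp, mul_add]

lemma Rl.zero (w : ℕ) : Rl w 0 where
  deg := by simp
  refl := by simp

lemma Rl.sum {ι : Type*} (s : Finset ι) {w : ℕ} {A : ι → ℂ[X]} (h : ∀ i ∈ s, Rl w (A i)) :
    Rl w (∑ i ∈ s, A i) := by
  classical
  induction s using Finset.induction_on with
  | empty => simpa using Rl.zero w
  | insert a s ha ih =>
    rw [Finset.sum_insert ha]
    exact (h a (Finset.mem_insert_self _ _)).add (ih fun i hi => h i (Finset.mem_insert_of_mem hi))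

lemma Rl.mul {w w' : ℕ} {A B : ℂ[X]} (hA : Rl w A) (hB : Rl w' B) : Rl (w + w') (A * B) where
  deg := by
    refine natDegree_mul_le.trans ?_
    have := hA.deg
    have := hB.deg
    omega
  refl := by
    have h1 : (A.map (starRingEnd ℂ)).natDegree ≤ 2 * w := (natDegree_map_le).trans hA.deg
    have h2 : (B.map (starRingEnd ℂ)).natDegree ≤ 2 * w' := (natDegree_map_le).trans hB.deg
    rw [Polynomial.map_mul, mul_add, reflect_mul _ _ h1 h2, hA.refl, hB.refl, mul_comp, pow_add,
      C_mul]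
    ring

lemma Rl.real (r : ℝ) : Rl 0 (C (r : ℂ)) where
  deg := by simp
  refl := by
    have h1 : (C (r : ℂ)).map (starRingEnd ℂ) = C (r : ℂ) := by
      rw [Polynomial.map_C, Complex.conj_ofReal]
    rw [h1]
    have h2 := reflect_C (r : ℂ) (2 * 0)
    rw [h2]
    simp

lemma Rl.one : Rl 0 (1 : ℂ[X]) := by
  have := Rl.real 1
  simpa using this

lemma Rl.pow {w : ℕ} {A : ℂ[X]} (hA : Rl w A) (k : ℕ) : Rl (w * k) (A ^ k) := by
  induction k with
  | zero => simpa using Rl.one
  | succ k ih =>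
    rw [pow_succ, Nat.mul_succ]
    exact ih.mul hA

lemma Rl.prod {ι : Type*} (s : Finset ι) {w : ι → ℕ} {A : ι → ℂ[X]} (h : ∀ i ∈ s, Rl (w i) (A i)) :
    Rl (∑ i ∈ s, w i) (∏ i ∈ s, A i) := by
  classical
  induction s using Finset.induction_on with
  | empty => simpa using Rl.one
  | insert a s ha ih =>
    rw [Finset.sum_insert ha, Finset.prod_insert ha]
    exact (h a (Finset.mem_insert_self _ _)).mul (ih fun i hi => h i (Finset.mem_insert_of_mem hi))

lemma Rl.aeval {σ : Type*} {wt : σ → ℕ} {d : ℕ} {f : MvPolynomial σ ℝ}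
    (hf : f.IsWeightedHomogeneous wt d) {g : σ → ℂ[X]} (hg : ∀ s, Rl (wt s) (g s)) :
    Rl d (MvPolynomial.aeval g f) := by
  rw [MvPolynomial.aeval_def, MvPolynomial.eval₂_eq]
  apply Rl.sum
  intro μ hμ
  have h1 : Finsupp.weight wt μ = d := hf (MvPolynomial.mem_support_iff.1 hμ)
  have h2 : Rl d (∏ i ∈ μ.support, g i ^ μ i) := by
    have h3 := Rl.prod μ.support (w := fun i => wt i * μ i) (A := fun i => g i ^ μ i)
      (fun i _ => (hg i).pow (μ i))
    have h4 : ∑ i ∈ μ.support, wt i * μ i = d := by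
      rw [← h1, Finsupp.weight_apply, Finsupp.sum]
      apply Finset.sum_congr rfl
      intro i _
      rw [smul_eq_mul, mul_comm]
    rwa [h4] at h3
  have h5 := (Rl.real (MvPolynomial.coeff μ f)).mul h2
  rw [zero_add] at h5
  exact h5

lemma Rl.coeff {w : ℕ} {A : ℂ[X]} (hA : Rl w A) {j : ℕ} (hj : j ≤ 2 * w) :
    conj (A.coeff (2 * w - j)) = (-1) ^ (w + j) * A.coeff j := by
  have h1 := congrArg (fun p => Polynomial.coeff p j) hA.refl
  simp only [coeff_reflect, revAt_le hj, coeff_map, coeff_C_mul] at h1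
  rw [h1]
  have h2 : A.comp (-X) = A.comp (C (-1) * X) := by
    congr 1
    simp
  rw [h2, comp_C_mul_X_coeff, pow_add]
  ring

/-- the pairs of monomials -/
lemma Rl_pair {w k : ℕ} (hk : k ≤ w) (z : ℂ) :
    Rl w (C z * X ^ (w + k) + C ((-1) ^ k * conj z) * X ^ (w - k)) where
  deg := by
    refine (natDegree_add_le _ _).trans (max_le ?_ ?_)
    · refine (natDegree_C_mul_X_pow_le _ _).trans (by omega)
    · refine (natDegree_C_mul_X_pow_le _ _).trans (by omega)
  refl := by
    rw [Polynomial.map_add, Polynomial.map_mul, Polynomial.map_mul, Polynomial.map_C,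
      Polynomial.map_C, Polynomial.map_pow, Polynomial.map_pow, Polynomial.map_X, reflect_add,
      reflect_C_mul_X_pow, reflect_C_mul_X_pow, revAt_le (by omega), revAt_le (by omega),
      add_comp, mul_comp, mul_comp, C_comp, C_comp, pow_comp, pow_comp, X_comp]
    have e1 : 2 * w - (w + k) = w - k := by omega
    have e2 : 2 * w - (w - k) = w + k := by omega
    rw [e1, e2]
    have e3 : (starRingEnd ℂ) ((-1) ^ k * (starRingEnd ℂ) z) = (-1) ^ k * z := by
      rw [map_mul, map_pow, map_neg, map_one, Complex.conj_conj]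
    rw [e3]
    obtain ⟨l, rfl⟩ := Nat.exists_eq_add_of_le hk
    have e4 : k + l - k = l := by omega
    rw [e4]
    have e5 : (-X : ℂ[X]) ^ (k + l + k) = C ((-1) ^ l) * X ^ (k + l + k) := by
      rw [neg_pow, C_pow, C_neg, C_1]
      congr 1
      rw [pow_add, pow_add, mul_comm ((-1 : ℂ[X]) ^ k), mul_assoc, ← pow_add, ← two_mul,
        pow_mul, neg_one_sq, one_pow, mul_one]
    have e6 : (-X : ℂ[X]) ^ l = C ((-1) ^ l) * X ^ l := by
      rw [neg_pow, C_pow, C_neg, C_1]
    rw [e5, e6]
    have e7 : C ((-1 : ℂ) ^ (k + l)) * (C z * (C ((-1) ^ l) * X ^ (k + l + k)) +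
        C ((-1) ^ k * (starRingEnd ℂ) z) * (C ((-1) ^ l) * X ^ l)) =
        C (((-1 : ℂ) ^ (k + l) * (-1) ^ l) * z) * X ^ (k + l + k) +
        C (((-1 : ℂ) ^ (k + l) * (-1) ^ k * (-1) ^ l) * (starRingEnd ℂ) z) * X ^ l := by
      simp only [C_mul]
      ring
    have e8 : (-1 : ℂ) ^ (k + l) * (-1) ^ l = (-1) ^ k := by
      rw [pow_add, mul_assoc, ← pow_add, ← two_mul, pow_mul, neg_one_sq, one_pow, mul_one]
    have e9 : (-1 : ℂ) ^ (k + l) * (-1) ^ k * (-1) ^ l = 1 := by
      rw [mul_assoc, ← pow_add, ← pow_add, ← two_mul, pow_mul, neg_one_sq, one_pow]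
    rw [e7, e8, e9, one_mul, add_comm]

lemma Rl_mid (w : ℕ) (r : ℝ) : Rl w (C (r : ℂ) * X ^ w) where
  deg := (natDegree_C_mul_X_pow_le _ _).trans (by omega)
  refl := by
    rw [Polynomial.map_mul, Polynomial.map_C, Polynomial.map_pow, Polynomial.map_X,
      reflect_C_mul_X_pow, revAt_le (by omega), mul_comp, C_comp, pow_comp, X_comp,
      Complex.conj_ofReal]
    have e1 : 2 * w - w = w := by omega
    have e2 : (-X : ℂ[X]) ^ w = C ((-1) ^ w) * X ^ w := by
      rw [neg_pow, C_pow, C_neg, C_1]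
    rw [e1, e2]
    have e3 : C ((-1 : ℂ) ^ w) * (C (r : ℂ) * (C ((-1 : ℂ) ^ w) * X ^ w)) =
        C (((-1 : ℂ) ^ w * (-1) ^ w) * r) * X ^ w := by
      simp only [C_mul]
      ring
    rw [e3, ← pow_add, ← two_mul, pow_mul, neg_one_sq, one_pow, one_mul]

end Pool.Agent.Work.MP_638b00_ag
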