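import Pool.Agent.Work.MP_638b00_ag.RelBU
import Pool.Agent.Work.MP_638b00_ag.ConicPoly

/-!
# The family of maps from the pointless conic
-/

set_option linter.unusedVariables false

namespace Pool.Agent.Work.MP_638b00_ag

open Polynomial ComplexConjugate

/-! ### the homeomorphism making the action free -/

/-- `ζ ↦ ζ^(j+1) / |ζ|^j` -/
noncomputable def hh (j : ℕ) (ζ : ℂ) : ℂ := ζ ^ (j + 1) / ((‖ζ‖ ^ j : ℝ) : ℂ)

lemma hh_zero (j : ℕ) : hh j 0 = 0 := by
  unfold hh
  simp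

lemma norm_hh (j : ℕ) (ζ : ℂ) : ‖hh j ζ‖ = ‖ζ‖ := by
  by_cases h : ζ = 0
  · rw [h, hh_zero]
  · unfold hh
    have h1 : 0 < ‖ζ‖ := norm_pos_iff.2 h
    rw [norm_div, norm_pow, Complex.norm_real, Real.norm_eq_abs, abs_of_pos (by positivity), pow_succ]
    field_simp

lemma hh_eq_zero {j : ℕ} {ζ : ℂ} (h : hh j ζ = 0) : ζ = 0 := by
  rw [← norm_eq_zero, ← norm_hh j, h, norm_zero]

lemma hh_mul (j : ℕ) (c ζ : ℂ) (hc : ‖c‖ = 1) : hh j (c * ζ) = c ^ (j + 1) * hh j ζ := by
  unfold hh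
  rw [norm_mul, hc, one_mul, mul_pow, mul_div_assoc]

lemma continuous_hh (j : ℕ) : Continuous (hh j) := by
  rw [continuous_iff_continuousAt]
  intro ζ
  by_cases h : ζ = 0
  · subst h
    rw [Metric.continuousAt_iff]
    intro ε hε
    refine ⟨ε, hε, fun x hx => ?_⟩
    rw [hh_zero, dist_zero_right, norm_hh]
    rwa [dist_zero_right] at hx
  · unfold hh
    have h1 : ‖ζ‖ ≠ 0 := norm_ne_zero_iff.2 h
    apply ContinuousAt.div
    · fun_prop
    · exact Complex.continuous_ofReal.continuousAt.comp (continuous_norm.continuousAt.pow j)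
    · rw [Complex.ofReal_ne_zero]
      exact pow_ne_zero _ h1

section family

variable {n w : ℕ}

/-- the norm coordinate -/
noncomputable def kap (v : Fin n ⊕ Fin w → ℂ) : ℝ := max 0 (1 - ‖v‖)

lemma continuous_kap : Continuous (kap : (Fin n ⊕ Fin w → ℂ) → ℝ) :=
  continuous_const.max (continuous_const.sub continuous_norm)

/-- numerators of the coordinates of weight one -/
noncomputable def Xt (p : Option (Fin n) → ℝ) (v : Fin n ⊕ Fin w → ℂ) (i : Fin n) : ℂ[X] :=
  (C (v (Sum.inl i)) * X ^ (1 + 1) + C ((-1) ^ 1 * conj (v (Sum.inl i))) * X ^ (1 - 1)) +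
    C ((kap v * p (some i) : ℝ) : ℂ) * X ^ 1

/-- numerator of the coordinate of weight `w` -/
noncomputable def Yt (p : Option (Fin n) → ℝ) (v : Fin n ⊕ Fin w → ℂ) : ℂ[X] :=
  ∑ k : Fin w, (C (hh k (v (Sum.inr k))) * X ^ (w + (k + 1)) +
    C ((-1) ^ ((k : ℕ) + 1) * conj (hh k (v (Sum.inr k)))) * X ^ (w - (k + 1))) +
      C ((kap v * p none : ℝ) : ℂ) * X ^ w

/-- all numerators -/
noncomputable def GG (p : Option (Fin n) → ℝ) (v : Fin n ⊕ Fin w → ℂ) (o : Option (Fin n)) :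
    ℂ[X] :=
  o.elim (Yt p v) (Xt p v)

/-- the weights -/
def wt (n w : ℕ) (o : Option (Fin n)) : ℕ := o.elim w (fun _ => 1)

/-- the polynomial -/
noncomputable def PP' (f : MvPolynomial (Option (Fin n)) ℝ) (p : Option (Fin n) → ℝ)
    (v : Fin n ⊕ Fin w → ℂ) : ℂ[X] := MvPolynomial.aeval (GG p v) f

lemma Rl_GG (p : Option (Fin n) → ℝ) (v : Fin n ⊕ Fin w → ℂ) (o : Option (Fin n)) :
    Rl (wt n w o) (GG p v o) := by
  rcases o with _ | i
  · change Rl w (Yt p v)
    unfold Yt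
    refine Rl.add ?_ (Rl_mid w _)
    apply Rl.sum
    intro k _
    exact Rl_pair (by omega) _
  · change Rl 1 (Xt p v i)
    unfold Xt
    exact (Rl_pair le_rfl _).add (Rl_mid 1 _)

lemma Rl_PP {d : ℕ} {f : MvPolynomial (Option (Fin n)) ℝ}
    (hf : f.IsWeightedHomogeneous (wt n w) d) (p : Option (Fin n) → ℝ) (v : Fin n ⊕ Fin w → ℂ) :
    Rl d (PP' f p v) := Rl.aeval hf (Rl_GG p v)

lemma CC_pair (a b : ℕ) {c c' : (Fin n ⊕ Fin w → ℂ) → ℂ} (hc : Continuous c)
    (hc' : Continuous c') : CC fun v => C (c v) * X ^ a + C (c' v) * X ^ b :=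
  ((CC.C hc).mul (CC.const _)).add ((CC.C hc').mul (CC.const _))

lemma CC_GG (p : Option (Fin n) → ℝ) (o : Option (Fin n)) : CC fun v : Fin n ⊕ Fin w → ℂ => GG p v o := by
  rcases o with _ | i
  · change CC fun v : Fin n ⊕ Fin w → ℂ => Yt p v
    unfold Yt
    apply CC.add
    · apply CC.sum
      intro k _
      apply CC_pair
      · exact (continuous_hh k).comp (continuous_apply _)
      · exact continuous_const.mul
          (Complex.continuous_conj.comp ((continuous_hh k).comp (continuous_apply _)))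
    · apply CC.mul _ (CC.const _)
      apply CC.C
      apply Complex.continuous_ofReal.comp
      exact continuous_kap.mul continuous_const
  · change CC fun v : Fin n ⊕ Fin w → ℂ => Xt p v i
    unfold Xt
    apply CC.add
    · apply CC_pair
      · exact continuous_apply _
      · exact continuous_const.mul (Complex.continuous_conj.comp (continuous_apply _))
    · apply CC.mul _ (CC.const _)
      apply CC.C
      apply Complex.continuous_ofReal.comp
      exact continuous_kap.mul continuous_const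

lemma CC_PP (f : MvPolynomial (Option (Fin n)) ℝ) (p : Option (Fin n) → ℝ) :
    CC fun v : Fin n ⊕ Fin w → ℂ => PP' f p v := CC.aeval f (CC_GG p)

/-! ### equivariance -/

lemma kap_mul (c : ℂ) (hc : ‖c‖ = 1) (v : Fin n ⊕ Fin w → ℂ) : kap (fun l => c * v l) = kap v := by
  unfold kap
  have : (fun l => c * v l) = c • v := rfl
  rw [this, norm_smul, hc, one_mul]

lemma conj_eq_inv {c : ℂ} (hc : ‖c‖ = 1) : conj c * c = 1 := by
  rw [mul_comm, Complex.mul_conj, Complex.normSq_eq_norm_sq, hc]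
  simp

lemma GG_comp (p : Option (Fin n) → ℝ) (c : ℂ) (hc : ‖c‖ = 1) (v : Fin n ⊕ Fin w → ℂ) (o : Option (Fin n)) :
    (GG p v o).comp (C c * X) = C c ^ (wt n w o) * GG p (fun l => c * v l) o := by
  have hcc : C (conj c) * C c = (1 : ℂ[X]) := by
    rw [← C_mul, conj_eq_inv hc, C_1]
  rcases o with _ | i
  · change (Yt p v).comp (C c * X) = C c ^ w * Yt p (fun l => c * v l)
    unfold Yt
    rw [kap_mul c hc, add_comp, mul_add]
    have hmid : (C ((kap v * p none : ℝ) : ℂ) * X ^ w).comp (C c * X) =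
        C c ^ w * (C ((kap v * p none : ℝ) : ℂ) * X ^ w) := by
      rw [mul_comp, C_comp, pow_comp, X_comp, mul_pow]
      ring
    rw [hmid]
    congr 1
    rw [← coe_compRingHom_apply, map_sum, Finset.mul_sum]
    apply Finset.sum_congr rfl
    intro k _
    have e4 : conj (c ^ ((k : ℕ) + 1) * hh k (v (Sum.inr k))) =
        conj c ^ ((k : ℕ) + 1) * conj (hh k (v (Sum.inr k))) := by
      rw [map_mul, map_pow]
    rw [coe_compRingHom_apply, add_comp, mul_comp, mul_comp, C_comp, C_comp, pow_comp, pow_comp,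
      X_comp, hh_mul _ _ _ hc, mul_pow, mul_pow, e4]
    obtain ⟨l, hl⟩ := Nat.exists_eq_add_of_le (Nat.succ_le_of_lt k.2)
    have e1 : w - ((k : ℕ) + 1) = l := by omega
    rw [e1]
    have e2' : ∀ k' w' : ℕ, w' = k' + l → C c ^ w' * C (conj c) ^ k' = C c ^ l := by
      intro k' w' h
      rw [h, pow_add, mul_right_comm, ← mul_pow, mul_comm (C c), hcc, one_pow, one_mul]
    have e2 := e2' ((k : ℕ) + 1) w hl
    simp only [C_mul, C_pow]
    have e3 : C c ^ (w + ((k : ℕ) + 1)) = C c ^ w * C c ^ ((k : ℕ) + 1) := pow_add _ _ _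
    rw [e3, ← e2]
    ring
  · change (Xt p v i).comp (C c * X) = C c ^ 1 * Xt p (fun l => c * v l) i
    unfold Xt
    rw [kap_mul c hc]
    simp only [add_comp, mul_comp, C_comp, pow_comp, X_comp, mul_pow, map_mul, pow_one,
      Nat.sub_self, pow_zero, mul_one]
    have e : C c * (C (v (Sum.inl i)) * C c * X ^ 2) = C (v (Sum.inl i)) * (C c ^ 2 * X ^ 2) := by
      ring
    linear_combination (-(C (-1) * C (conj (v (Sum.inl i))))) * hcc

lemma PP_comp {d : ℕ} {f : MvPolynomial (Option (Fin n)) ℝ}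
    (hf : f.IsWeightedHomogeneous (wt n w) d) (p : Option (Fin n) → ℝ) (c : ℂ) (hc : ‖c‖ = 1)
    (v : Fin n ⊕ Fin w → ℂ) :
    (PP' f p v).comp (C c * X) = C c ^ d * PP' f p (fun l => c * v l) := by
  unfold PP'
  rw [← aeval_wh hf]
  have h1 : (fun s => C c ^ wt n w s * GG p (fun l => c * v l) s) =
      fun s => (GG p v s).comp (C c * X) := by
    funext s
    rw [GG_comp p c hc]
  rw [h1]
  -- composition is a ring homomorphism
  have h2 : ∀ p : ℂ[X], p.comp (C c * X) = (Polynomial.compRingHom (C c * X)) p := fun _ => rfl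
  simp only [h2]
  rw [MvPolynomial.aeval_def, MvPolynomial.aeval_def, MvPolynomial.hom_eval₂]
  congr 1
  ext r
  simp

lemma PP_coeff {d : ℕ} {f : MvPolynomial (Option (Fin n)) ℝ}
    (hf : f.IsWeightedHomogeneous (wt n w) d) (p : Option (Fin n) → ℝ) (c : ℂ) (hc : ‖c‖ = 1)
    (v : Fin n ⊕ Fin w → ℂ) (r : ℕ) :
    (PP' f p (fun l => c * v l)).coeff (d + r) = c ^ r * (PP' f p v).coeff (d + r) := by
  have h := congrArg (fun p => Polynomial.coeff p (d + r)) (PP_comp hf p c hc v)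
  simp only [comp_C_mul_X_coeff] at h
  rw [← C_pow, coeff_C_mul, pow_add] at h
  have hc0 : c ^ d ≠ 0 := by
    apply pow_ne_zero
    rw [← norm_ne_zero_iff, hc]
    exact one_ne_zero
  apply mul_left_cancel₀ hc0
  rw [← h]
  ring

/-! ### the pole and the equator -/

lemma GG_zero (p : Option (Fin n) → ℝ) (o : Option (Fin n)) :
    GG p (0 : Fin n ⊕ Fin w → ℂ) o = X ^ wt n w o * algebraMap ℝ ℂ[X] (p o) := by
  have hk : kap (0 : Fin n ⊕ Fin w → ℂ) = 1 := by
    unfold kap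
    rw [norm_zero, sub_zero]
    exact max_eq_right zero_le_one
  have h2 : ∀ r : ℝ, algebraMap ℝ ℂ[X] r = C (r : ℂ) := fun _ => rfl
  rcases o with _ | i
  · change Yt p 0 = X ^ w * _
    unfold Yt
    rw [hk, one_mul, h2]
    simp only [Pi.zero_apply, hh_zero, map_zero, zero_mul, mul_zero, add_zero,
      Finset.sum_const_zero, zero_add]
    exact mul_comm _ _
  · change Xt p 0 i = X ^ 1 * _
    unfold Xt
    rw [hk, one_mul, h2]
    simp only [Pi.zero_apply, map_zero, zero_mul, mul_zero, add_zero, zero_add]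
    exact mul_comm _ _

lemma PP_zero {d : ℕ} {f : MvPolynomial (Option (Fin n)) ℝ}
    (hf : f.IsWeightedHomogeneous (wt n w) d) (p : Option (Fin n) → ℝ) :
    (PP' f p (0 : Fin n ⊕ Fin w → ℂ)).coeff d = ((MvPolynomial.eval p f : ℝ) : ℂ) := by
  unfold PP'
  have h1 : (GG p (0 : Fin n ⊕ Fin w → ℂ)) = fun o => X ^ wt n w o *
      algebraMap ℝ ℂ[X] (p o) := by
    funext o
    exact GG_zero p o
  rw [h1, aeval_wh hf, aeval_am, mul_comm]
  have h2 : ∀ r : ℝ, algebraMap ℝ ℂ[X] r = C (r : ℂ) := fun _ => rfl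
  rw [h2, coeff_C_mul_X_pow, if_pos rfl]

lemma PP_eq_of {d : ℕ} {f : MvPolynomial (Option (Fin n)) ℝ}
    (hf : f.IsWeightedHomogeneous (wt n w) d) (p : Option (Fin n) → ℝ) (v : Fin n ⊕ Fin w → ℂ)
    (h : ∀ r : Fin d, (PP' f p v).coeff (d + ((r : ℕ) + 1)) = 0) :
    PP' f p v = C (((PP' f p v).coeff d).re : ℂ) * X ^ d := by
  have hR := Rl_PP hf p v
  have hup : ∀ j, d < j → (PP' f p v).coeff j = 0 := by
    intro j hj
    by_cases h2 : j ≤ 2 * d
    · have h3 := h ⟨j - d - 1, by omega⟩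
      have e : d + ((j - d - 1) + 1) = j := by omega
      simpa only [e] using h3
    · exact coeff_eq_zero_of_natDegree_lt (lt_of_le_of_lt hR.deg (by omega))
  have hlow : ∀ j, j < d → (PP' f p v).coeff j = 0 := by
    intro j hj
    have h3 := hR.coeff (j := j) (by omega)
    rw [hup _ (by omega), map_zero] at h3
    have h4 : ((-1 : ℂ) ^ (d + j)) ≠ 0 := pow_ne_zero _ (by norm_num)
    exact (mul_eq_zero.1 h3.symm).resolve_left h4
  have hmid : (((PP' f p v).coeff d).re : ℂ) = (PP' f p v).coeff d := by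
    have h3 := hR.coeff (j := d) (by omega)
    have e : 2 * d - d = d := by omega
    rw [e, ← two_mul, pow_mul, neg_one_sq, one_pow, one_mul] at h3
    exact Complex.conj_eq_iff_re.1 h3
  ext j
  rw [coeff_C_mul_X_pow]
  by_cases hj : j = d
  · rw [if_pos hj, hj, hmid]
  · rw [if_neg hj]
    rcases lt_or_gt_of_ne hj with h1 | h1
    · exact hlow j h1
    · exact hup j h1

/-- the values of the coordinate of weight `w` on the circle -/
noncomputable def Yv (v : Fin n ⊕ Fin w → ℂ) (ζ : ℂ) : ℂ :=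
  ∑ k : Fin w, (hh k (v (Sum.inr k)) * ζ ^ ((k : ℕ) + 1) +
    (-1) ^ ((k : ℕ) + 1) * conj (hh k (v (Sum.inr k)) * ζ ^ ((k : ℕ) + 1)))

lemma eval_Yt (p : Option (Fin n) → ℝ) (v : Fin n ⊕ Fin w → ℂ) (hv : kap v = 0) {ζ : ℂ}
    (hζ : ‖ζ‖ = 1) : eval ζ (Yt p v) = ζ ^ w * Yv v ζ := by
  have hc := conj_eq_inv hζ
  unfold Yt Yv
  rw [hv, zero_mul, Complex.ofReal_zero, C_0, zero_mul, add_zero, eval_finsetSum, Finset.mul_sum]
  apply Finset.sum_congr rfl
  intro k _
  rw [eval_add, eval_mul, eval_mul, eval_C, eval_C, eval_pow, eval_pow, eval_X, map_mul, map_pow]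
  obtain ⟨l, hl⟩ := Nat.exists_eq_add_of_le (Nat.succ_le_of_lt k.2)
  have e1 : w - ((k : ℕ) + 1) = l := by omega
  rw [e1]
  have e2' : ∀ k' w' : ℕ, w' = k' + l → ζ ^ w' * conj ζ ^ k' = ζ ^ l := by
    intro k' w' h
    rw [h, pow_add, mul_right_comm, ← mul_pow, mul_comm ζ, hc, one_pow, one_mul]
  have e2 := e2' ((k : ℕ) + 1) w hl
  rw [← e2]
  ring

lemma sum_roots {N k : ℕ} (hk : 0 < k) (hkN : k < N) (z : ℂ) :
    ∑ j ∈ Finset.range N, z * (Complex.exp (((2 * Real.pi * j / N : ℝ) : ℂ) * Complex.I)) ^ k =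
      0 := by
  have hN : N ≠ 0 := by omega
  have hprim := Complex.isPrimitiveRoot_exp N hN
  set ω := Complex.exp (2 * Real.pi * Complex.I / N) with hω
  have h1 : ∀ j ∈ Finset.range N,
      z * (Complex.exp (((2 * Real.pi * j / N : ℝ) : ℂ) * Complex.I)) ^ k = z * (ω ^ k) ^ j := by
    intro j _
    have e : Complex.exp (((2 * Real.pi * j / N : ℝ) : ℂ) * Complex.I) = ω ^ j := by
      rw [hω, ← Complex.exp_nat_mul]
      congr 1
      push_cast
      ring
    rw [e, ← pow_mul, ← pow_mul, mul_comm j k]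
  rw [Finset.sum_congr rfl h1, ← Finset.mul_sum]
  have h2 : ω ^ k ≠ 1 := hprim.pow_ne_one_of_pos_of_lt hk.ne' hkN
  have h3 : (ω ^ k) ^ N = 1 := by
    rw [← pow_mul, mul_comm, pow_mul, hprim.pow_eq_one, one_pow]
  rw [geom_sum_eq h2, h3, sub_self, zero_div, mul_zero]

lemma exists_good (v : Fin n ⊕ Fin w → ℂ) :
    ∃ ζ : ℂ, ‖ζ‖ = 1 ∧ ∃ y : ℝ, Yv v ζ = Complex.I ^ w * y := by
  set b : ℝ → ℝ := fun θ => (Yv v (Complex.exp ((θ : ℂ) * Complex.I)) * (-Complex.I) ^ w).im with hb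
  have hcont : Continuous b := by
    have h1 : Continuous fun θ : ℝ => Complex.exp ((θ : ℂ) * Complex.I) := by fun_prop
    have h2 : Continuous fun θ : ℝ => Yv v (Complex.exp ((θ : ℂ) * Complex.I)) := by
      unfold Yv
      apply continuous_finsetSum
      intro k _
      have h3 : Continuous fun θ : ℝ => hh k (v (Sum.inr k)) *
          Complex.exp ((θ : ℂ) * Complex.I) ^ ((k : ℕ) + 1) := by fun_prop
      exact h3.add (continuous_const.mul (Complex.continuous_conj.comp h3))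
    exact Complex.continuous_im.comp (h2.mul continuous_const)
  have hsum : ∑ j ∈ Finset.range (w + 1), b (2 * Real.pi * j / (w + 1 : ℕ)) = 0 := by
    simp only [hb]
    rw [← Complex.im_sum, ← Finset.sum_mul]
    have h1 : ∑ j ∈ Finset.range (w + 1),
        Yv v (Complex.exp (((2 * Real.pi * j / (w + 1 : ℕ) : ℝ) : ℂ) * Complex.I)) = 0 := by
      unfold Yv
      rw [Finset.sum_comm]
      apply Finset.sum_eq_zero
      intro k _
      have e5 := sum_roots (N := w + 1) (Nat.succ_pos (k : ℕ)) (Nat.succ_lt_succ k.2)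
        (hh k (v (Sum.inr k)))
      rw [Finset.sum_add_distrib, e5, zero_add, ← Finset.mul_sum, ← map_sum, e5, map_zero,
        mul_zero]
    rw [h1, zero_mul, Complex.zero_im]
  obtain ⟨θ, hθ⟩ : ∃ θ, b θ = 0 := by
    have h1 : ∃ a, b a ≤ 0 := by
      by_contra hcon
      push Not at hcon
      have : 0 < ∑ j ∈ Finset.range (w + 1), b (2 * Real.pi * j / (w + 1 : ℕ)) :=
        Finset.sum_pos (fun j _ => hcon _) ⟨0, Finset.mem_range.2 (Nat.succ_pos _)⟩
      linarith
    have h2 : ∃ a, 0 ≤ b a := by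
      by_contra hcon
      push Not at hcon
      have : ∑ j ∈ Finset.range (w + 1), b (2 * Real.pi * j / (w + 1 : ℕ)) < 0 :=
        Finset.sum_neg (fun j _ => hcon _) ⟨0, Finset.mem_range.2 (Nat.succ_pos _)⟩
      linarith
    exact mem_range_of_exists_le_of_exists_ge hcont h1 h2
  refine ⟨_, Complex.norm_exp_ofReal_mul_I θ,
    (Yv v (Complex.exp ((θ : ℂ) * Complex.I)) * (-Complex.I) ^ w).re, ?_⟩
  set Z := Yv v (Complex.exp ((θ : ℂ) * Complex.I)) * (-Complex.I) ^ w with hZ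
  have h3 : (Z.re : ℂ) = Z := by
    apply Complex.ext
    · simp
    · rw [Complex.ofReal_im]
      exact hθ.symm
  rw [h3, hZ, mul_comm (Complex.I ^ w), mul_assoc, ← mul_pow, neg_mul, Complex.I_mul_I, neg_neg,
    one_pow, mul_one]

lemma eval_Xt (p : Option (Fin n) → ℝ) (v : Fin n ⊕ Fin w → ℂ) (hv : kap v = 0) {ζ : ℂ} (hζ : ‖ζ‖ = 1)
    (i : Fin n) :
    eval ζ (Xt p v i) = (ζ * Complex.I) ^ 1 * ((2 * (v (Sum.inl i) * ζ).im : ℝ) : ℂ) := by
  have hc := conj_eq_inv hζ
  unfold Xt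
  rw [hv]
  simp only [zero_mul, Complex.ofReal_zero, C_0, add_zero, eval_add, eval_mul, eval_C,
    eval_pow, eval_X, Nat.sub_self, pow_zero, mul_one, pow_one]
  have h1 := Complex.sub_conj (v (Sum.inl i) * ζ)
  have h2 : ζ * Complex.I * ((2 * (v (Sum.inl i) * ζ).im : ℝ) : ℂ) =
      ζ * (v (Sum.inl i) * ζ - conj (v (Sum.inl i) * ζ)) := by
    rw [h1]
    ring
  rw [h2, map_mul]
  linear_combination conj (v (Sum.inl i)) * hc

/-- the constant is `I ^ d` times a value of the form on the equator -/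
lemma equator {d : ℕ} {f : MvPolynomial (Option (Fin n)) ℝ}
    (hf : f.IsWeightedHomogeneous (wt n w) d) (p : Option (Fin n) → ℝ) (v : Fin n ⊕ Fin w → ℂ)
    (hv : kap v = 0) (h : ∀ r : Fin d, (PP' f p v).coeff (d + ((r : ℕ) + 1)) = 0) :
    ∃ x : Option (Fin n) → ℝ,
      (((PP' f p v).coeff d).re : ℂ) = Complex.I ^ d * ((MvPolynomial.eval x f : ℝ) : ℂ) := by
  obtain ⟨ζ, hζ, y, hy⟩ := exists_good v
  refine ⟨fun o => o.elim y (fun i => 2 * (v (Sum.inl i) * ζ).im), ?_⟩
  have hζ0 : ζ ≠ 0 := by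
    rw [← norm_ne_zero_iff, hζ]
    exact one_ne_zero
  have h1 := congrArg (eval ζ) (PP_eq_of hf p v h)
  rw [eval_mul, eval_C, eval_pow, eval_X] at h1
  have h2 : eval ζ (PP' f p v) = (ζ * Complex.I) ^ d * ((MvPolynomial.eval
      (fun o : Option (Fin n) => o.elim y (fun i => 2 * (v (Sum.inl i) * ζ).im)) f : ℝ) : ℂ) := by
    unfold PP'
    have e1 : ∀ p : ℂ[X], eval ζ p = ((Polynomial.aeval ζ : ℂ[X] →ₐ[ℂ] ℂ).restrictScalars ℝ) p := by
      intro p
      rw [AlgHom.restrictScalars_apply, Polynomial.coe_aeval_eq_eval]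
    rw [e1, MvPolynomial.comp_aeval_apply]
    have e2 : (fun o => ((Polynomial.aeval ζ : ℂ[X] →ₐ[ℂ] ℂ).restrictScalars ℝ) (GG p v o)) =
        fun o => (ζ * Complex.I) ^ wt n w o * algebraMap ℝ ℂ
          (o.elim y (fun i => 2 * (v (Sum.inl i) * ζ).im)) := by
      funext o
      rw [← e1]
      rcases o with _ | i
      · change eval ζ (Yt p v) = (ζ * Complex.I) ^ w * (y : ℂ)
        rw [eval_Yt p v hv hζ, hy, mul_pow]
        ring
      · change eval ζ (Xt p v i) = (ζ * Complex.I) ^ 1 * ((2 * (v (Sum.inl i) * ζ).im : ℝ) : ℂ)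
        exact eval_Xt p v hv hζ i
    rw [e2, aeval_wh hf, aeval_am]
    rfl
  rw [h2, mul_pow] at h1
  apply mul_right_cancel₀ (pow_ne_zero d hζ0)
  rw [← h1]
  ring

end family

end Pool.Agent.Work.MP_638b00_ag
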