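import Pool.Agent.Work.MP_638b00_ag.ConicMain

/-!
# Conics on real hypersurfaces
-/

set_option linter.unusedVariables false
set_option linter.unusedSectionVars false

namespace Pool.Agent.Work.MP_638b00_ag

open ComplexConjugate

section geom

/-- a form vanishing on a degenerate family of points of a conic has a real zero, main case -/
lemma real_zero_aux {σ : Type*} {d : ℕ} {f : MvPolynomial σ ℝ}
    (hf : f.IsWeightedHomogeneous (fun _ => 1) d) (A B G : σ → ℝ)
    (h : ∀ a b : ℂ, a * a + b * b = -1 →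
      MvPolynomial.aeval (fun o => (A o : ℂ) + B o * a + G o * b) f = 0)
    (hne : ¬ (A = 0 ∧ B = 0 ∧ G = 0)) {x y z : ℝ} (hx : x ≠ 0)
    (hdep : ∀ o, x * A o + y * B o + z * G o = 0) :
    ∃ q : σ → ℝ, q ≠ 0 ∧ MvPolynomial.eval q f = 0 := by
  -- a real vector with nonzero image
  obtain ⟨r0, r1, r2, hr⟩ : ∃ r0 r1 r2 : ℝ, (fun o => r0 * A o + r1 * B o + r2 * G o) ≠ 0 := by
    by_contra hcon
    push Not at hcon
    apply hne
    refine ⟨?_, ?_, ?_⟩
    · have := hcon 1 0 0
      simpa using this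
    · have := hcon 0 1 0
      simpa using this
    · have := hcon 0 0 1
      simpa using this
  have hk : (0 : ℝ) < x * x + y * y + z * z := by
    have := mul_self_pos.2 hx
    nlinarith [mul_self_nonneg y, mul_self_nonneg z]
  -- the intersection with the conic
  obtain ⟨l, hl⟩ : ∃ l : ℂ, ((x * x + y * y + z * z : ℝ) : ℂ) * (l * l) +
      ((2 * (r0 * x + r1 * y + r2 * z) : ℝ) : ℂ) * l + ((r0 * r0 + r1 * r1 + r2 * r2 : ℝ) : ℂ) =
        0 := by
    apply exists_quadratic_eq_zero
    · exact_mod_cast hk.ne'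
    · exact IsAlgClosed.exists_eq_mul_self _
  have hs : (r0 : ℂ) + l * x ≠ 0 := by
    intro h0
    have hxc : (x : ℂ) ≠ 0 := by exact_mod_cast hx
    have hlr : l = ((-r0 / x : ℝ) : ℂ) := by
      push_cast
      rw [eq_div_iff hxc]
      linear_combination h0
    set m : ℝ := -r0 / x with hm
    rw [hlr] at hl
    have hl' : (x * x + y * y + z * z) * (m * m) + (2 * (r0 * x + r1 * y + r2 * z)) * m +
        (r0 * r0 + r1 * r1 + r2 * r2) = 0 := by exact_mod_cast hl
    have h1 : (r0 + m * x) * (r0 + m * x) + (r1 + m * y) * (r1 + m * y) +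
        (r2 + m * z) * (r2 + m * z) = 0 := by linear_combination hl'
    have h2 : r0 + m * x = 0 := by
      nlinarith [mul_self_nonneg (r0 + m * x), mul_self_nonneg (r1 + m * y),
        mul_self_nonneg (r2 + m * z)]
    have h3 : r1 + m * y = 0 := by
      nlinarith [mul_self_nonneg (r0 + m * x), mul_self_nonneg (r1 + m * y),
        mul_self_nonneg (r2 + m * z)]
    have h4 : r2 + m * z = 0 := by
      nlinarith [mul_self_nonneg (r0 + m * x), mul_self_nonneg (r1 + m * y),
        mul_self_nonneg (r2 + m * z)]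
    apply hr
    funext o
    have h5 := hdep o
    change r0 * A o + r1 * B o + r2 * G o = 0
    linear_combination A o * h2 + B o * h3 + G o * h4 - m * h5
  set s : ℂ := (r0 : ℂ) + l * x with hsdef
  have h1 := h (((r1 : ℂ) + l * y) / s) (((r2 : ℂ) + l * z) / s) (by
    field_simp
    push_cast at hl
    rw [hsdef]
    linear_combination hl)
  refine ⟨fun o => r0 * A o + r1 * B o + r2 * G o, hr, ?_⟩
  have h2 := aeval_wh hf s (fun o => (A o : ℂ) + B o * (((r1 : ℂ) + l * y) / s) +
    G o * (((r2 : ℂ) + l * z) / s))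
  rw [h1, mul_zero] at h2
  have h3 : (fun o => s ^ 1 * ((A o : ℂ) + B o * (((r1 : ℂ) + l * y) / s) +
      G o * (((r2 : ℂ) + l * z) / s))) =
      fun o => algebraMap ℝ ℂ (r0 * A o + r1 * B o + r2 * G o) := by
    funext o
    have h4 : (x : ℂ) * A o + y * B o + z * G o = 0 := by exact_mod_cast hdep o
    change _ = ((r0 * A o + r1 * B o + r2 * G o : ℝ) : ℂ)
    have h5 : s ^ 1 * ((A o : ℂ) + B o * (((r1 : ℂ) + l * y) / s) +
        G o * (((r2 : ℂ) + l * z) / s)) = s * A o + B o * ((r1 : ℂ) + l * y) +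
          G o * ((r2 : ℂ) + l * z) := by
      field_simp
    rw [h5, hsdef]
    push_cast
    linear_combination l * h4
  rw [h3, aeval_am] at h2
  exact (map_eq_zero (algebraMap ℝ ℂ)).1 h2

/-- a form vanishing on a degenerate family of points of a conic has a real zero -/
lemma real_zero_of_dep {σ : Type*} {d : ℕ} {f : MvPolynomial σ ℝ}
    (hf : f.IsWeightedHomogeneous (fun _ => 1) d) (A B G : σ → ℝ)
    (h : ∀ a b : ℂ, a * a + b * b = -1 →
      MvPolynomial.aeval (fun o => (A o : ℂ) + B o * a + G o * b) f = 0)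
    (hne : ¬ (A = 0 ∧ B = 0 ∧ G = 0)) {x y z : ℝ} (hxyz : ¬ (x = 0 ∧ y = 0 ∧ z = 0))
    (hdep : ∀ o, x * A o + y * B o + z * G o = 0) :
    ∃ q : σ → ℝ, q ≠ 0 ∧ MvPolynomial.eval q f = 0 := by
  by_cases hx : x = 0
  · by_cases hA : A = 0
    · apply real_zero_aux hf A B G h hne (x := 1) (y := 0) (z := 0) one_ne_zero
      intro o
      rw [hA]
      simp
    · subst hx
      refine ⟨A, hA, ?_⟩
      have hyz : (0 : ℝ) < y * y + z * z := by
        by_cases hy : y = 0
        · have hz : z ≠ 0 := fun hz => hxyz ⟨rfl, hy, hz⟩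
          have := mul_self_pos.2 hz
          nlinarith [mul_self_nonneg y]
        · have := mul_self_pos.2 hy
          nlinarith [mul_self_nonneg z]
      have hyz' : ((y * y + z * z : ℝ) : ℂ) ≠ 0 := by exact_mod_cast hyz.ne'
      obtain ⟨l, hl⟩ := IsAlgClosed.exists_eq_mul_self (-(1 / ((y * y + z * z : ℝ) : ℂ)))
      have h1 := h (l * y) (l * z) (by
        have h2 : l * y * (l * y) + l * z * (l * z) = (l * l) * ((y * y + z * z : ℝ) : ℂ) := by
          push_cast
          ring
        rw [h2, ← hl, neg_mul, one_div, inv_mul_cancel₀ hyz'])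
      have h3 : (fun o => (A o : ℂ) + B o * (l * y) + G o * (l * z)) =
          fun o => algebraMap ℝ ℂ (A o) := by
        funext o
        have h4 : (y : ℂ) * B o + z * G o = 0 := by
          have := hdep o
          rw [zero_mul, zero_add] at this
          exact_mod_cast this
        change _ = (A o : ℂ)
        linear_combination l * h4
      rw [h3, aeval_am] at h1
      exact (map_eq_zero (algebraMap ℝ ℂ)).1 h1
  · exact real_zero_aux hf A B G h hne hx hdep

variable {n d : ℕ}

lemma wt_one (n : ℕ) : wt n 1 = fun _ => 1 := by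
  funext o
  rcases o with _ | i
  · rfl
  · rfl

lemma scaled {σ : Type*} {d : ℕ} {f : MvPolynomial σ ℝ}
    (hf : f.IsWeightedHomogeneous (fun _ => 1) d) {κ : ℝ} (hκ0 : κ ≠ 0) (p B0 G0 : σ → ℝ)
    {K : Type*} [Field K] [Algebra ℝ K] {a b : K}
    (h1 : MvPolynomial.aeval (fun o => algebraMap ℝ K (κ * p o) + algebraMap ℝ K (B0 o) * a +
          algebraMap ℝ K (G0 o) * b) f = 0) :
    MvPolynomial.aeval (fun o => algebraMap ℝ K (p o) + algebraMap ℝ K (B0 o / κ) * a +
          algebraMap ℝ K (G0 o / κ) * b) f = 0 := by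
  have h2 := aeval_wh hf (algebraMap ℝ K κ) (fun o => algebraMap ℝ K (p o) +
    algebraMap ℝ K (B0 o / κ) * a + algebraMap ℝ K (G0 o / κ) * b)
  have hκ1 : algebraMap ℝ K κ ≠ 0 := (map_ne_zero _).2 hκ0
  have h3 : (fun o => algebraMap ℝ K κ ^ 1 * (algebraMap ℝ K (p o) +
      algebraMap ℝ K (B0 o / κ) * a + algebraMap ℝ K (G0 o / κ) * b)) =
      fun o => algebraMap ℝ K (κ * p o) + algebraMap ℝ K (B0 o) * a +
        algebraMap ℝ K (G0 o) * b := by
    funext o
    have e1 : algebraMap ℝ K (B0 o) = algebraMap ℝ K κ * algebraMap ℝ K (B0 o / κ) := by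
      rw [← map_mul, mul_div_cancel₀ _ hκ0]
    have e2 : algebraMap ℝ K (G0 o) = algebraMap ℝ K κ * algebraMap ℝ K (G0 o / κ) := by
      rw [← map_mul, mul_div_cancel₀ _ hκ0]
    rw [e1, e2, map_mul]
    ring
  rw [h3, h1] at h2
  exact (mul_eq_zero.1 h2.symm).resolve_left (pow_ne_zero _ hκ1)

/-- the points at infinity of the conic -/
lemma infinity_aux {σ : Type*} {d : ℕ} {f : MvPolynomial σ ℝ}
    (hf : f.IsWeightedHomogeneous (fun _ => 1) d) (p β γ : σ → ℝ)
    (h : ∀ a b : ℂ, a * a + b * b = -1 →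
      MvPolynomial.aeval (fun o => (p o : ℂ) + β o * a + γ o * b) f = 0) :
    MvPolynomial.aeval (fun o => (β o : ℂ) + γ o * Complex.I) f = 0 := by
  set Q : Polynomial ℂ := MvPolynomial.aeval (fun o => Polynomial.C ((β o : ℂ) + γ o * Complex.I) +
    Polynomial.C (2 * (p o : ℂ)) * Polynomial.X +
      Polynomial.C (-(β o : ℂ) + γ o * Complex.I) * Polynomial.X ^ 2) f with hQ
  have hev : ∀ S : ℂ, Polynomial.eval S Q = MvPolynomial.aeval (fun o =>
      ((β o : ℂ) + γ o * Complex.I) + 2 * (p o : ℂ) * S +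
        (-(β o : ℂ) + γ o * Complex.I) * S ^ 2) f := by
    intro S
    have e1 : ∀ p : Polynomial ℂ, Polynomial.eval S p =
        ((Polynomial.aeval S : Polynomial ℂ →ₐ[ℂ] ℂ).restrictScalars ℝ) p := by
      intro p
      rw [AlgHom.restrictScalars_apply, Polynomial.coe_aeval_eq_eval]
    rw [e1, hQ, MvPolynomial.comp_aeval_apply]
    congr 1
    apply congrArg
    funext o
    rw [← e1]
    simp
  have hroot : ∀ S : ℂ, S ≠ 0 → Polynomial.eval S Q = 0 := by
    intro S hS
    rw [hev]
    have h1 := h ((1 - S ^ 2) / (2 * S)) (Complex.I * (1 + S ^ 2) / (2 * S)) (by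
      field_simp
      ring_nf
      rw [Complex.I_sq]
      ring)
    have h2 := aeval_wh hf (2 * S) (fun o => (p o : ℂ) + β o * ((1 - S ^ 2) / (2 * S)) +
      γ o * (Complex.I * (1 + S ^ 2) / (2 * S)))
    rw [h1, mul_zero] at h2
    refine Eq.trans ?_ h2
    congr 1
    apply congrArg
    funext o
    field_simp
    ring
  have hQ0 : Q = 0 := by
    apply Polynomial.eq_zero_of_infinite_isRoot
    apply Set.Infinite.mono (s := {0}ᶜ)
    · intro S hS
      exact hroot S hS
    · exact (Set.finite_singleton (0 : ℂ)).infinite_compl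
  have h3 := hev 0
  rw [hQ0, Polynomial.eval_zero] at h3
  rw [h3]
  congr 1
  apply congrArg
  funext o
  simp

/-- all the points of the conic -/
lemma full_conic {σ : Type*} {d : ℕ} {f : MvPolynomial σ ℝ} (hd : 0 < d)
    (hf : f.IsWeightedHomogeneous (fun _ => 1) d) (p β γ : σ → ℝ)
    (hC : ∀ a b : ℂ, a * a + b * b = -1 →
      MvPolynomial.aeval (fun o => (p o : ℂ) + β o * a + γ o * b) f = 0)
    {K : Type*} [Field K] [Algebra ℝ K]
    (hK : ∀ a b : K, a * a + b * b = -1 →
      MvPolynomial.aeval (fun o => algebraMap ℝ K (p o) + algebraMap ℝ K (β o) * a +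
        algebraMap ℝ K (γ o) * b) f = 0) (s a b : K) (hs : s ^ 2 + a ^ 2 + b ^ 2 = 0) :
    MvPolynomial.aeval (fun o => s * algebraMap ℝ K (p o) + a * algebraMap ℝ K (β o) +
        b * algebraMap ℝ K (γ o)) f = 0 := by
  by_cases h0 : s = 0
  · subst h0
    by_cases ha : a = 0
    · subst ha
      have hb : b = 0 := by
        have : b ^ 2 = 0 := by linear_combination hs
        exact pow_eq_zero_iff two_ne_zero |>.1 this
      subst hb
      have h2 := aeval_wh hf (0 : K) (fun o => algebraMap ℝ K (p o))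
      rw [zero_pow hd.ne', zero_mul] at h2
      refine Eq.trans ?_ h2
      congr 1
      apply congrArg
      funext o
      ring
    · have hJ : b / a * (b / a) = -1 := by
        field_simp
        linear_combination hs
      have h1 := infinity_aux hf p β γ hC
      have h2 : MvPolynomial.aeval (fun o => io hJ ((β o : ℂ) + γ o * Complex.I)) f = 0 := by
        rw [aeval_comp_alg, h1, map_zero]
      have h3 : ∀ o, io hJ ((β o : ℂ) + γ o * Complex.I) =
          algebraMap ℝ K (β o) + algebraMap ℝ K (γ o) * (b / a) := by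
        intro o
        rw [io_apply]
        simp
      simp only [h3] at h2
      have h4 := aeval_wh hf a (fun o => algebraMap ℝ K (β o) + algebraMap ℝ K (γ o) * (b / a))
      rw [h2, mul_zero] at h4
      refine Eq.trans ?_ h4
      congr 1
      apply congrArg
      funext o
      field_simp
      ring
  · have h1 := hK (a / s) (b / s) (by
      field_simp
      linear_combination hs)
    have h2 := aeval_wh hf s (fun o => algebraMap ℝ K (p o) + algebraMap ℝ K (β o) * (a / s) +
        algebraMap ℝ K (γ o) * (b / s))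
    rw [h1, mul_zero] at h2
    refine Eq.trans ?_ h2
    congr 1
    apply congrArg
    funext o
    field_simp

/-- conics with given center -/
theorem conic_center_option {f : MvPolynomial (Option (Fin n)) ℝ} (hn : 1 ≤ n) (hdn : d < n + 1)
    (hd : ¬ 4 ∣ d) (hf : f.IsWeightedHomogeneous (fun _ => 1) d)
    (hreal : ∀ x : Option (Fin n) → ℝ, x ≠ 0 → MvPolynomial.eval x f ≠ 0)
    {p : Option (Fin n) → ℝ} (hp : p ≠ 0) :
    ∃ β γ : Option (Fin n) → ℝ, LinearIndependent ℝ ![p, β, γ] ∧
      ∀ (K : Type*) [Field K] [Algebra ℝ K] (s a b : K), s ^ 2 + a ^ 2 + b ^ 2 = 0 →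
        MvPolynomial.aeval (fun o => s * algebraMap ℝ K (p o) + a * algebraMap ℝ K (β o) +
          b * algebraMap ℝ K (γ o)) f = 0 := by
  have hf' : f.IsWeightedHomogeneous (wt n 1) d := by
    rw [wt_one]
    exact hf
  obtain ⟨v, hv⟩ := exists_family' hn hdn hd hf' hreal hp
  set κ : ℝ := kap v with hκ
  set B0 : Option (Fin n) → ℝ := fun o => 2 * (uvec v o).re with hB0
  set G0 : Option (Fin n) → ℝ := fun o => -2 * (uvec v o).im with hG0
  have hall2 : ∀ a b : ℂ, a * a + b * b = -1 →
      MvPolynomial.aeval (fun o => ((κ * p o : ℝ) : ℂ) + B0 o * a + G0 o * b) f = 0 := by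
    intro a b hab
    exact conic_point hf' hv hab
  have hnoz : ¬ ∃ q : Option (Fin n) → ℝ, q ≠ 0 ∧ MvPolynomial.eval q f = 0 := by
    rintro ⟨q, hq, hq0⟩
    exact hreal q hq hq0
  have hκ0 : κ ≠ 0 := by
    intro h0
    apply hnoz
    refine real_zero_of_dep hf (fun o => κ * p o) B0 G0 hall2 ?_ (x := 1) (y := 0) (z := 0)
      (by simp) (by intro o; rw [h0]; simp)
    rintro ⟨-, h1, h2⟩
    have h3 : ∀ o, uvec v o = 0 := by
      intro o
      have h4 := congrFun h1 o
      have h5 := congrFun h2 o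
      simp only [hB0, hG0, Pi.zero_apply] at h4 h5
      apply Complex.ext
      · rw [Complex.zero_re]; linarith
      · rw [Complex.zero_im]; linarith
    have h6 : v = 0 := by
      funext l
      rcases l with i | k
      · exact h3 (some i)
      · have h7 : hh 0 (v (Sum.inr 0)) = 0 := h3 none
        have h8 : k = 0 := Subsingleton.elim _ _
        rw [h8]
        exact hh_eq_zero h7
    rw [hκ, h6] at h0
    unfold kap at h0
    rw [norm_zero, sub_zero] at h0
    have : (1 : ℝ) ≤ max 0 1 := le_max_right _ _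
    linarith
  refine ⟨fun o => B0 o / κ, fun o => G0 o / κ, ?_, ?_⟩
  · rw [Fintype.linearIndependent_iff]
    intro g hg
    by_contra hcon
    apply hnoz
    refine real_zero_of_dep hf p (fun o => B0 o / κ) (fun o => G0 o / κ) ?_ (fun h => hp h.1)
      (x := g 0) (y := g 1) (z := g 2) ?_ ?_
    · intro a b hab
      exact scaled hf hκ0 p B0 G0 (hall2 a b hab)
    · rintro ⟨h0, h1, h2⟩
      apply hcon
      intro i
      fin_cases i
      · exact h0
      · exact h1
      · exact h2
    · intro o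
      have h := congrFun hg o
      rw [Fin.sum_univ_three] at h
      simpa using h
  · intro K _ _ s a b hab
    have hd0 : 0 < d := Nat.pos_of_ne_zero fun h => hd (by rw [h]; exact dvd_zero 4)
    refine full_conic hd0 hf p (fun o => B0 o / κ) (fun o => G0 o / κ) ?_ ?_ s a b hab
    · intro a b hab
      exact scaled hf hκ0 p B0 G0 (hall2 a b hab)
    · intro a b hab
      exact scaled hf hκ0 p B0 G0 (conic_point hf' hv hab)

/-- **Conics on real hypersurfaces** -/
theorem conics_fin.{u} (n d : ℕ) (hd : ¬ 4 ∣ d) (hdn : d < n) (f : MvPolynomial (Fin n) ℝ)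
    (hf : f.IsHomogeneous d)
    (hreal : ∀ x : Fin n → ℝ, x ≠ 0 → MvPolynomial.eval x f ≠ 0) (p : Fin n → ℝ) (hp : p ≠ 0) :
    ∃ β γ : Fin n → ℝ, LinearIndependent ℝ ![p, β, γ] ∧
      ∀ (K : Type u) [Field K] [Algebra ℝ K] (s a b : K), s ^ 2 + a ^ 2 + b ^ 2 = 0 →
        MvPolynomial.aeval (fun i => s * algebraMap ℝ K (p i) + a * algebraMap ℝ K (β i) +
          b * algebraMap ℝ K (γ i)) f = 0 := by
  have hd0 : 0 < d := Nat.pos_of_ne_zero fun h => hd (by rw [h]; exact dvd_zero 4)
  obtain ⟨m, rfl⟩ : ∃ m, n = m + 1 := ⟨n - 1, by omega⟩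
  set e := finSuccEquiv m with he
  set f' : MvPolynomial (Option (Fin m)) ℝ := MvPolynomial.rename e f with hf'
  have hf'h : f'.IsWeightedHomogeneous (fun _ => 1) d := hf.rename_isHomogeneous
  have hfw : f.IsWeightedHomogeneous (fun _ => 1) d := hf
  have hev : ∀ x : Option (Fin m) → ℝ, MvPolynomial.eval x f' = MvPolynomial.eval (x ∘ e) f :=
    fun x => MvPolynomial.eval_rename e x f
  have hae : ∀ {K : Type u} [Field K] [Algebra ℝ K] (x : Option (Fin m) → K),
      MvPolynomial.aeval x f' = MvPolynomial.aeval (x ∘ e) f :=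
    fun x => MvPolynomial.aeval_rename e x f
  have hreal' : ∀ x : Option (Fin m) → ℝ, x ≠ 0 → MvPolynomial.eval x f' ≠ 0 := by
    intro x hx
    rw [hev]
    apply hreal
    intro h
    apply hx
    funext o
    have := congrFun h (e.symm o)
    simpa using this
  have hp' : p ∘ e.symm ≠ 0 := by
    intro h
    apply hp
    funext i
    have := congrFun h (e i)
    simpa using this
  obtain ⟨β, γ, hli, hall⟩ := conic_center_option.{u} (n := m) (by omega) hdn hd hf'h hreal' hp'
  refine ⟨β ∘ e, γ ∘ e, ?_, ?_⟩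
  · rw [Fintype.linearIndependent_iff] at hli ⊢
    intro g hg
    apply hli g
    funext o
    have h := congrFun hg (e.symm o)
    rw [Fin.sum_univ_three] at h ⊢
    simpa using h
  · intro K _ _ s a b hab
    have h := hall K s a b hab
    rw [hae] at h
    refine Eq.trans ?_ h
    congr 1
    apply congrArg
    funext i
    simp

end geom

end Pool.Agent.Work.MP_638b00_ag
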