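import Pool.Agent.Work.MP_638b00_ag.Conic

/-!
# From the vanishing of the family to points over the field
-/

set_option linter.unusedVariables false
set_option linter.unusedSectionVars false

namespace Pool.Agent.Work.MP_638b00_ag

open Polynomial ComplexConjugate

section K

variable {K : Type*} [Field K] [Algebra ℝ K] {Ω : Type*} [Field Ω] [Algebra ℝ Ω] [Algebra K Ω]
  [IsScalarTower ℝ K Ω]

/-- conjugate pairs -/
def QQ (K : Type*) [Field K] {Ω : Type*} [Field Ω] [Algebra K Ω] (J : Ω) (s s' : Ω) : Prop :=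
  ∃ α β : K, s = algebraMap K Ω α + algebraMap K Ω β * J ∧
    s' = algebraMap K Ω α - algebraMap K Ω β * J

lemma QQ.mul {J : Ω} (hJ : J * J = -1) {s s' t t' : Ω} (h : QQ K J s s') (h' : QQ K J t t') :
    QQ K J (s * t) (s' * t') := by
  obtain ⟨α, β, h1, h2⟩ := h
  obtain ⟨γ, δ, h3, h4⟩ := h'
  refine ⟨α * γ - β * δ, α * δ + β * γ, ?_, ?_⟩
  · rw [h1, h3]
    simp only [map_sub, map_add, map_mul]
    linear_combination (algebraMap K Ω β * algebraMap K Ω δ) * hJ
  · rw [h2, h4]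
    simp only [map_sub, map_add, map_mul]
    linear_combination (algebraMap K Ω β * algebraMap K Ω δ) * hJ

lemma QQ.pow {J : Ω} (hJ : J * J = -1) {s s' : Ω} (h : QQ K J s s') (k : ℕ) :
    QQ K J (s ^ k) (s' ^ k) := by
  induction k with
  | zero => exact ⟨1, 0, by simp, by simp⟩
  | succ k ih =>
    rw [pow_succ, pow_succ]
    exact ih.mul hJ h

lemma QQ.trace {J : Ω} {s s' : Ω} (h : QQ K J s s') : ∃ x : K, algebraMap K Ω x = s + s' := by
  obtain ⟨α, β, h1, h2⟩ := h
  refine ⟨2 * α, ?_⟩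
  rw [h1, h2, map_mul, map_ofNat]
  ring

/-- the embedding of the complex numbers -/
noncomputable def io {J : Ω} (hJ : J * J = -1) : ℂ →ₐ[ℝ] Ω := Complex.lift ⟨J, hJ⟩

lemma io_apply {J : Ω} (hJ : J * J = -1) (z : ℂ) :
    io hJ z = algebraMap ℝ Ω z.re + algebraMap ℝ Ω z.im * J := by
  unfold io
  rw [Complex.lift_apply, Complex.liftAux_apply, Algebra.smul_def]

lemma QQ.io {J : Ω} (hJ : J * J = -1) (z : ℂ) :
    QQ K J (io hJ z) (io hJ (conj z)) := by
  refine ⟨algebraMap ℝ K z.re, algebraMap ℝ K z.im, ?_, ?_⟩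
  · rw [io_apply, ← IsScalarTower.algebraMap_apply, ← IsScalarTower.algebraMap_apply]
  · rw [io_apply, ← IsScalarTower.algebraMap_apply, ← IsScalarTower.algebraMap_apply,
      Complex.conj_re, Complex.conj_im, map_neg]
    ring

variable {n w : ℕ}

/-- the coordinates are defined over `K` -/
lemma exists_coord {J : Ω} (hJ : J * J = -1) {T T' : Ω} (hQ : QQ K J T T') (hT : T * T' = -1)
    (p : Option (Fin n) → ℝ) (v : Fin n ⊕ Fin w → ℂ) (o : Option (Fin n)) :
    ∃ x : K, algebraMap K Ω x * T ^ wt n w o = eval₂ (io hJ : ℂ →+* Ω) T (GG p v o) := by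
  have key : ∀ (z : ℂ) (k l : ℕ), ∃ x : K, algebraMap K Ω x * T ^ (k + l) =
      eval₂ (io hJ : ℂ →+* Ω) T (C z * X ^ ((k + l) + k) + C ((-1) ^ k * conj z) * X ^ l) := by
    intro z k l
    obtain ⟨x, hx⟩ := ((QQ.io (K := K) hJ z).mul hJ (hQ.pow hJ k)).trace
    refine ⟨x, ?_⟩
    rw [hx, eval₂_add, eval₂_mul, eval₂_mul, eval₂_C, eval₂_C, eval₂_X_pow, eval₂_X_pow]
    have e1 : (io hJ : ℂ →+* Ω) z = io hJ z := rfl
    have e2 : (io hJ : ℂ →+* Ω) ((-1) ^ k * conj z) = (-1) ^ k * io hJ (conj z) := by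
      change io hJ ((-1) ^ k * conj z) = _
      rw [map_mul, map_pow, map_neg, map_one]
    rw [e1, e2]
    have e3 : T' ^ k * T ^ (k + l) = (-1) ^ k * T ^ l := by
      rw [pow_add, ← mul_assoc, ← mul_pow, mul_comm T', hT]
    have e4 : T ^ (k + l + k) = T ^ k * T ^ (k + l) := by
      rw [← pow_add]
      congr 1
      omega
    rw [e4]
    linear_combination (io hJ (conj z)) * e3
  have mid : ∀ (r : ℝ) (m : ℕ), algebraMap K Ω (algebraMap ℝ K r) * T ^ m =
      eval₂ (io hJ : ℂ →+* Ω) T (C (r : ℂ) * X ^ m) := by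
    intro r m
    rw [eval₂_mul, eval₂_C, eval₂_X_pow]
    congr 1
    change _ = io hJ _
    rw [← IsScalarTower.algebraMap_apply, io_apply, Complex.ofReal_re, Complex.ofReal_im, map_zero,
      zero_mul, add_zero]
  rcases o with _ | i
  · change ∃ x : K, algebraMap K Ω x * T ^ w = eval₂ (io hJ : ℂ →+* Ω) T (Yt p v)
    have h1 : ∀ k : Fin w, ∃ x : K, algebraMap K Ω x * T ^ w =
        eval₂ (io hJ : ℂ →+* Ω) T (C (hh k (v (Sum.inr k))) * X ^ (w + (k + 1)) +
          C ((-1) ^ ((k : ℕ) + 1) * conj (hh k (v (Sum.inr k)))) * X ^ (w - (k + 1))) := by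
      intro k
      obtain ⟨l, hl⟩ := Nat.exists_eq_add_of_le (Nat.succ_le_of_lt k.2)
      obtain ⟨x, hx⟩ := key (hh k (v (Sum.inr k))) ((k : ℕ) + 1) l
      refine ⟨x, ?_⟩
      have e1 : w - ((k : ℕ) + 1) = l := by omega
      have e2 : w + ((k : ℕ) + 1) = ((k : ℕ) + 1) + l + ((k : ℕ) + 1) := by omega
      have e3 : T ^ w = T ^ ((k : ℕ) + 1 + l) := by
        congr 1
      rw [e1, e2, e3]
      exact hx
    choose x hx using h1
    refine ⟨∑ k, x k + algebraMap ℝ K (kap v * p none), ?_⟩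
    unfold Yt
    rw [eval₂_add, eval₂_finsetSum, map_add, map_sum, add_mul, Finset.sum_mul]
    congr 1
    · exact Finset.sum_congr rfl fun k _ => hx k
    · exact mid _ _
  · change ∃ x : K, algebraMap K Ω x * T ^ 1 = eval₂ (io hJ : ℂ →+* Ω) T (Xt p v i)
    obtain ⟨x, hx⟩ := key (v (Sum.inl i)) 1 0
    refine ⟨x + algebraMap ℝ K (kap v * p (some i)), ?_⟩
    unfold Xt
    rw [eval₂_add, map_add, add_mul]
    congr 1
    exact mid _ _

lemma eval_conicPP {d : ℕ} {f : MvPolynomial (Option (Fin n)) ℝ}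
    (hf : f.IsWeightedHomogeneous (wt n w) d) {J : Ω} (hJ : J * J = -1) (T : Ω)
    (p : Option (Fin n) → ℝ) (v : Fin n ⊕ Fin w → ℂ) (x : Option (Fin n) → K)
    (hx : ∀ o, algebraMap K Ω (x o) * T ^ wt n w o = eval₂ (io hJ : ℂ →+* Ω) T (GG p v o)) :
    eval₂ (io hJ : ℂ →+* Ω) T (PP' f p v) = T ^ d * algebraMap K Ω (MvPolynomial.aeval x f) := by
  unfold PP'
  have h1 : ∀ p : ℂ[X], eval₂ (io hJ : ℂ →+* Ω) T p = (eval₂RingHom (io hJ : ℂ →+* Ω) T) p :=
    fun _ => rfl
  rw [h1, MvPolynomial.aeval_def, MvPolynomial.hom_eval₂]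
  have h2 : (eval₂RingHom (io hJ : ℂ →+* Ω) T).comp (algebraMap ℝ ℂ[X]) = algebraMap ℝ Ω := by
    ext r
    change eval₂ (io hJ : ℂ →+* Ω) T (C (r : ℂ)) = _
    rw [eval₂_C]
    change io hJ (r : ℂ) = _
    rw [io_apply, Complex.ofReal_re, Complex.ofReal_im, map_zero, zero_mul, add_zero]
  have h3 : (fun i => (eval₂RingHom (io hJ : ℂ →+* Ω) T) (GG p v i)) =
      fun o => T ^ wt n w o * algebraMap K Ω (x o) := by
    funext o
    change eval₂ (io hJ : ℂ →+* Ω) T (GG p v o) = _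
    rw [← hx, mul_comm]
  rw [h2, h3, ← MvPolynomial.aeval_def, aeval_wh hf]
  congr 1
  exact MvPolynomial.aeval_algebraMap_apply Ω x f

/-- the element `T` is transcendental over the complex numbers -/
lemma transc (hi : ∀ j : K, j * j ≠ -1) {a b : K} (hab : a * a + b * b = -1) {J : Ω}
    (hJ : J * J = -1) {P : ℂ[X]}
    (hP : eval₂ (io hJ : ℂ →+* Ω) (algebraMap K Ω a + algebraMap K Ω b * J) P = 0) : P = 0 := by
  by_contra hne
  set T : Ω := algebraMap K Ω a + algebraMap K Ω b * J with hT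
  obtain ⟨z, hz⟩ : ∃ z : ℂ, io hJ z = T := by
    let _ : Algebra ℂ Ω := (io hJ : ℂ →+* Ω).toAlgebra
    have hint : IsIntegral ℂ T := by
      rw [← isAlgebraic_iff_isIntegral]
      exact ⟨P, hne, hP⟩
    have hdeg := IsAlgClosed.degree_eq_one_of_irreducible ℂ (minpoly.irreducible hint)
    obtain ⟨z, hz⟩ := minpoly.mem_range_of_degree_eq_one ℂ T hdeg
    exact ⟨z, hz⟩
  rw [io_apply, IsScalarTower.algebraMap_apply ℝ K Ω, IsScalarTower.algebraMap_apply ℝ K Ω, hT] at hz
  set x : K := algebraMap ℝ K z.re with hx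
  set y : K := algebraMap ℝ K z.im with hy
  have hinj : Function.Injective (algebraMap K Ω) := (algebraMap K Ω).injective
  by_cases hyb : y = b
  · rw [hyb] at hz
    have hxa : x = a := hinj (add_right_cancel hz)
    have h1 : x * x + y * y = -1 := by rw [hxa, hyb]; exact hab
    rw [hx, hy, ← map_mul, ← map_mul, ← map_add] at h1
    have h2 : algebraMap ℝ K (z.re * z.re + z.im * z.im) = algebraMap ℝ K (-1) := by
      rw [h1, map_neg, map_one]
    have h3 := (algebraMap ℝ K).injective h2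
    nlinarith [mul_self_nonneg z.re, mul_self_nonneg z.im]
  · have hyb' : y - b ≠ 0 := sub_ne_zero.2 hyb
    have h1 : algebraMap K Ω (y - b) * J = algebraMap K Ω (a - x) := by
      rw [map_sub, map_sub]
      linear_combination hz
    have h2 : J = algebraMap K Ω ((a - x) / (y - b)) := by
      rw [map_div₀, eq_div_iff ((_root_.map_ne_zero _).2 hyb'), mul_comm]
      exact h1
    apply hi ((a - x) / (y - b))
    apply hinj
    rw [map_mul, ← h2, hJ, map_neg, map_one]

lemma GG_ne {p : Option (Fin n) → ℝ} (hp : p ≠ 0) (v : Fin n ⊕ Fin w → ℂ) :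
    ∃ o, GG p v o ≠ 0 := by
  by_contra hcon
  push Not at hcon
  have h1 : ∀ i, v (Sum.inl i) = 0 := by
    intro i
    have h := congrArg (fun p => Polynomial.coeff p 2) (hcon (some i))
    change (Xt p v i).coeff 2 = 0 at h
    unfold Xt at h
    simp only [coeff_add, coeff_C_mul_X_pow] at h
    simpa using h
  have h3 : ∀ k, v (Sum.inr k) = 0 := by
    intro k
    have h := congrArg (fun p => Polynomial.coeff p (w + ((k : ℕ) + 1))) (hcon none)
    change (Yt p v).coeff (w + ((k : ℕ) + 1)) = 0 at h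
    unfold Yt at h
    rw [coeff_add, finsetSum_coeff, Finset.sum_eq_single k] at h
    · simp only [coeff_add, coeff_C_mul_X_pow, if_true] at h
      rw [if_neg (by omega), if_neg (by omega), add_zero, add_zero] at h
      exact hh_eq_zero h
    · intro j _ hj
      have hj' : (k : ℕ) ≠ j := fun h => hj (Fin.ext h.symm)
      simp only [coeff_add, coeff_C_mul_X_pow]
      rw [if_neg (by omega), if_neg (by omega), add_zero]
    · intro hk
      exact absurd (Finset.mem_univ _) hk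
  have h4 : v = 0 := by
    funext l
    rcases l with i | k
    · exact h1 i
    · exact h3 k
  apply hp
  subst h4
  funext o
  have h5 := hcon o
  rw [GG_zero] at h5
  have h6 : algebraMap ℝ ℂ[X] (p o) = 0 :=
    (mul_eq_zero.1 h5).resolve_left (pow_ne_zero _ X_ne_zero)
  exact (map_eq_zero_iff _ (FaithfulSMul.algebraMap_injective ℝ ℂ[X])).1 h6

end K

end Pool.Agent.Work.MP_638b00_ag
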