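import Pool.Agent.Work.MP_638b00_ag.Main

/-!
# Finitely generated fields of transcendence degree one over the reals
-/

set_option linter.unusedVariables false
set_option linter.unusedSectionVars false

namespace Pool.Agent.Work.MP_638b00_ag

open IntermediateField

/-- A finitely generated extension of `ℝ` of transcendence degree one has a filtration. -/
theorem filt_of_trdeg (K : Type*) [Field K] [Algebra ℝ K] (hfg : (⊤ : IntermediateField ℝ K).FG)
    (htr : Algebra.trdeg ℝ K = 1) : Nonempty (Filt K) := by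
  have hess : Algebra.EssFiniteType ℝ K := IntermediateField.fg_top_iff.1 hfg
  obtain ⟨s, hs⟩ := exists_isTranscendenceBasis ℝ K
  have hcard : Cardinal.mk s = 1 := by
    rw [← htr]
    exact hs.cardinalMk_eq_trdeg
  obtain ⟨hsub, ⟨⟨t, hts⟩⟩⟩ := Cardinal.eq_one_iff_unique.1 hcard
  have ht : Transcendental ℝ t := hs.1.transcendental (⟨t, hts⟩ : s)
  have hst : s = {t} := by
    ext x
    constructor
    · intro hx
      have := congrArg Subtype.val (Subsingleton.elim (⟨x, hx⟩ : s) ⟨t, hts⟩)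
      exact this
    · intro hx
      rw [Set.mem_singleton_iff] at hx
      rw [hx]
      exact hts
  have halg := hs.isAlgebraic_field
  rw [Subtype.range_coe, hst] at halg
  have hess2 : Algebra.EssFiniteType ℝ⟮t⟯ K := Algebra.EssFiniteType.of_comp ℝ ℝ⟮t⟯ K
  have hfin : Module.Finite ℝ⟮t⟯ K := Algebra.finite_of_essFiniteType_of_isAlgebraic
  exact exists_filt t ht

/-- **Forms in many variables over a nonreal function field of one variable over the reals.** -/
theorem many_variables (r D : ℕ) : ∃ N : ℕ, ∀ (K : Type*) [Field K] [Algebra ℝ K],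
    (⊤ : IntermediateField ℝ K).FG → Algebra.trdeg ℝ K = 1 → IsSumSq (-1 : K) →
    ∀ n : ℕ, N ≤ n → ∀ (f : Fin r → MvPolynomial (Fin n) K) (d : Fin r → ℕ),
      (∀ i, 0 < d i ∧ d i ≤ D ∧ (f i).IsHomogeneous (d i)) →
        ∃ x : Fin n → K, x ≠ 0 ∧ ∀ i, MvPolynomial.eval x (f i) = 0 := by
  obtain ⟨N, hN⟩ := main_filt D r
  refine ⟨N, fun K _ _ hfg htr hsq n hn f d hf => ?_⟩
  obtain ⟨𝓕⟩ := filt_of_trdeg K hfg htr
  exact hN K 𝓕 (all_S2 𝓕 hsq) n hn (Fin r) (by simp) f (fun i => Or.inr ⟨d i, hf i⟩)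

end Pool.Agent.Work.MP_638b00_ag
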