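import Pool.Agent.Work.MP_638b00_ag.ConicK
import Pool.Agent.Work.MP_638b00_ag.Final

/-!
# Real hypersurfaces of degree not divisible by four have points over `K`
-/

set_option linter.unusedVariables false
set_option linter.unusedSectionVars false

namespace Pool.Agent.Work.MP_638b00_ag

open Polynomial ComplexConjugate

section main

variable {n w d : ℕ} {f : MvPolynomial (Option (Fin n)) ℝ}

lemma eval_wh {σ : Type*} {wt : σ → ℕ} {f : MvPolynomial σ ℝ}
    (hf : f.IsWeightedHomogeneous wt d) (c : ℝ) (x : σ → ℝ) :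
    MvPolynomial.eval (fun o => c ^ wt o * x o) f = c ^ d * MvPolynomial.eval x f := by
  have h := aeval_wh hf c x
  rw [MvPolynomial.aeval_eq_eval, MvPolynomial.aeval_eq_eval] at h
  exact h

/-- the family has a zero, positive case -/
lemma exists_family (hf : f.IsWeightedHomogeneous (wt n w) d) (hd : d % 4 = 2)
    {p : Option (Fin n) → ℝ} (hp : p ≠ 0) (hdn : d < n + w)
    (hpos : ∀ x : Option (Fin n) → ℝ, x ≠ 0 → 0 < MvPolynomial.eval x f) :
    ∃ v : Fin n ⊕ Fin w → ℂ, PP' f p v = 0 := by
  by_contra hcon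
  push Not at hcon
  have hP : ∀ v : Fin n ⊕ Fin w → ℂ, PP' f p v ≠ 0 := hcon
  have hd0 : 0 < d := by omega
  have : Nonempty (Fin d) := ⟨⟨0, hd0⟩⟩
  have h00 : MvPolynomial.eval (0 : Option (Fin n) → ℝ) f = 0 := by
    have h := eval_wh hf 0 0
    rw [zero_pow hd0.ne', zero_mul] at h
    have e : (fun o => (0 : ℝ) ^ wt n w o * (0 : Option (Fin n) → ℝ) o) = 0 := by
      funext o
      simp
    rwa [e] at h
  have hnonneg : ∀ x : Option (Fin n) → ℝ, 0 ≤ MvPolynomial.eval x f := by
    intro x
    by_cases hx : x = 0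
    · rw [hx, h00]
    · exact (hpos x hx).le
  have hI : Complex.I ^ d = -1 := by
    obtain ⟨k, hk⟩ : ∃ k, d = 4 * k + 2 := ⟨d / 4, by omega⟩
    rw [hk, pow_add, pow_mul, Complex.I_pow_four, one_pow, one_mul, Complex.I_sq]
  obtain ⟨v, hv, hv0⟩ := rel_bu (ι := Fin n ⊕ Fin w) (κ := Fin d)
    (by simpa using hdn)
    (fun r v => (PP' f p v).coeff (d + ((r : ℕ) + 1))) (fun r => ((r : ℕ) : ℤ) + 1)
    (fun v => ((PP' f p v).coeff d).re) (fun r => CC_PP f p _)
    (Complex.continuous_re.comp (CC_PP f p _)) (fun r => by positivity)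
    (by
      intro r v ζ hζ
      have h := PP_coeff hf p ζ hζ v ((r : ℕ) + 1)
      rw [h]
      have e : ((r : ℕ) : ℤ) + 1 = (((r : ℕ) + 1 : ℕ) : ℤ) := by push_cast; rfl
      rw [e, zpow_natCast])
    (by
      intro v ζ hζ
      have h := PP_coeff hf p ζ hζ v 0
      rw [add_zero, pow_zero, one_mul] at h
      rw [h])
    (by
      rw [PP_zero hf p, Complex.ofReal_re]
      exact hpos p hp)
    (by
      intro v hv hF
      have hk : kap v = 0 := max_eq_left (by linarith)
      obtain ⟨x, hx⟩ := equator hf p v hk hF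
      rw [hI] at hx
      have hx' : ((PP' f p v).coeff d).re = -MvPolynomial.eval x f := by
        have : (((PP' f p v).coeff d).re : ℂ) = ((-MvPolynomial.eval x f : ℝ) : ℂ) := by
          rw [hx]
          push_cast
          ring
        exact_mod_cast this
      have h1 := hnonneg x
      have h2 : ((PP' f p v).coeff d).re ≠ 0 := by
        intro h
        apply hP v
        rw [PP_eq_of hf p v hF, h]
        simp
      rcases lt_or_eq_of_le (by rw [hx']; linarith : ((PP' f p v).coeff d).re ≤ 0) with h3 | h3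
      · exact h3
      · exact absurd h3 h2)
  apply hP v
  rw [PP_eq_of hf p v hv, hv0]
  simp

/-- a form with no nontrivial real zero has constant sign -/
lemma real_sign (hn : 1 ≤ n)
    (hf : ∀ x : Option (Fin n) → ℝ, x ≠ 0 → MvPolynomial.eval x f ≠ 0) :
    (∀ x : Option (Fin n) → ℝ, x ≠ 0 → 0 < MvPolynomial.eval x f) ∨
      (∀ x : Option (Fin n) → ℝ, x ≠ 0 → MvPolynomial.eval x f < 0) := by
  have hrank : 1 < Module.rank ℝ (Option (Fin n) → ℝ) := by
    rw [rank_fun']
    have : 1 < Fintype.card (Option (Fin n)) := by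
      rw [Fintype.card_option, Fintype.card_fin]
      omega
    exact_mod_cast this
  have hconn := (isConnected_compl_singleton_of_one_lt_rank hrank
    (0 : Option (Fin n) → ℝ)).isPreconnected
  have hcont : Continuous fun x : Option (Fin n) → ℝ => MvPolynomial.eval x f :=
    MvPolynomial.continuous_eval f
  by_contra hcon
  push Not at hcon
  obtain ⟨⟨x, hx, hx1⟩, ⟨y, hy, hy1⟩⟩ := hcon
  have h := hconn.intermediate_value (a := x) (b := y) (by simpa using hx) (by simpa using hy)
    (f := fun x : Option (Fin n) → ℝ => MvPolynomial.eval x f) hcont.continuousOn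
  obtain ⟨z, hz, hz0⟩ := h ⟨hx1, hy1⟩
  exact hf z (by simpa using hz) hz0

/-- the family has a zero -/
theorem exists_family' (hn : 1 ≤ n) (hdn : d < n + w) (hd : ¬ 4 ∣ d)
    (hf : f.IsWeightedHomogeneous (wt n w) d)
    (hreal : ∀ x : Option (Fin n) → ℝ, x ≠ 0 → MvPolynomial.eval x f ≠ 0)
    {p : Option (Fin n) → ℝ} (hp : p ≠ 0) :
    ∃ v : Fin n ⊕ Fin w → ℂ, PP' f p v = 0 := by
  set i0 : Fin n := ⟨0, hn⟩ with hi0
  have hne1 : (fun o : Option (Fin n) => (if o = some i0 then 1 else 0 : ℝ)) ≠ 0 := by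
    intro h
    have := congrFun h (some i0)
    simp at this
  have hne2 : (fun o : Option (Fin n) => (-1 : ℝ) ^ wt n w o * (if o = some i0 then 1 else 0)) ≠
      0 := by
    intro h
    have h1 := congrFun h (some i0)
    change (-1 : ℝ) ^ 1 * (if some i0 = some i0 then 1 else 0) = 0 at h1
    simp at h1
  have heven : d % 2 = 0 := by
    by_contra hodd
    have hodd' : Odd d := Nat.odd_iff.2 (by omega)
    have h1 := eval_wh hf (-1) (fun o => if o = some i0 then 1 else 0)
    rw [hodd'.neg_one_pow] at h1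
    rcases real_sign hn hreal with h2 | h2
    · have h3 := h2 _ hne1
      have h4 := h2 _ hne2
      rw [h1] at h4
      linarith
    · have h3 := h2 _ hne1
      have h4 := h2 _ hne2
      rw [h1] at h4
      linarith
  have hd4 : d % 4 = 2 := by
    rw [Nat.dvd_iff_mod_eq_zero] at hd
    omega
  rcases real_sign hn hreal with h2 | h2
  · exact exists_family hf hd4 hp hdn h2
  · have hf' : (-f).IsWeightedHomogeneous (wt n w) d := by
      intro μ hμ
      apply hf
      intro h
      apply hμ
      rw [MvPolynomial.coeff_neg, h, neg_zero]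
    obtain ⟨v, hv⟩ := exists_family hf' hd4 hp hdn (by
      intro x hx
      rw [map_neg]
      linarith [h2 x hx])
    refine ⟨v, ?_⟩
    unfold PP' at hv ⊢
    rw [map_neg, neg_eq_zero] at hv
    exact hv

/-- zeros over the complex numbers -/
lemma complex_zero (i0 : Fin n) (hf : f.IsWeightedHomogeneous (wt n w) d) (hd : 0 < d) :
    ∃ x : Option (Fin n) → ℂ, x ≠ 0 ∧ MvPolynomial.aeval x f = 0 := by
  by_contra hcon
  push Not at hcon
  have hconst : ∀ g : Option (Fin n) → ℂ[X], (∀ y, (fun o => eval y (g o)) ≠ 0) →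
      ∃ c : ℂ, c ≠ 0 ∧ ∀ y, MvPolynomial.aeval (fun o => eval y (g o)) f = c := by
    intro g hg
    set P := MvPolynomial.aeval g f with hP
    have h1 : ∀ y, eval y P = MvPolynomial.aeval (fun o => eval y (g o)) f := by
      intro y
      have e1 : ∀ p : ℂ[X], eval y p = ((Polynomial.aeval y : ℂ[X] →ₐ[ℂ] ℂ).restrictScalars ℝ) p := by
        intro p
        rw [AlgHom.restrictScalars_apply, Polynomial.coe_aeval_eq_eval]
      rw [e1, hP, MvPolynomial.comp_aeval_apply]
      congr 1
    have h2 : P.degree = 0 := by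
      by_contra h3
      obtain ⟨y, hy⟩ := IsAlgClosed.exists_root P h3
      apply hcon _ (hg y)
      rw [← h1]
      exact hy
    obtain h3 := eq_C_of_degree_eq_zero h2
    refine ⟨P.coeff 0, ?_, ?_⟩
    · intro h4
      rw [h3, h4] at h2
      simp at h2
    · intro y
      rw [← h1, h3]
      simp
  obtain ⟨c1, hc1, h1⟩ := hconst (fun o => o.elim X (fun i => if i = i0 then 1 else 0)) (by
    intro y h
    have := congrFun h (some i0)
    simp at this)
  obtain ⟨c2, hc2, h2⟩ := hconst (fun o => o.elim 1 (fun i => if i = i0 then X else 0)) (by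
    intro y h
    have := congrFun h none
    simp at this)
  have h3 : c1 = c2 := by
    rw [← h1 1, ← h2 1]
    congr 1
    ext o
    rcases o with _ | i
    · simp
    · by_cases h : i = i0
      · simp [h]
      · simp [h]
  have h4 : c2 = 2 ^ d * c1 := by
    rw [← h1 ((2 ^ w)⁻¹), ← h2 2, ← aeval_wh hf]
    have e : (fun o : Option (Fin n) => eval (2 : ℂ) (o.elim 1 fun i => if i = i0 then X else 0)) =
        fun o => 2 ^ wt n w o * eval ((2 : ℂ) ^ w)⁻¹ (o.elim X fun i => if i = i0 then 1 else 0) := by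
      funext o
      rcases o with _ | i
      · change eval 2 1 = 2 ^ w * eval ((2 : ℂ) ^ w)⁻¹ X
        simp
      · change eval 2 (if i = i0 then X else 0) = 2 ^ 1 * eval ((2 : ℂ) ^ w)⁻¹ (if i = i0 then 1 else 0)
        by_cases h : i = i0
        · simp [h]
        · simp [h]
    rw [e]
  rw [h3] at h4
  have h5 : (2 : ℂ) ^ d = 1 := by
    have : (2 : ℂ) ^ d * c2 = 1 * c2 := by rw [one_mul]; exact h4.symm
    exact mul_right_cancel₀ hc2 this
  have h6 : (2 : ℝ) ^ d = 1 := by exact_mod_cast h5
  have h7 : (1 : ℝ) < 2 ^ d := one_lt_pow₀ (by norm_num) hd.ne'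
  linarith

lemma aeval_comp_alg {σ A B : Type*} [CommRing A] [Algebra ℝ A] [CommRing B] [Algebra ℝ B]
    (φ : A →ₐ[ℝ] B) (x : σ → A) (f : MvPolynomial σ ℝ) :
    MvPolynomial.aeval (fun o => φ (x o)) f = φ (MvPolynomial.aeval x f) := by
  rw [MvPolynomial.comp_aeval_apply]

lemma conj_pair {K : Type*} [Field K] {a b : K} (hab : a * a + b * b = -1)
    {J : AlgebraicClosure K} (hJ : J * J = -1) :
    (algebraMap K (AlgebraicClosure K) a + algebraMap K _ b * J) *
      (algebraMap K (AlgebraicClosure K) a - algebraMap K _ b * J) = -1 := by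
  have h1 : algebraMap K (AlgebraicClosure K) (a * a + b * b) = -1 := by
    rw [hab, map_neg, map_one]
  rw [map_add, map_mul, map_mul] at h1
  linear_combination h1 - (algebraMap K (AlgebraicClosure K) b *
    algebraMap K (AlgebraicClosure K) b) * hJ

lemma exists_J (K : Type*) [Field K] : ∃ J : AlgebraicClosure K, J * J = -1 := by
  obtain ⟨J, hJ⟩ := IsAlgClosed.exists_pow_nat_eq (-1 : AlgebraicClosure K) (n := 2) two_pos
  exact ⟨J, by rw [← hJ, sq]⟩

/-- **Main theorem** -/
theorem conic_main {K : Type*} [Field K] [Algebra ℝ K] {a b : K} (hab : a * a + b * b = -1)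
    (hn : 1 ≤ n) (hdn : d < n + w) (hd : ¬ 4 ∣ d) (hf : f.IsWeightedHomogeneous (wt n w) d) :
    ∃ x : Option (Fin n) → K, x ≠ 0 ∧ MvPolynomial.aeval x f = 0 := by
  have hd0 : 0 < d := Nat.pos_of_ne_zero fun h => hd (by rw [h]; exact dvd_zero 4)
  by_cases hi : ∃ j : K, j * j = -1
  · obtain ⟨j, hj⟩ := hi
    obtain ⟨x, hx, hx0⟩ := complex_zero ⟨0, hn⟩ hf hd0
    refine ⟨fun o => io hj (x o), ?_, ?_⟩
    · intro h
      apply hx
      funext o
      have h1 := congrFun h o
      exact (map_eq_zero (io hj)).1 h1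
    · rw [aeval_comp_alg, hx0, map_zero]
  push Not at hi
  by_cases hreal : ∃ x : Option (Fin n) → ℝ, x ≠ 0 ∧ MvPolynomial.eval x f = 0
  · obtain ⟨x, hx, hx0⟩ := hreal
    refine ⟨fun o => algebraMap ℝ K (x o), ?_, ?_⟩
    · intro h
      apply hx
      funext o
      have h1 := congrFun h o
      exact (map_eq_zero (algebraMap ℝ K)).1 h1
    · rw [aeval_am, hx0, map_zero]
  push Not at hreal
  have hp : (fun _ => 1 : Option (Fin n) → ℝ) ≠ 0 := by
    intro h
    have := congrFun h none
    simp at this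
  obtain ⟨v, hv⟩ := exists_family' hn hdn hd hf hreal hp
  obtain ⟨J, hJ⟩ := exists_J K
  have hTT := conj_pair hab hJ
  have hT0 : algebraMap K (AlgebraicClosure K) a + algebraMap K _ b * J ≠ 0 := by
    intro h
    rw [h, zero_mul] at hTT
    exact (neg_ne_zero.2 one_ne_zero) hTT.symm
  choose x hx using exists_coord (K := K) hJ ⟨a, b, rfl, rfl⟩ hTT (fun _ => 1) v
  have h2 := eval_conicPP (K := K) hf hJ _ (fun _ => 1) v x hx
  rw [hv, eval₂_zero] at h2
  have h3 : algebraMap K (AlgebraicClosure K) (MvPolynomial.aeval x f) = 0 :=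
    (mul_eq_zero.1 h2.symm).resolve_left (pow_ne_zero _ hT0)
  refine ⟨x, ?_, (map_eq_zero _).1 h3⟩
  rintro rfl
  obtain ⟨o, ho⟩ := GG_ne hp v
  apply ho
  apply transc hi hab hJ
  have h5 := hx o
  rw [Pi.zero_apply, map_zero, zero_mul] at h5
  exact h5.symm

/-! ### conics -/

/-- the vector of complex coordinates for weight one -/
noncomputable def uvec (v : Fin n ⊕ Fin 1 → ℂ) (o : Option (Fin n)) : ℂ :=
  o.elim (hh 0 (v (Sum.inr 0))) (fun i => v (Sum.inl i))

lemma GG_one (p : Option (Fin n) → ℝ) (v : Fin n ⊕ Fin 1 → ℂ) (o : Option (Fin n)) :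
    GG p v o = C (uvec v o) * X ^ 2 + C (-conj (uvec v o)) + C ((kap v * p o : ℝ) : ℂ) * X := by
  rcases o with _ | i
  · change Yt p v = _
    unfold Yt uvec
    simp
  · change Xt p v i = _
    unfold Xt uvec
    simp

lemma conic_point (hf : f.IsWeightedHomogeneous (wt n 1) d) {p : Option (Fin n) → ℝ}
    {v : Fin n ⊕ Fin 1 → ℂ} (hv : PP' f p v = 0) {K : Type*} [Field K] [Algebra ℝ K] {a b : K}
    (hab : a * a + b * b = -1) :
    MvPolynomial.aeval (fun o => algebraMap ℝ K (kap v * p o) +
      algebraMap ℝ K (2 * (uvec v o).re) * a + algebraMap ℝ K (-2 * (uvec v o).im) * b) f = 0 := by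
  obtain ⟨J, hJ⟩ := exists_J K
  have hTT := conj_pair hab hJ
  set T := algebraMap K (AlgebraicClosure K) a + algebraMap K _ b * J with hT
  have hT0 : T ≠ 0 := by
    intro h
    rw [h, zero_mul] at hTT
    exact (neg_ne_zero.2 one_ne_zero) hTT.symm
  have hx : ∀ o, algebraMap K (AlgebraicClosure K) (algebraMap ℝ K (kap v * p o) +
      algebraMap ℝ K (2 * (uvec v o).re) * a + algebraMap ℝ K (-2 * (uvec v o).im) * b) *
        T ^ wt n 1 o = eval₂ (io hJ : ℂ →+* AlgebraicClosure K) T (GG p v o) := by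
    intro o
    have hw : wt n 1 o = 1 := by
      rcases o with _ | i
      · rfl
      · rfl
    rw [hw, pow_one, GG_one]
    simp only [eval₂_add, eval₂_mul, eval₂_C, eval₂_X, eval₂_X_pow]
    have e1 : (io hJ : ℂ →+* AlgebraicClosure K) (uvec v o) =
        algebraMap K _ (algebraMap ℝ K (uvec v o).re) +
          algebraMap K _ (algebraMap ℝ K (uvec v o).im) * J := by
      change io hJ (uvec v o) = _
      rw [io_apply, ← IsScalarTower.algebraMap_apply, ← IsScalarTower.algebraMap_apply]
    have e2 : (io hJ : ℂ →+* AlgebraicClosure K) (-conj (uvec v o)) =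
        -algebraMap K _ (algebraMap ℝ K (uvec v o).re) +
          algebraMap K _ (algebraMap ℝ K (uvec v o).im) * J := by
      change io hJ (-conj (uvec v o)) = _
      rw [io_apply, ← IsScalarTower.algebraMap_apply, ← IsScalarTower.algebraMap_apply,
        Complex.neg_re, Complex.neg_im, Complex.conj_re, Complex.conj_im, neg_neg, map_neg]
    have e3 : (io hJ : ℂ →+* AlgebraicClosure K) ((kap v * p o : ℝ) : ℂ) =
        algebraMap K _ (algebraMap ℝ K (kap v * p o)) := by
      change io hJ _ = _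
      rw [← IsScalarTower.algebraMap_apply, io_apply, Complex.ofReal_re, Complex.ofReal_im,
        map_zero, zero_mul, add_zero]
    rw [e1, e2, e3]
    simp only [map_add, map_mul, map_neg, map_ofNat]
    set r := algebraMap K (AlgebraicClosure K) (algebraMap ℝ K (uvec v o).re)
    set s := algebraMap K (AlgebraicClosure K) (algebraMap ℝ K (uvec v o).im)
    set a' := algebraMap K (AlgebraicClosure K) a
    set b' := algebraMap K (AlgebraicClosure K) b
    rw [hT] at hTT ⊢
    linear_combination (r - s * J) * hTT - 2 * s * b' * (a' + b' * J) * hJ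
  have h2 := eval_conicPP (K := K) hf hJ T p v _ hx
  rw [hv, eval₂_zero] at h2
  have h3 := (mul_eq_zero.1 h2.symm).resolve_left (pow_ne_zero _ hT0)
  exact (map_eq_zero _).1 h3

end main

end Pool.Agent.Work.MP_638b00_ag
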