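import Pool.Agent.Work.MP_638b00_ag.Coch

/-!
# Cup products with cocycles, vanishing on small tuples, and the key evaluation
-/

set_option linter.unusedVariables false
set_option linter.unusedSectionVars false

namespace Pool.Agent.Work.MP_638b00_ag

open Finset Metric

section cup

variable {V : Type*} {R : Type*} [CommRing R]

/-- cup product of a function with a cochain -/
def cup0 {n : ℕ} (q : V → R) (W : Coch V R (n + 1)) : Coch V R (n + 1) :=
  fun σ => q (σ 0) * W σ

/-- cup product of a function of two points with a cochain -/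
def cup1 {n : ℕ} (Y : V → V → R) (W : Coch V R (n + 1)) : Coch V R (n + 2) :=
  fun σ => Y (σ 0) (σ 1) * W (Fin.tail σ)

/-- cup product of a function of three points with a cochain -/
def cup2 {n : ℕ} (T : V → V → V → R) (W : Coch V R (n + 1)) : Coch V R (n + 3) :=
  fun σ => T (σ 0) (σ 1) (σ 2) * W (Fin.tail (Fin.tail σ))

lemma ins_cup0 {n : ℕ} (q : V → R) (W : Coch V R (n + 1)) (a : V) :
    ins a (cup0 q W) = q a • ins a W := by
  ext τ
  simp [ins_apply, cup0]

lemma ins_ins_cup1 {n : ℕ} (Y : V → V → R) (W : Coch V R (n + 1)) (a b : V) :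
    ins b (ins a (cup1 Y W)) = Y a b • ins b W := by
  ext τ
  simp [ins_apply, cup1]

lemma ins_cup1_apply {n : ℕ} (Y : V → V → R) (W : Coch V R (n + 1)) (a b : V)
    (τ : Fin n → V) : ins b (ins a (cup1 Y W)) τ = Y a b * W (Fin.cons b τ) := by
  rw [ins_ins_cup1]
  rfl

lemma dl_cup0 {n : ℕ} (q : V → R) (W : Coch V R (n + 1)) (hW : dl W = 0) :
    dl (cup0 q W) = cup1 (fun a b => q b - q a) W := by
  apply ext_ins
  intro a
  apply ext_ins
  intro b
  rw [ins_ins_cup1, ins_dl, ins_cup0, map_smul, map_sub, map_smul, ins_cup0]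
  have h1 : ins a (dl W) = 0 := by rw [hW, map_zero]
  have h2 : dl (ins a W) = W := by
    rw [ins_dl] at h1
    exact (sub_eq_zero.1 h1).symm
  rw [h2, sub_smul]

lemma dl_cup1 {n : ℕ} (Y : V → V → R) (W : Coch V R (n + 1)) (hW : dl W = 0) :
    dl (cup1 Y W) = cup2 (fun a b c => Y b c - Y a c + Y a b) W := by
  apply ext_ins
  intro a
  apply ext_ins
  intro b
  apply ext_ins
  intro c
  have h1 : ins b (dl W) = 0 := by rw [hW, map_zero]
  have h2 : dl (ins b W) = W := by
    rw [ins_dl] at h1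
    exact (sub_eq_zero.1 h1).symm
  have e1 : ins b (ins a (dl (cup1 Y W))) =
      ins b (cup1 Y W) - ins a (cup1 Y W) + Y a b • W := by
    rw [ins_dl, map_sub, ins_dl, ins_ins_cup1, map_smul, h2]
    abel
  rw [e1, map_add, map_sub, ins_ins_cup1, ins_ins_cup1, map_smul]
  ext τ
  simp only [Pi.add_apply, Pi.sub_apply, Pi.smul_apply, smul_eq_mul, ins_apply, cup2]
  have t1 : Fin.tail (Fin.tail (Fin.cons a (Fin.cons b (Fin.cons c τ) : Fin (n + 2) → V) :
      Fin (n + 3) → V)) = (Fin.cons c τ : Fin (n + 1) → V) := by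
    rw [Fin.tail_cons, Fin.tail_cons]
  rw [t1]
  have t2 : (Fin.cons a (Fin.cons b (Fin.cons c τ : Fin (n + 1) → V) : Fin (n + 2) → V) :
      Fin (n + 3) → V) 0 = a := rfl
  have t3 : (Fin.cons a (Fin.cons b (Fin.cons c τ : Fin (n + 1) → V) : Fin (n + 2) → V) :
      Fin (n + 3) → V) 1 = b := rfl
  have t4 : (Fin.cons a (Fin.cons b (Fin.cons c τ : Fin (n + 1) → V) : Fin (n + 2) → V) :
      Fin (n + 3) → V) 2 = c := rfl
  rw [t2, t3, t4]
  ring

/-- the cocycles -/
def WW (T : ℕ → V → V → V → R) : (j : ℕ) → Coch V R (2 * j + 1)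
  | 0 => fun _ => 1
  | j + 1 => cup2 (n := 2 * j) (T j) (WW T j)

lemma dl_WW_zero (T : ℕ → V → V → V → R) : dl (WW T 0) = 0 := by
  ext σ
  change dl (fun _ => (1 : R)) σ = 0
  rw [dl_apply, Fin.sum_univ_two]
  simp

lemma WW_succ (T : ℕ → V → V → V → R) (j : ℕ) :
    WW T (j + 1) = cup2 (n := 2 * j) (T j) (WW T j) := rfl

lemma dl_WW (Y : ℕ → V → V → R) (j : ℕ) :
    dl (WW (fun i a b c => Y i b c - Y i a c + Y i a b) j) = 0 := by
  induction j with
  | zero => exact dl_WW_zero _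
  | succ j ih =>
    have h := dl_cup1 (Y j) (WW (fun i a b c => Y i b c - Y i a c + Y i a b) j) ih
    change dl (cup2 (n := 2 * j) (fun a b c => Y j b c - Y j a c + Y j a b)
      (WW (fun i a b c => Y i b c - Y i a c + Y i a b) j)) = 0
    rw [← h, dl_dl]

/-- the cocycle vanishes as soon as one of the factors vanishes on all the triples of entries -/
lemma WW_eq_zero (T : ℕ → V → V → V → R) {j i : ℕ} (hi : i < j) (σ : Fin (2 * j + 1) → V)
    (h : ∀ a b c, T i (σ a) (σ b) (σ c) = 0) : WW T j σ = 0 := by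
  induction j with
  | zero => omega
  | succ j ih =>
    rw [WW_succ]
    change T j (σ 0) (σ 1) (σ 2) * WW T j (Fin.tail (Fin.tail σ)) = 0
    rcases Nat.lt_succ_iff_lt_or_eq.1 hi with h1 | rfl
    · rw [ih h1 (Fin.tail (Fin.tail σ)) (fun a b c => h _ _ _), mul_zero]
    · rw [h, zero_mul]

lemma WW_act (T : ℕ → V → V → V → R) (g : V → V) {X : Set V}
    (hT : ∀ i, ∀ a ∈ X, ∀ b ∈ X, ∀ c ∈ X, T i (g a) (g b) (g c) = T i a b c) (j : ℕ)
    (σ : Fin (2 * j + 1) → V) (hσ : ∀ l, σ l ∈ X) : act g (WW T j) σ = WW T j σ := by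
  rw [act_apply]
  induction j with
  | zero => rfl
  | succ j ih =>
    rw [WW_succ]
    change T j (g (σ 0)) (g (σ 1)) (g (σ 2)) * WW T j (fun i => g (Fin.tail (Fin.tail σ) i)) =
      T j (σ 0) (σ 1) (σ 2) * WW T j (Fin.tail (Fin.tail σ))
    rw [hT j _ (hσ _) _ (hσ _) _ (hσ _), ih (Fin.tail (Fin.tail σ)) (fun l => hσ _)]

end cup

section normed

variable {V : Type*} [NormedAddCommGroup V] [NormedSpace ℝ V] {R : Type*} [CommRing R]

lemma bary_mem {C : Set V} (hC : Convex ℝ C) {n : ℕ} (σ : Fin (n + 1) → V)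
    (h : ∀ i, σ i ∈ C) : bary σ ∈ C := by
  unfold bary
  rw [Finset.smul_sum]
  apply hC.sum_mem
  · intro i _
    positivity
  · simp only [Finset.sum_const, Finset.card_univ, Fintype.card_fin, nsmul_eq_mul]
    push_cast
    field_simp
  · intro i _
    exact h i

lemma dist_bary {n : ℕ} (σ : Fin (n + 1) → V) {d : ℝ} (h : ∀ i j, dist (σ i) (σ j) ≤ d)
    (j : Fin (n + 1)) : dist (bary σ) (σ j) ≤ (n / (n + 1) : ℝ) * d := by
  have hn : (0 : ℝ) < n + 1 := by positivity
  have e : bary σ - σ j = ((n : ℝ) + 1)⁻¹ • ∑ i, (σ i - σ j) := by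
    unfold bary
    rw [Finset.sum_sub_distrib, smul_sub]
    simp only [Finset.sum_const, Finset.card_univ, Fintype.card_fin]
    rw [← Nat.cast_smul_eq_nsmul ℝ (n + 1), smul_smul]
    push_cast
    rw [inv_mul_cancel₀ hn.ne', one_smul]
  rw [dist_eq_norm, e, norm_smul, Real.norm_eq_abs, abs_of_pos (inv_pos.2 hn)]
  have h1 : ‖∑ i, (σ i - σ j)‖ ≤ n * d := by
    refine (norm_sum_le _ _).trans ?_
    rw [← Finset.add_sum_erase _ _ (Finset.mem_univ j)]
    simp only [sub_self, norm_zero, zero_add]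
    calc ∑ i ∈ Finset.univ.erase j, ‖σ i - σ j‖ ≤ ∑ i ∈ Finset.univ.erase j, d := by
          apply Finset.sum_le_sum
          intro i _
          rw [← dist_eq_norm]
          exact h i j
      _ = n * d := by
          rw [Finset.sum_const, Finset.card_erase_of_mem (Finset.mem_univ j)]
          simp
  calc ((n : ℝ) + 1)⁻¹ * ‖∑ i, (σ i - σ j)‖ ≤ ((n : ℝ) + 1)⁻¹ * (n * d) := by gcongr
    _ = _ := by rw [div_eq_mul_inv]; ring

lemma sd_vanish (m : ℕ) {d : ℝ} (hd : 0 ≤ d) {n : ℕ} (hn : n ≤ m + 1) {C : Set V}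
    (hC : Convex ℝ C) (c : Coch V R n)
    (h : ∀ σ : Fin n → V, (∀ i, σ i ∈ C) → (∀ i j, dist (σ i) (σ j) ≤ (m / (m + 1) : ℝ) * d) →
      c σ = 0)
    (σ : Fin n → V) (h1 : ∀ i, σ i ∈ C) (h2 : ∀ i j, dist (σ i) (σ j) ≤ d) : sd n c σ = 0 := by
  induction n generalizing C with
  | zero => exact h σ h1 (fun i => i.elim0)
  | succ n ih =>
    have hκ : (n / (n + 1) : ℝ) * d ≤ (m / (m + 1) : ℝ) * d := by
      have h3 : (n : ℝ) ≤ m := by exact_mod_cast (by omega : n ≤ m)
      apply mul_le_mul_of_nonneg_right _ hd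
      rw [div_le_div_iff₀ (by positivity) (by positivity)]
      nlinarith
    have hκ0 : 0 ≤ (m / (m + 1) : ℝ) * d := by positivity
    rw [sd_succ, dl_apply]
    apply Finset.sum_eq_zero
    intro j _
    have hb : bary σ ∈ C := bary_mem hC σ h1
    have hz : sd n (ins (bary σ) c) (fun i => σ (j.succAbove i)) = 0 := by
      apply ih (by omega) (C := C ∩ closedBall (bary σ) ((m / (m + 1) : ℝ) * d))
        (hC.inter (convex_closedBall _ _))
      · intro τ hτ hτ2
        apply h
        · intro i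
          refine Fin.cases ?_ (fun i => ?_) i
          · simpa using hb
          · simpa using (hτ i).1
        · intro i k
          refine Fin.cases ?_ (fun i => ?_) i
          · refine Fin.cases ?_ (fun k => ?_) k
            · simpa using hκ0
            · simp only [Fin.cons_zero, Fin.cons_succ]
              rw [dist_comm]
              exact mem_closedBall.1 (hτ k).2
          · refine Fin.cases ?_ (fun k => ?_) k
            · simp only [Fin.cons_zero, Fin.cons_succ]
              exact mem_closedBall.1 (hτ i).2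
            · simp only [Fin.cons_succ]
              exact hτ2 i k
      · intro i
        refine ⟨h1 _, ?_⟩
        rw [mem_closedBall, dist_comm]
        exact (dist_bary σ h2 _).trans hκ
      · intro i k
        exact h2 _ _
    rw [hz, mul_zero]

lemma sdN_vanish (m N : ℕ) {d : ℝ} (hd : 0 ≤ d) {n : ℕ} (hn : n ≤ m + 1) {C : Set V}
    (hC : Convex ℝ C) (c : Coch V R n)
    (h : ∀ σ : Fin n → V, (∀ i, σ i ∈ C) → (∀ i j, dist (σ i) (σ j) ≤ (m / (m + 1) : ℝ) ^ N * d) →
      c σ = 0)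
    (σ : Fin n → V) (h1 : ∀ i, σ i ∈ C) (h2 : ∀ i j, dist (σ i) (σ j) ≤ d) : sdN N n c σ = 0 := by
  induction N generalizing d σ with
  | zero =>
    apply h σ h1
    simpa using h2
  | succ N ih =>
    rw [sdN_succ]
    refine sd_vanish m hd hn hC _ ?_ σ h1 h2
    intro τ hτ hτ2
    refine ih (by positivity) ?_ τ hτ hτ2
    intro ρ hρ hρ2
    apply h ρ hρ
    intro i j
    refine (hρ2 i j).trans (le_of_eq ?_)
    ring

variable {p : ℕ} {g : V →ₗ[ℝ] V} {e : ℕ → V}

/-- the hypothesis on the region `X`: it contains the faces and has diameter at most 2 -/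
structure Region (p : ℕ) (g : V →ₗ[ℝ] V) (e : ℕ → V) (m : ℕ) (X : Set V) : Prop where
  face : ∀ k : ℕ → ℕ, ∃ C : Set V, Convex ℝ C ∧ C ⊆ X ∧
    ∀ i ≤ m, g^[k i] (e i) ∈ C ∧ g^[k i + 1] (e i) ∈ C
  diam : ∀ a ∈ X, ∀ b ∈ X, dist a b ≤ 2
  inv : ∀ a ∈ X, g a ∈ X

lemma eA_vanish {m : ℕ} {X : Set V} (hX : Region p g e m X) (N : ℕ) {j : ℕ} (hj : j ≤ m)
    (c : Coch V R (2 * j + 1))
    (h : ∀ σ : Fin (2 * j + 1) → V, (∀ l, σ l ∈ X) →
      (∀ k l, dist (σ k) (σ l) ≤ (((2 * m + 1 : ℕ) : ℝ) / ((2 * m + 1 : ℕ) + 1)) ^ N * 2) →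
        c σ = 0) :
    eA p g e j (sdN N (2 * j + 1) c) = 0 := by
  rw [eA_apply]
  apply EE_vanish
  intro k σ hσ
  obtain ⟨C, hC, hCX, hCv⟩ := hX.face (fun i => if i = j then 0 else k i)
  rw [ins_apply]
  have hmem : ∀ l, (Fin.cons (e j) σ : Fin (2 * j + 1) → V) l ∈ C := by
    intro l
    refine Fin.cases ?_ (fun l => ?_) l
    · have := (hCv j hj).1
      simpa using this
    · obtain ⟨i, hi, h1⟩ := hσ l
      have h2 := hCv i (by omega)
      simp only [if_neg hi.ne] at h2
      rw [Fin.cons_succ]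
      rcases h1 with h1 | h1
      · rw [h1]; exact h2.1
      · rw [h1]; exact h2.2
  refine sdN_vanish (2 * m + 1) N (by norm_num : (0 : ℝ) ≤ 2) (by omega) hC c ?_ _ hmem ?_
  · intro σ hσ hσ2
    exact h σ (fun l => hCX (hσ l)) hσ2
  · intro k l
    exact hX.diam _ (hCX (hmem k)) _ (hCX (hmem l))

lemma eB_vanish {m : ℕ} {X : Set V} (hX : Region p g e m X) (N : ℕ) {j : ℕ} (hj : j ≤ m)
    (c : Coch V R (2 * j + 2)) (h : ∀ σ : Fin (2 * j + 2) → V, (∀ l, σ l ∈ X) → c σ = 0) :
    eB p g e j (sdN N (2 * j + 2) c) = 0 := by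
  rw [eB_apply]
  apply EE_vanish
  intro k σ hσ
  obtain ⟨C, hC, hCX, hCv⟩ := hX.face (fun i => if i = j then 0 else k i)
  rw [ins_apply, ins_apply]
  have hmem : ∀ l, (Fin.cons (e j) (Fin.cons (g (e j)) σ : Fin (2 * j + 1) → V) :
      Fin (2 * j + 2) → V) l ∈ C := by
    intro l
    refine Fin.cases ?_ (fun l => ?_) l
    · have := (hCv j hj).1
      simpa using this
    · refine Fin.cases ?_ (fun l => ?_) l
      · have := (hCv j hj).2
        simpa using this
      · obtain ⟨i, hi, h1⟩ := hσ l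
        have h2 := hCv i (by omega)
        simp only [if_neg hi.ne] at h2
        rw [Fin.cons_succ, Fin.cons_succ]
        rcases h1 with h1 | h1
        · rw [h1]; exact h2.1
        · rw [h1]; exact h2.2
  refine sdN_vanish (2 * m + 1) N (by norm_num : (0 : ℝ) ≤ 2) (by omega) hC c ?_ _ hmem ?_
  · intro σ hσ hσ2
    exact h σ (fun l => hCX (hσ l))
  · intro k l
    exact hX.diam _ (hCX (hmem k)) _ (hCX (hmem l))

/-- the key evaluation: the iterated Bockstein class is nonzero on the even cell -/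
theorem eval_WW {m : ℕ} {X : Set V} (hX : Region p g e m X) (hg : (g : V → V)^[p] = id)
    (N : ℕ) (q : ℕ → V → R) (w : ℕ → R) (Y : ℕ → V → V → R)
    (hq : ∀ i, ∀ a ∈ X, q i (g a) = q i a + w i)
    (hY : ∀ i, ∀ a ∈ X, ∀ b ∈ X, ∑ k ∈ range p, Y i (g^[k] a) (g^[k] b) = q i b - q i a)
    (hT : ∀ i, ∀ a ∈ X, ∀ b ∈ X, ∀ c ∈ X,
      Y i (g b) (g c) - Y i (g a) (g c) + Y i (g a) (g b) = Y i b c - Y i a c + Y i a b) :
    ∀ j ≤ m, eA p g e j (sdN N (2 * j + 1)
      (WW (fun i a b c => Y i b c - Y i a c + Y i a b) j)) = ∏ i ∈ range j, w i := by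
  intro j
  set T : ℕ → V → V → V → R := fun i a b c => Y i b c - Y i a c + Y i a b with hTdef
  have hXk : ∀ k : ℕ, ∀ a ∈ X, g^[k] a ∈ X := by
    intro k
    induction k with
    | zero => intro a ha; exact ha
    | succ k ih => intro a ha; rw [Function.iterate_succ_apply']; exact hX.inv _ (ih a ha)
  induction j with
  | zero =>
    intro _
    rw [Finset.prod_range_zero]
    have h1 : ∀ N : ℕ, sdN N (2 * 0 + 1) (WW T 0) = (WW T 0 : Coch V R (2 * 0 + 1)) := by
      intro N
      induction N with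
      | zero => rfl
      | succ N ih =>
        rw [sdN_succ, ih]
        ext σ
        change sd (0 + 1) (fun _ => (1 : R)) σ = 1
        rw [sd_succ]
        exact dl_zero_apply _ _ (fun i => i.elim0)
    rw [h1]
    rfl
  | succ j ih =>
    intro hj
    have hj' : j ≤ m := by omega
    have ih' := ih hj'
    -- step 1
    have h1 : WW T (j + 1) = dl (cup1 (n := 2 * j) (Y j) (WW T j)) :=
      (dl_cup1 (n := 2 * j) (Y j) (WW T j) (dl_WW Y j)).symm
    have h2 : sdN N (2 * (j + 1) + 1) (WW T (j + 1)) =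
        dl (sdN N (2 * j + 2) (cup1 (n := 2 * j) (Y j) (WW T j))) := by
      rw [h1]
      exact sdN_dl N (n := 2 * j + 2) (cup1 (n := 2 * j) (Y j) (WW T j))
    rw [h2, eA_dl hg, EE_succ']
    -- step 2
    have hgk : ∀ k : ℕ, (g : V → V)^[k] = ((g ^ k : V →ₗ[ℝ] V) : V → V) := by
      intro k
      rw [Module.End.coe_pow]
    have h3 : ∑ k ∈ range p, act ((g : V → V)^[k])
        (sdN N (2 * j + 2) (cup1 (n := 2 * j) (Y j) (WW T j))) =
        sdN N (2 * j + 2) (∑ k ∈ range p, act ((g : V → V)^[k])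
          (cup1 (n := 2 * j) (Y j) (WW T j))) := by
      rw [map_sum]
      apply Finset.sum_congr rfl
      intro k _
      rw [hgk, sdN_act]
    rw [h3]
    have hact : ∀ k : ℕ, ∀ σ : Fin (2 * j + 1) → V, (∀ l, σ l ∈ X) →
        WW T j (fun i => g^[k] (σ i)) = WW T j σ := by
      intro k
      induction k with
      | zero => intro σ _; rfl
      | succ k ihk =>
        intro σ hσ
        have e1 : (fun i => g^[k + 1] (σ i)) = fun i => g (g^[k] (σ i)) := by
          ext i
          rw [Function.iterate_succ_apply']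
        rw [e1]
        have e2 := WW_act T g hT j (fun i => g^[k] (σ i)) (fun l => hXk k _ (hσ l))
        rw [act_apply] at e2
        rw [e2, ihk σ hσ]
    have h4 : eB p g e j (sdN N (2 * j + 2) (∑ k ∈ range p, act ((g : V → V)^[k])
          (cup1 (n := 2 * j) (Y j) (WW T j)) - dl (cup0 (n := 2 * j) (q j) (WW T j)))) = 0 := by
      apply eB_vanish hX N hj'
      intro σ hσ
      rw [Pi.sub_apply, dl_cup0 (n := 2 * j) (q j) (WW T j) (dl_WW Y j), Finset.sum_apply]
      have e1 : ∀ k ∈ range p, act ((g : V → V)^[k]) (cup1 (n := 2 * j) (Y j) (WW T j)) σ =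
          Y j (g^[k] (σ 0)) (g^[k] (σ 1)) * WW T j (Fin.tail σ) := by
        intro k _
        rw [act_apply]
        change Y j (g^[k] (σ 0)) (g^[k] (σ 1)) *
          WW T j (fun i => g^[k] ((Fin.tail σ : Fin (2 * j + 1) → V) i)) = _
        rw [hact k (Fin.tail σ) (fun l => hσ _)]
      rw [Finset.sum_congr rfl e1, ← Finset.sum_mul, hY j _ (hσ _) _ (hσ _)]
      change (q j (σ 1) - q j (σ 0)) * WW T j (Fin.tail σ) -
        (q j (σ 1) - q j (σ 0)) * WW T j (Fin.tail σ) = 0
      rw [sub_self]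
    rw [map_sub, map_sub, sub_eq_zero] at h4
    rw [h4, sdN_dl, eB_dl hg, ← sdN_act, ← map_sub, ← map_sub]
    -- step 3
    have h5 : eA p g e j (sdN N (2 * j + 1) (act g (cup0 (n := 2 * j) (q j) (WW T j)) -
        cup0 (n := 2 * j) (q j) (WW T j) - w j • WW T j)) = 0 := by
      apply eA_vanish hX N hj'
      intro σ hσ _
      rw [Pi.sub_apply, Pi.sub_apply, act_apply]
      change q j (g (σ 0)) * WW T j (fun i => g (σ i)) - q j (σ 0) * WW T j σ -
        w j * WW T j σ = 0
      have e2 := WW_act T g hT j σ hσ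
      rw [act_apply] at e2
      rw [e2, hq j _ (hσ _)]
      ring
    rw [map_sub, map_sub, sub_eq_zero, map_smul, map_smul] at h5
    rw [h5, ih', Finset.prod_range_succ, smul_eq_mul, mul_comm]

end normed

end Pool.Agent.Work.MP_638b00_ag
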