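import Pool.Agent.Work.MP_638b00_ag.Witt

/-!
# Expansion of a form along several conjugate pairs of vectors
-/

set_option linter.unusedVariables false
set_option linter.unusedSectionVars false

namespace Pool.Agent.Work.MP_638b00_ag

open Finset MvPolynomial

variable {K : Type*} [Field K]

/-- the variables `λ_j` and their conjugates -/
abbrev Tau (k : ℕ) := Fin k ⊕ Fin k

/-- the generic vector -/
noncomputable def lin {k n : ℕ} (w : Fin k → ℕ) (u : Fin n → LL K) (l : Fin n) :
    MvPolynomial (Tau k) (LL K) :=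
  ∑ j : Fin k, (X (Sum.inl j) * C (u l ^ w j) + X (Sum.inr j) * C (star (u l) ^ w j))

/-- the expansion of `f` -/
noncomputable def PP {k n : ℕ} (w : Fin k → ℕ) (f : MvPolynomial (Fin n) K) (u : Fin n → LL K) :
    MvPolynomial (Tau k) (LL K) := aeval (lin w u) f

/-- the weight of the holomorphic part -/
def wA {k : ℕ} (w : Fin k → ℕ) (μ : Tau k →₀ ℕ) : ℕ := ∑ j, w j * μ (Sum.inl j)

/-- the weight of the antiholomorphic part -/
def wB {k : ℕ} (w : Fin k → ℕ) (μ : Tau k →₀ ℕ) : ℕ := ∑ j, w j * μ (Sum.inr j)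

lemma wA_add {k : ℕ} (w : Fin k → ℕ) (μ ν : Tau k →₀ ℕ) : wA w (μ + ν) = wA w μ + wA w ν := by
  unfold wA
  rw [← Finset.sum_add_distrib]
  apply Finset.sum_congr rfl
  intro j _
  rw [Finsupp.add_apply, mul_add]

lemma wB_add {k : ℕ} (w : Fin k → ℕ) (μ ν : Tau k →₀ ℕ) : wB w (μ + ν) = wB w μ + wB w ν := by
  unfold wB
  rw [← Finset.sum_add_distrib]
  apply Finset.sum_congr rfl
  intro j _
  rw [Finsupp.add_apply, mul_add]

lemma Bih.sum {n : ℕ} {σ : Type*} (s : Finset σ) {a b : ℕ} (f : σ → (Fin n → LL K) → LL K)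
    (h : ∀ i ∈ s, Bih a b (f i)) : Bih a b (fun u => ∑ i ∈ s, f i u) := by
  classical
  induction s using Finset.induction_on with
  | empty => simpa using Bih.zero (K := K) (n := n) a b
  | insert i s hi ih =>
    have e : (fun u => ∑ i ∈ insert i s, f i u) = fun u => f i u + ∑ i ∈ s, f i u := by
      funext u
      rw [Finset.sum_insert hi]
    rw [e]
    exact Bih.add (h i (Finset.mem_insert_self _ _))
      (ih fun l hl => h l (Finset.mem_insert_of_mem hl))

lemma Bih.congr {n a b a' b' : ℕ} {f g : (Fin n → LL K) → LL K} (h : Bih a b f) (ha : a = a')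
    (hb : b = b') (hf : f = g) : Bih a' b' g := by
  subst ha hb hf
  exact h

lemma Bih.pow {n a b : ℕ} {f : (Fin n → LL K) → LL K} (h : Bih a b f) (m : ℕ) :
    Bih (m * a) (m * b) (fun u => f u ^ m) := by
  induction m with
  | zero =>
    exact (Bih.const (K := K) (n := n) 1).congr (by simp) (by simp) (by funext u; simp)
  | succ m ih =>
    exact (Bih.mul ih h).congr (by ring) (by ring) (by funext u; rw [pow_succ])

/-- all coefficients are bihomogeneous of the right weight -/
def Good {k n : ℕ} (w : Fin k → ℕ) (P : (Fin n → LL K) → MvPolynomial (Tau k) (LL K)) : Prop :=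
  ∀ μ, Bih (wA w μ) (wB w μ) (fun u => coeff μ (P u))

lemma Good.add {k n : ℕ} {w : Fin k → ℕ} {P Q : (Fin n → LL K) → MvPolynomial (Tau k) (LL K)}
    (hP : Good w P) (hQ : Good w Q) : Good w (fun u => P u + Q u) := by
  intro μ
  exact (Bih.add (hP μ) (hQ μ)).congr rfl rfl (by funext u; rw [coeff_add])

lemma Good.mul {k n : ℕ} {w : Fin k → ℕ} {P Q : (Fin n → LL K) → MvPolynomial (Tau k) (LL K)}
    (hP : Good w P) (hQ : Good w Q) : Good w (fun u => P u * Q u) := by
  classical
  intro μ
  have h : Bih (wA w μ) (wB w μ) (fun u => ∑ x ∈ Finset.HasAntidiagonal.antidiagonal μ,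
      coeff x.1 (P u) * coeff x.2 (Q u)) := by
    apply Bih.sum
    intro x hx
    have hx' : x.1 + x.2 = μ := Finset.HasAntidiagonal.mem_antidiagonal.1 hx
    exact (Bih.mul (hP x.1) (hQ x.2)).congr (by rw [← wA_add, hx']) (by rw [← wB_add, hx']) rfl
  exact h.congr rfl rfl (by funext u; rw [coeff_mul])

lemma Good.const {k n : ℕ} {w : Fin k → ℕ} (c : LL K) :
    Good w (fun _ : Fin n → LL K => (C c : MvPolynomial (Tau k) (LL K))) := by
  classical
  intro μ
  by_cases h : 0 = μ
  · subst h
    exact (Bih.const (K := K) (n := n) c).congr (by simp [wA]) (by simp [wB]) (by simp)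
  · exact (Bih.zero (K := K) (n := n) (wA w μ) (wB w μ)).congr rfl rfl (by
      funext u
      rw [coeff_C, if_neg h])

lemma Good.sum {k n : ℕ} {w : Fin k → ℕ} {σ : Type*} (s : Finset σ)
    (P : σ → (Fin n → LL K) → MvPolynomial (Tau k) (LL K)) (h : ∀ i ∈ s, Good w (P i)) :
    Good w (fun u => ∑ i ∈ s, P i u) := by
  intro μ
  have := Bih.sum s (fun i u => coeff μ (P i u)) (fun i hi => h i hi μ)
  exact this.congr rfl rfl (by funext u; rw [coeff_sum])

lemma Good.varl {k n : ℕ} (w : Fin k → ℕ) (j : Fin k) (l : Fin n) :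
    Good w (fun u : Fin n → LL K => X (Sum.inl j) * C (u l ^ w j)) := by
  classical
  intro μ
  by_cases h : Finsupp.single (Sum.inl j) 1 = μ
  · subst h
    refine ((Bih.var (K := K) l).pow (w j)).congr ?_ ?_ ?_
    · unfold wA
      rw [Finset.sum_eq_single j]
      · simp
      · intro i _ hi
        rw [Finsupp.single_eq_of_ne (by simpa using hi), mul_zero]
      · intro h
        exact absurd (Finset.mem_univ _) h
    · unfold wB
      simp
    · funext u
      dsimp only
      rw [mul_comm, coeff_C_mul, coeff_X, if_pos rfl, mul_one]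
  · exact (Bih.zero (K := K) (n := n) (wA w μ) (wB w μ)).congr rfl rfl (by
      funext u
      dsimp only
      rw [mul_comm, coeff_C_mul, coeff_X, if_neg h, mul_zero])

lemma Good.varr {k n : ℕ} (w : Fin k → ℕ) (j : Fin k) (l : Fin n) :
    Good w (fun u : Fin n → LL K => X (Sum.inr j) * C (star (u l) ^ w j)) := by
  classical
  intro μ
  by_cases h : Finsupp.single (Sum.inr j) 1 = μ
  · subst h
    refine ((Bih.cvar (K := K) l).pow (w j)).congr ?_ ?_ ?_
    · unfold wA
      simp
    · unfold wB
      rw [Finset.sum_eq_single j]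
      · simp
      · intro i _ hi
        rw [Finsupp.single_eq_of_ne (by simpa using hi), mul_zero]
      · intro h
        exact absurd (Finset.mem_univ _) h
    · funext u
      dsimp only
      rw [mul_comm, coeff_C_mul, coeff_X, if_pos rfl, mul_one]
  · exact (Bih.zero (K := K) (n := n) (wA w μ) (wB w μ)).congr rfl rfl (by
      funext u
      dsimp only
      rw [mul_comm, coeff_C_mul, coeff_X, if_neg h, mul_zero])

lemma Good.lin {k n : ℕ} (w : Fin k → ℕ) (l : Fin n) :
    Good w (fun u : Fin n → LL K => lin w u l) := by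
  apply Good.sum
  intro j _
  exact (Good.varl w j l).add (Good.varr w j l)

lemma Good.PP {k n : ℕ} (w : Fin k → ℕ) (f : MvPolynomial (Fin n) K) : Good w (PP w f) := by
  unfold Pool.Agent.Work.MP_638b00_ag.PP
  induction f using MvPolynomial.induction_on with
  | C a =>
    have e : (fun u : Fin n → LL K => aeval (Pool.Agent.Work.MP_638b00_ag.lin w u)
        (C a : MvPolynomial (Fin n) K)) = fun _ => C (algebraMap K (LL K) a) := by
      funext u
      rw [aeval_C]
      rfl
    rw [e]
    exact Good.const _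
  | add p q hp hq =>
    have e : (fun u : Fin n → LL K => aeval (Pool.Agent.Work.MP_638b00_ag.lin w u) (p + q)) =
        fun u => aeval (Pool.Agent.Work.MP_638b00_ag.lin w u) p +
          aeval (Pool.Agent.Work.MP_638b00_ag.lin w u) q := by
      funext u
      rw [map_add]
    rw [e]
    exact hp.add hq
  | mul_X p l hp =>
    have e : (fun u : Fin n → LL K => aeval (Pool.Agent.Work.MP_638b00_ag.lin w u) (p * X l)) =
        fun u => aeval (Pool.Agent.Work.MP_638b00_ag.lin w u) p *
          Pool.Agent.Work.MP_638b00_ag.lin w u l := by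
      funext u
      rw [map_mul, aeval_X]
    rw [e]
    exact hp.mul (Good.lin w l)

lemma lin_hom {k n : ℕ} (w : Fin k → ℕ) (u : Fin n → LL K) (l : Fin n) :
    (lin w u l).IsHomogeneous 1 := by
  unfold lin
  apply IsHomogeneous.sum
  intro j _
  apply IsHomogeneous.add
  · exact (isHomogeneous_X (LL K) (Sum.inl j : Tau k)).mul (isHomogeneous_C (Tau k) (u l ^ w j))
  · exact (isHomogeneous_X (LL K) (Sum.inr j : Tau k)).mul
      (isHomogeneous_C (Tau k) (star (u l) ^ w j))

lemma PP_hom {k n : ℕ} (w : Fin k → ℕ) {f : MvPolynomial (Fin n) K} {d : ℕ}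
    (hf : f.IsHomogeneous d) (u : Fin n → LL K) : (PP w f u).IsHomogeneous d := by
  have := hf.aeval (lin w u) (lin_hom w u)
  simpa [PP] using this

/-- evaluation at conjugate pairs -/
lemma eval_PP {k n : ℕ} (w : Fin k → ℕ) (f : MvPolynomial (Fin n) K) (u : Fin n → LL K)
    (lam : Fin k → LL K) (x : Fin n → K)
    (hx : ∀ l, algebraMap K (LL K) (x l) =
      ∑ j, (lam j * u l ^ w j + star (lam j) * star (u l) ^ w j)) :
    eval (Sum.elim lam (fun j => star (lam j))) (PP w f u) = algebraMap K (LL K) (eval x f) := by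
  unfold PP
  have h1 : eval (Sum.elim lam (fun j => star (lam j))) (aeval (lin w u) f) =
      (((aeval (Sum.elim lam (fun j => star (lam j))) :
        MvPolynomial (Tau k) (LL K) →ₐ[LL K] LL K).restrictScalars K) (aeval (lin w u) f)) := by
    rw [AlgHom.restrictScalars_apply, ← coe_aeval_eq_eval]
    rfl
  rw [h1, comp_aeval_apply]
  have h2 : (fun i => ((aeval (Sum.elim lam (fun j => star (lam j))) :
        MvPolynomial (Tau k) (LL K) →ₐ[LL K] LL K).restrictScalars K) (lin w u i)) =
      fun l => algebraMap K (LL K) (x l) := by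
    funext l
    rw [hx, AlgHom.restrictScalars_apply]
    unfold lin
    rw [map_sum]
    apply Finset.sum_congr rfl
    intro j _
    simp
  rw [h2]
  rw [← coe_aeval_eq_eval]
  have h3 := comp_aeval_apply (R := K) x (Algebra.ofId K (LL K)) f
  exact h3.symm

end Pool.Agent.Work.MP_638b00_ag
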