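import Pool.Agent.Work.MP_638b00_ag.Herm

/-!
# Existence of the filtration for finite extensions of `ℝ(t)`
-/

set_option linter.unusedVariables false
set_option linter.unusedSectionVars false

namespace Pool.Agent.Work.MP_638b00_ag

open Finset Polynomial IntermediateField

variable {K : Type*} [Field K] [Algebra ℝ K]

lemma frac (t : K) (x : ℝ⟮t⟯) : ∃ p q : ℝ[X], aeval t q ≠ 0 ∧ aeval t q * (x : K) = aeval t p := by
  obtain ⟨r, s, h⟩ := (IntermediateField.mem_adjoin_simple_iff ℝ (x : K)).1 x.2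
  by_cases hs : aeval t s = 0
  · refine ⟨0, 1, ?_, ?_⟩
    · simp
    · rw [h, hs]
      simp
  · refine ⟨r, s, hs, ?_⟩
    rw [h]
    field_simp

lemma common (t : K) {σ : Type*} (S : Finset σ) (x : σ → ℝ⟮t⟯) :
    ∃ q : ℝ[X], aeval t q ≠ 0 ∧ ∀ i ∈ S, ∃ p : ℝ[X], aeval t q * (x i : K) = aeval t p := by
  classical
  induction S using Finset.induction_on with
  | empty => exact ⟨1, by simp, by simp⟩
  | insert a S ha ih =>
    obtain ⟨q, hq, h⟩ := ih
    obtain ⟨p', q', hq', h'⟩ := frac t (x a)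
    refine ⟨q * q', ?_, ?_⟩
    · rw [map_mul]
      exact mul_ne_zero hq hq'
    · intro i hi
      rcases Finset.mem_insert.1 hi with rfl | hi
      · refine ⟨q * p', ?_⟩
        rw [map_mul, map_mul, ← h']
        ring
      · obtain ⟨p, hp⟩ := h i hi
        refine ⟨p * q', ?_⟩
        rw [map_mul, map_mul, ← hp]
        ring

/-- the generating family of the `s`-th step -/
noncomputable def genf (t : K) {D : ℕ} (e : Fin D → K) (s : ℕ) (x : Fin (s + 1) × Fin D) : K :=
  t ^ (x.1 : ℕ) * e x.2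

/-- the `s`-th step -/
noncomputable def AA (t : K) {D : ℕ} (e : Fin D → K) (s : ℕ) : Submodule ℝ K :=
  Submodule.span ℝ (Set.range (genf t e s))

lemma mem_AA (t : K) {D : ℕ} (e : Fin D → K) {s q : ℕ} (hq : q ≤ s) (m : Fin D) :
    t ^ q * e m ∈ AA t e s :=
  Submodule.subset_span ⟨(⟨q, by omega⟩, m), rfl⟩

lemma poly_mem_AA (t : K) {D : ℕ} (e : Fin D → K) {s : ℕ} (P : ℝ[X]) (hP : P.natDegree ≤ s)
    (m : Fin D) : aeval t P * e m ∈ AA t e s := by
  rw [Polynomial.aeval_eq_sum_range, Finset.sum_mul]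
  apply Submodule.sum_mem
  intro q hq
  rw [smul_mul_assoc]
  apply Submodule.smul_mem
  apply mem_AA
  have := Finset.mem_range.1 hq
  omega

lemma AA_mono (t : K) {D : ℕ} (e : Fin D → K) : Monotone (AA t e) := by
  intro s r h
  apply Submodule.span_le.2
  rintro _ ⟨⟨q, m⟩, rfl⟩
  exact mem_AA t e (by have := q.2; omega) m

lemma AA_mul (t : K) {D : ℕ} (e : Fin D → K) (c : ℕ) (g : Fin D → Fin D → Fin D → ℝ[X])
    (hg : ∀ j l m, (g j l m).natDegree ≤ c)
    (he : ∀ j l, e j * e l = ∑ m, aeval t (g j l m) * e m) (s r : ℕ) (x y : K)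
    (hx : x ∈ AA t e s) (hy : y ∈ AA t e r) : x * y ∈ AA t e (s + r + c) := by
  have h1 : ∀ (q : Fin (s + 1)) (j : Fin D) (q' : Fin (r + 1)) (l : Fin D),
      genf t e s (q, j) * genf t e r (q', l) ∈ AA t e (s + r + c) := by
    intro q j q' l
    have e1 : genf t e s (q, j) * genf t e r (q', l) =
        ∑ m, aeval t (X ^ ((q : ℕ) + (q' : ℕ)) * g j l m) * e m := by
      unfold genf
      have e2 : ∀ m, aeval t (X ^ ((q : ℕ) + (q' : ℕ)) * g j l m) * e m =
          t ^ ((q : ℕ) + (q' : ℕ)) * (aeval t (g j l m) * e m) := by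
        intro m
        rw [map_mul, map_pow, aeval_X, mul_assoc]
      rw [Finset.sum_congr rfl fun m _ => e2 m, ← Finset.mul_sum, ← he]
      ring
    rw [e1]
    apply Submodule.sum_mem
    intro m _
    apply poly_mem_AA
    refine (Polynomial.natDegree_mul_le).trans ?_
    have h2 := hg j l m
    have h3 := Polynomial.natDegree_X_pow_le (R := ℝ) ((q : ℕ) + (q' : ℕ))
    have := q.2
    have := q'.2
    omega
  unfold AA at hx hy
  induction hx using Submodule.span_induction with
  | mem x hx =>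
    obtain ⟨⟨q, j⟩, rfl⟩ := hx
    induction hy using Submodule.span_induction with
    | mem y hy =>
      obtain ⟨⟨q', l⟩, rfl⟩ := hy
      exact h1 q j q' l
    | zero => rw [mul_zero]; exact Submodule.zero_mem _
    | add y z _ _ h3 h4 => rw [mul_add]; exact Submodule.add_mem _ h3 h4
    | smul a y _ h3 => rw [mul_smul_comm]; exact Submodule.smul_mem _ _ h3
  | zero => rw [zero_mul]; exact Submodule.zero_mem _
  | add x z _ _ h3 h4 => rw [add_mul]; exact Submodule.add_mem _ h3 h4
  | smul a x _ h3 => rw [smul_mul_assoc]; exact Submodule.smul_mem _ _ h3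

lemma pow_indep (t : K) (ht : Transcendental ℝ t) (s : ℕ) :
    LinearIndependent ℝ (fun q : Fin (s + 1) => (AdjoinSimple.gen ℝ t) ^ (q : ℕ)) := by
  rw [Fintype.linearIndependent_iff]
  intro a ha
  have h1 : aeval t (∑ q : Fin (s + 1), C (a q) * X ^ (q : ℕ)) = 0 := by
    rw [map_sum]
    have h2 := congrArg (fun x : ℝ⟮t⟯ => (x : K)) ha
    simp only [AddSubmonoidClass.coe_finsetSum, ZeroMemClass.coe_zero] at h2
    rw [← h2]
    apply Finset.sum_congr rfl
    intro q _
    rw [map_mul, map_pow, aeval_C, aeval_X, ← Algebra.smul_def]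
    rfl
  have h3 := (transcendental_iff.1 ht) _ h1
  intro q
  have h4 := congrArg (fun P : ℝ[X] => P.coeff (q : ℕ)) h3
  simp only [Polynomial.finsetSum_coeff, Polynomial.coeff_C_mul, Polynomial.coeff_X_pow,
    Polynomial.coeff_zero] at h4
  rw [Finset.sum_eq_single q] at h4
  · simpa using h4
  · intro l _ hl
    rw [if_neg (fun h => hl (Fin.ext h.symm)), mul_zero]
  · intro h
    exact absurd (Finset.mem_univ _) h

/-- **Existence of the filtration** for a finite extension of `ℝ(t)`. -/
theorem exists_filt (t : K) (ht : Transcendental ℝ t) [FiniteDimensional ℝ⟮t⟯ K] :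
    Nonempty (Filt K) := by
  classical
  set D := Module.finrank ℝ⟮t⟯ K with hD
  have hDpos : 0 < D := Module.finrank_pos
  let b := Module.finBasis ℝ⟮t⟯ K
  obtain ⟨q0, hq0, h0⟩ := common t (Finset.univ : Finset (Fin D × Fin D × Fin D))
    (fun x => b.repr (b x.1 * b x.2.1) x.2.2)
  have hmemF : ∀ P : ℝ[X], aeval t P ∈ ℝ⟮t⟯ := by
    intro P
    rw [IntermediateField.mem_adjoin_simple_iff]
    exact ⟨P, 1, by simp⟩
  let Q : ℝ⟮t⟯ := ⟨aeval t q0, hmemF q0⟩
  have hQ : Q ≠ 0 := by
    intro h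
    exact hq0 (congrArg (fun x : ℝ⟮t⟯ => (x : K)) h)
  let e : Module.Basis (Fin D) ℝ⟮t⟯ K := b.isUnitSMul (w := fun _ => Q) fun _ => IsUnit.mk0 Q hQ
  have he : ∀ j, e j = Q • b j := fun j => Module.Basis.isUnitSMul_apply _ j
  have hsm : ∀ (x : ℝ⟮t⟯) (y : K), x • y = (x : K) * y := fun x y => rfl
  choose g hg using fun (j l m : Fin D) => h0 (j, l, m) (Finset.mem_univ _)
  have hmul : ∀ j l, e j * e l = ∑ m, aeval t (g j l m) * e m := by
    intro j l
    have h1 : b j * b l = ∑ m, (b.repr (b j * b l) m : ℝ⟮t⟯) • b m := (b.sum_repr _).symm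
    have h2 : e j * e l = (Q : K) * (Q : K) * (b j * b l) := by
      rw [he, he, hsm, hsm]
      ring
    rw [h2]
    conv_lhs => rw [h1]
    rw [Finset.mul_sum]
    apply Finset.sum_congr rfl
    intro m _
    rw [← hg j l m, he, hsm, hsm]
    change (Q : K) * (Q : K) * (_ * b m) = (Q : K) * _ * ((Q : K) * b m)
    ring
  let c := ∑ j, ∑ l, ∑ m, (g j l m).natDegree
  have hc : ∀ j l m, (g j l m).natDegree ≤ c := by
    intro j l m
    calc (g j l m).natDegree ≤ ∑ m, (g j l m).natDegree :=
          Finset.single_le_sum (f := fun m => (g j l m).natDegree) (fun _ _ => Nat.zero_le _)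
            (Finset.mem_univ m)
      _ ≤ ∑ l, ∑ m, (g j l m).natDegree :=
          Finset.single_le_sum (f := fun l => ∑ m, (g j l m).natDegree)
            (fun _ _ => Nat.zero_le _) (Finset.mem_univ l)
      _ ≤ _ := Finset.single_le_sum (f := fun j => ∑ l, ∑ m, (g j l m).natDegree)
            (fun _ _ => Nat.zero_le _) (Finset.mem_univ j)
  have hind : ∀ s, LinearIndependent ℝ (genf t e s) := by
    intro s
    have := linearIndependent_smul (pow_indep t ht s) e.linearIndependent
    exact this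
  refine ⟨⟨AA t e, D, c, hDpos, ?_, ?_, AA_mono t e, AA_mul t e c g hc hmul, ?_⟩⟩
  · intro s
    exact FiniteDimensional.span_of_finite ℝ (Set.finite_range _)
  · intro s
    unfold AA
    rw [finrank_span_eq_card (hind s), Fintype.card_prod, Fintype.card_fin, Fintype.card_fin]
    ring
  · intro κ
    let j0 : Fin D := ⟨0, hDpos⟩
    obtain ⟨q1, hq1, h1⟩ := common t (Finset.univ : Finset (Fin D))
      (fun m => e.repr (e j0 * κ) m)
    choose P hP using fun m => h1 m (Finset.mem_univ m)
    have hej : e j0 ≠ 0 := e.ne_zero j0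
    have e1 : aeval t q1 * e j0 * κ = ∑ m, aeval t (P m) * e m := by
      have h2 : e j0 * κ = ∑ m, (e.repr (e j0 * κ) m : ℝ⟮t⟯) • e m := (e.sum_repr _).symm
      rw [mul_assoc]
      conv_lhs => rw [h2]
      rw [Finset.mul_sum]
      apply Finset.sum_congr rfl
      intro m _
      rw [← hP m, hsm]
      ring
    refine ⟨aeval t q1 * e j0, mul_ne_zero hq1 hej, q1.natDegree + ∑ m, (P m).natDegree, ?_, ?_⟩
    · exact poly_mem_AA t e q1 (by omega) j0
    · rw [e1]
      apply Submodule.sum_mem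
      intro m _
      apply poly_mem_AA
      have := Finset.single_le_sum (f := fun m => (P m).natDegree) (fun _ _ => Nat.zero_le _)
        (Finset.mem_univ m)
      exact this.trans (Nat.le_add_left _ _)

end Pool.Agent.Work.MP_638b00_ag
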