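import Pool.Agent.Work.MP_638b00_ag.BU

/-!
# A Tsen-Lang theorem for Hermitian type polynomials of nonzero weight
-/

set_option linter.unusedVariables false

namespace Pool.Agent.Work.MP_638b00_ag

open Finset

variable {K : Type*} [Field K]

/-- the quadratic extension `K[i]` (a field when `-1` is not a square in `K`) -/
abbrev LL (K : Type*) [Field K] := QuadraticAlgebra K (-1) 0

lemma LL_mul_re (x y : LL K) : (x * y).re = x.re * y.re - x.im * y.im := by
  simp [QuadraticAlgebra.re_mul, sub_eq_add_neg]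

lemma LL_mul_im (x y : LL K) : (x * y).im = x.re * y.im + x.im * y.re := by
  simp [QuadraticAlgebra.im_mul]

lemma LL_star_re (x : LL K) : (star x).re = x.re := by
  simp

lemma LL_star_im (x : LL K) : (star x).im = -x.im := by
  simp

section cc

variable [Algebra ℝ K]

/-- the embedding of the complex numbers -/
noncomputable def cc : ℂ →+* LL K where
  toFun z := ⟨algebraMap ℝ K z.re, algebraMap ℝ K z.im⟩
  map_one' := by
    ext
    · simp [QuadraticAlgebra.re_one]
    · simp [QuadraticAlgebra.im_one]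
  map_mul' x y := by
    ext
    · rw [LL_mul_re]; simp
    · rw [LL_mul_im]; simp
  map_zero' := by
    ext <;> simp
  map_add' x y := by
    ext <;> simp

lemma cc_re (z : ℂ) : (cc z : LL K).re = algebraMap ℝ K z.re := rfl

lemma cc_im (z : ℂ) : (cc z : LL K).im = algebraMap ℝ K z.im := rfl

lemma star_cc (z : ℂ) : star (cc z : LL K) = cc (starRingEnd ℂ z) := by
  ext
  · rw [LL_star_re, cc_re, cc_re, Complex.conj_re]
  · rw [LL_star_im, cc_im, cc_im, Complex.conj_im, map_neg]

/-- the complex functional attached to a real functional -/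
noncomputable def fun2 (ψ : K →ₗ[ℝ] ℝ) (v : LL K) : ℂ := ⟨ψ v.re, ψ v.im⟩

lemma fun2_add (ψ : K →ₗ[ℝ] ℝ) (v w : LL K) : fun2 ψ (v + w) = fun2 ψ v + fun2 ψ w := by
  apply Complex.ext
  · simp [fun2]
  · simp [fun2]

lemma fun2_cc (ψ : K →ₗ[ℝ] ℝ) (z : ℂ) (v : LL K) : fun2 ψ (cc z * v) = z * fun2 ψ v := by
  apply Complex.ext
  · simp only [fun2, Complex.mul_re]
    rw [LL_mul_re, cc_re, cc_im, map_sub, ← Algebra.smul_def, ← Algebra.smul_def, map_smul,
      map_smul, smul_eq_mul, smul_eq_mul]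
  · simp only [fun2, Complex.mul_im]
    rw [LL_mul_im, cc_re, cc_im, map_add, ← Algebra.smul_def, ← Algebra.smul_def, map_smul,
      map_smul, smul_eq_mul, smul_eq_mul]

end cc

/-- functions that are bihomogeneous polynomials in the coordinates and their conjugates -/
inductive Bih {n : ℕ} : ℕ → ℕ → ((Fin n → LL K) → LL K) → Prop
  | zero (a b : ℕ) : Bih a b (fun _ => 0)
  | const (c : LL K) : Bih 0 0 (fun _ => c)
  | var (l : Fin n) : Bih 1 0 (fun u => u l)
  | cvar (l : Fin n) : Bih 0 1 (fun u => star (u l))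
  | add {a b : ℕ} {g h : (Fin n → LL K) → LL K} : Bih a b g → Bih a b h →
      Bih a b (fun u => g u + h u)
  | mul {a b a' b' : ℕ} {g h : (Fin n → LL K) → LL K} : Bih a b g → Bih a' b' h →
      Bih (a + a') (b + b') (fun u => g u * h u)

lemma Bih.scale [Algebra ℝ K] {n : ℕ} {a b : ℕ} {g : (Fin n → LL K) → LL K} (hg : Bih a b g)
    (z : ℂ) (u : Fin n → LL K) :
    g (fun l => cc z * u l) = cc (z ^ a * (starRingEnd ℂ z) ^ b) * g u := by
  induction hg with
  | zero a b => simp
  | const c => simp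
  | var l => simp
  | cvar l => simp [star_mul', star_cc]
  | add _ _ h1 h2 => dsimp only; rw [h1, h2]; ring
  | mul _ _ h1 h2 =>
    dsimp only
    rw [h1, h2, pow_add, pow_add]
    simp only [map_mul]
    ring

/-- functions of finitely many complex variables with continuous coordinates -/
inductive Nice [Algebra ℝ K] {τ : Type*} : ((τ → ℂ) → LL K) → Prop
  | base (h : (τ → ℂ) → ℂ) (hc : Continuous h) (c : LL K) : Nice (fun y => cc (h y) * c)
  | add {f g : (τ → ℂ) → LL K} : Nice f → Nice g → Nice (fun y => f y + g y)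

lemma Nice.mul [Algebra ℝ K] {τ : Type*} {f g : (τ → ℂ) → LL K} (hf : Nice f) (hg : Nice g) :
    Nice (fun y => f y * g y) := by
  induction hf with
  | base h hc c =>
    induction hg with
    | base h' hc' c' =>
      have e : (fun y => cc (h y) * c * (cc (h' y) * c')) =
          fun y => (cc (h y * h' y) : LL K) * (c * c') := by
        funext y
        rw [map_mul]
        ring
      rw [e]
      exact Nice.base _ (hc.mul hc') _
    | @add f' g' _ _ h1 h2 =>
      have e : (fun y => cc (h y) * c * (f' y + g' y)) =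
          fun y => cc (h y) * c * f' y + cc (h y) * c * g' y := by
        funext y
        rw [mul_add]
      rw [e]
      exact Nice.add h1 h2
  | @add f' g' _ _ h1 h2 =>
    have e : (fun y => (f' y + g' y) * g y) = fun y => f' y * g y + g' y * g y := by
      funext y
      rw [add_mul]
    rw [e]
    exact Nice.add h1 h2

lemma Nice.const [Algebra ℝ K] {τ : Type*} (c : LL K) :
    Nice (fun _ : τ → ℂ => c) := by
  have e : (fun _ : τ → ℂ => c) = fun _ : τ → ℂ => cc 1 * c := by
    funext y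
    rw [map_one, one_mul]
  rw [e]
  exact Nice.base _ continuous_const _

lemma Nice.sum [Algebra ℝ K] {τ σ : Type*} (s : Finset σ) (f : σ → (τ → ℂ) → LL K)
    (h : ∀ i ∈ s, Nice (f i)) : Nice (fun y => ∑ i ∈ s, f i y) := by
  classical
  induction s using Finset.induction_on with
  | empty => simpa using Nice.const (K := K) (0 : LL K)
  | insert a s ha ih =>
    have e : (fun y => ∑ i ∈ insert a s, f i y) = fun y => f a y + ∑ i ∈ s, f i y := by
      funext y
      rw [Finset.sum_insert ha]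
    rw [e]
    exact Nice.add (h a (Finset.mem_insert_self _ _))
      (ih fun i hi => h i (Finset.mem_insert_of_mem hi))

lemma Nice.continuous [Algebra ℝ K] {τ : Type*} {f : (τ → ℂ) → LL K} (hf : Nice f)
    (ψ : K →ₗ[ℝ] ℝ) : Continuous (fun y => fun2 ψ (f y)) := by
  induction hf with
  | base h hc c =>
    have e : (fun y => fun2 ψ (cc (h y) * c)) = fun y => h y * fun2 ψ c := by
      funext y
      rw [fun2_cc]
    rw [e]
    exact hc.mul continuous_const
  | @add f' g' _ _ h1 h2 =>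
    have e : (fun y => fun2 ψ (f' y + g' y)) = fun y => fun2 ψ (f' y) + fun2 ψ (g' y) := by
      funext y
      rw [fun2_add]
    rw [e]
    exact h1.add h2

/-- the parametrization of vectors by complex coordinates -/
noncomputable def uu [Algebra ℝ K] {n : ℕ} {θ : Type*} [Fintype θ] (β : θ → K)
    (y : Fin n × θ → ℂ) (l : Fin n) : LL K := ∑ q, cc (y (l, q)) * algebraMap K (LL K) (β q)

lemma Bih.nice [Algebra ℝ K] {n : ℕ} {θ : Type*} [Fintype θ] (β : θ → K) {a b : ℕ}
    {g : (Fin n → LL K) → LL K} (hg : Bih a b g) : Nice (fun y => g (uu β y)) := by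
  induction hg with
  | zero a b => exact Nice.const _
  | const c => exact Nice.const _
  | var l =>
    apply Nice.sum
    intro q _
    exact Nice.base _ (continuous_apply _) _
  | cvar l =>
    have e : (fun y => star (uu β y l)) = fun y : Fin n × θ → ℂ =>
        ∑ q, cc (starRingEnd ℂ (y (l, q))) * algebraMap K (LL K) (β q) := by
      funext y
      unfold uu
      rw [star_sum]
      apply Finset.sum_congr rfl
      intro q _
      rw [star_mul', star_cc]
      congr 1
      ext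
      · rw [LL_star_re]
      · rw [LL_star_im]
        simp
    rw [e]
    apply Nice.sum
    intro q _
    exact Nice.base _ (Complex.continuous_conj.comp (continuous_apply _)) _
  | add _ _ h1 h2 => exact Nice.add h1 h2
  | mul _ _ h1 h2 => exact Nice.mul h1 h2

/-- a filtration of `K` by real subspaces of linearly growing dimension -/
structure Filt (K : Type*) [Field K] [Algebra ℝ K] where
  /-- the subspaces -/
  A : ℕ → Submodule ℝ K
  /-- the growth rate -/
  D : ℕ
  /-- the shift -/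
  c : ℕ
  D_pos : 0 < D
  fin : ∀ s, FiniteDimensional ℝ (A s)
  rank : ∀ s, Module.finrank ℝ (A s) = D * (s + 1)
  mono : Monotone A
  mul : ∀ s r x y, x ∈ A s → y ∈ A r → x * y ∈ A (s + r + c)
  den : ∀ κ : K, ∃ δ : K, δ ≠ 0 ∧ ∃ r, δ ∈ A r ∧ δ * κ ∈ A r

namespace Filt

variable [Algebra ℝ K] (𝓕 : Filt K)

lemma exists_ne : ∃ δ ∈ 𝓕.A 0, δ ≠ 0 := by
  by_contra hcon
  push Not at hcon
  have h : 𝓕.A 0 = ⊥ := by
    rw [Submodule.eq_bot_iff]
    exact hcon
  have h1 := 𝓕.rank 0
  rw [h, finrank_bot] at h1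
  have := 𝓕.D_pos
  omega

/-- both coordinates lie in `A s` -/
def mem2 (s : ℕ) (v : LL K) : Prop := v.re ∈ 𝓕.A s ∧ v.im ∈ 𝓕.A s

lemma mem2.mono {s r : ℕ} (h : s ≤ r) {v : LL K} (hv : 𝓕.mem2 s v) : 𝓕.mem2 r v :=
  ⟨𝓕.mono h hv.1, 𝓕.mono h hv.2⟩

lemma mem2.add {s : ℕ} {v w : LL K} (hv : 𝓕.mem2 s v) (hw : 𝓕.mem2 s w) :
    𝓕.mem2 s (v + w) :=
  ⟨by rw [QuadraticAlgebra.re_add]; exact Submodule.add_mem _ hv.1 hw.1,
    by rw [QuadraticAlgebra.im_add]; exact Submodule.add_mem _ hv.2 hw.2⟩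

lemma mem2.mul {s r : ℕ} {v w : LL K} (hv : 𝓕.mem2 s v) (hw : 𝓕.mem2 r w) :
    𝓕.mem2 (s + r + 𝓕.c) (v * w) := by
  constructor
  · rw [LL_mul_re]
    exact Submodule.sub_mem _ (𝓕.mul _ _ _ _ hv.1 hw.1) (𝓕.mul _ _ _ _ hv.2 hw.2)
  · rw [LL_mul_im]
    exact Submodule.add_mem _ (𝓕.mul _ _ _ _ hv.1 hw.2) (𝓕.mul _ _ _ _ hv.2 hw.1)

lemma mem2.smul {s r : ℕ} {δ : K} {w : LL K} (hδ : δ ∈ 𝓕.A s) (hw : 𝓕.mem2 r w) :
    𝓕.mem2 (s + r + 𝓕.c) (δ • w) := by
  constructor
  · rw [QuadraticAlgebra.re_smul, smul_eq_mul]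
    exact 𝓕.mul _ _ _ _ hδ hw.1
  · rw [QuadraticAlgebra.im_smul, smul_eq_mul]
    exact 𝓕.mul _ _ _ _ hδ hw.2

lemma mem2.star {s : ℕ} {v : LL K} (hv : 𝓕.mem2 s v) : 𝓕.mem2 s (star v) := by
  constructor
  · rw [LL_star_re]; exact hv.1
  · rw [LL_star_im]; exact Submodule.neg_mem _ hv.2

lemma mem2.zero {s : ℕ} : 𝓕.mem2 s 0 :=
  ⟨by rw [QuadraticAlgebra.re_zero]; exact Submodule.zero_mem _,
    by rw [QuadraticAlgebra.im_zero]; exact Submodule.zero_mem _⟩

lemma bound {n : ℕ} {a b : ℕ} {g : (Fin n → LL K) → LL K} (hg : Bih a b g) :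
    ∃ δ : K, δ ≠ 0 ∧ ∃ r, δ ∈ 𝓕.A r ∧ ∀ s, ∀ u : Fin n → LL K, (∀ l, 𝓕.mem2 s (u l)) →
      𝓕.mem2 ((a + b) * s + r) (δ • g u) := by
  obtain ⟨δ0, hδ0, hδ0'⟩ := 𝓕.exists_ne
  induction hg with
  | zero a b =>
    refine ⟨δ0, hδ0', 0, hδ0, fun s u hu => ?_⟩
    rw [smul_zero]
    exact mem2.zero 𝓕
  | const c =>
    obtain ⟨δ1, h1, r1, h1r, h1c⟩ := 𝓕.den c.re
    obtain ⟨δ2, h2, r2, h2r, h2c⟩ := 𝓕.den c.im
    refine ⟨δ1 * δ2, mul_ne_zero h1 h2, r1 + r2 + 𝓕.c, 𝓕.mul _ _ _ _ h1r h2r,
      fun s u hu => ⟨?_, ?_⟩⟩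
    · rw [QuadraticAlgebra.re_smul, smul_eq_mul]
      have e : δ1 * δ2 * c.re = (δ1 * c.re) * δ2 := by ring
      rw [e]
      exact 𝓕.mono (by omega) (𝓕.mul _ _ _ _ h1c h2r)
    · rw [QuadraticAlgebra.im_smul, smul_eq_mul]
      have e : δ1 * δ2 * c.im = δ1 * (δ2 * c.im) := by ring
      rw [e]
      exact 𝓕.mono (by omega) (𝓕.mul _ _ _ _ h1r h2c)
  | var l =>
    refine ⟨δ0, hδ0', 𝓕.c, 𝓕.mono (Nat.zero_le _) hδ0, fun s u hu => ?_⟩
    exact mem2.mono 𝓕 (by omega) (mem2.smul 𝓕 hδ0 (hu l))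
  | cvar l =>
    refine ⟨δ0, hδ0', 𝓕.c, 𝓕.mono (Nat.zero_le _) hδ0, fun s u hu => ?_⟩
    exact mem2.mono 𝓕 (by omega) (mem2.smul 𝓕 hδ0 (mem2.star 𝓕 (hu l)))
  | @add a b g h _ _ ih1 ih2 =>
    obtain ⟨δ1, h1, r1, h1r, h1c⟩ := ih1
    obtain ⟨δ2, h2, r2, h2r, h2c⟩ := ih2
    refine ⟨δ1 * δ2, mul_ne_zero h1 h2, r1 + r2 + 𝓕.c, 𝓕.mul _ _ _ _ h1r h2r,
      fun s u hu => ?_⟩
    have e : (δ1 * δ2) • (g u + h u) = δ2 • (δ1 • g u) + δ1 • (δ2 • h u) := by
      rw [smul_add, smul_smul, smul_smul, mul_comm δ2 δ1]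
    rw [e]
    exact mem2.add 𝓕 (mem2.mono 𝓕 (by omega) (mem2.smul 𝓕 h2r (h1c s u hu)))
      (mem2.mono 𝓕 (by omega) (mem2.smul 𝓕 h1r (h2c s u hu)))
  | @mul a b a' b' g h _ _ ih1 ih2 =>
    obtain ⟨δ1, h1, r1, h1r, h1c⟩ := ih1
    obtain ⟨δ2, h2, r2, h2r, h2c⟩ := ih2
    refine ⟨δ1 * δ2, mul_ne_zero h1 h2, r1 + r2 + 𝓕.c, 𝓕.mul _ _ _ _ h1r h2r,
      fun s u hu => ?_⟩
    have e : (δ1 * δ2) • (g u * h u) = (δ1 • g u) * (δ2 • h u) := by
      rw [smul_mul_smul_comm]
    rw [e]
    refine mem2.mono 𝓕 (le_of_eq ?_) (mem2.mul 𝓕 (h1c s u hu) (h2c s u hu))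
    ring

include 𝓕 in
/-- **Tsen-Lang theorem for Hermitian type polynomials of nonzero weight.** -/
theorem htl {n : ℕ} {κ : Type*} [Fintype κ] (g : κ → (Fin n → LL K) → LL K) (a b : κ → ℕ)
    (hg : ∀ i, Bih (a i) (b i) (g i)) (hab : ∀ i, a i ≠ b i) (hn : ∑ i, (a i + b i) < n) :
    ∃ u : Fin n → LL K, u ≠ 0 ∧ ∀ i, g i u = 0 := by
  classical
  choose δ hδ r hδr hr using fun i => 𝓕.bound (hg i)
  set s := ∑ i, (r i + 1) with hs
  let S : κ → ℕ := fun i => (a i + b i) * s + r i
  have hfin := 𝓕.fin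
  let β := Module.finBasis ℝ (𝓕.A s)
  let γ : ∀ i, Module.Basis (Fin (Module.finrank ℝ (𝓕.A (S i)))) ℝ (𝓕.A (S i)) :=
    fun i => Module.finBasis ℝ (𝓕.A (S i))
  choose ψ hψ using fun (i : κ) (p : Fin (Module.finrank ℝ (𝓕.A (S i)))) =>
    LinearMap.exists_extend ((γ i).coord p)
  have hψ' : ∀ i p (x : K) (hx : x ∈ 𝓕.A (S i)), ψ i p x = (γ i).repr ⟨x, hx⟩ p := by
    intro i p x hx
    have := congrArg (fun f => f ⟨x, hx⟩) (hψ i p)
    simpa using this
  have hψ0 : ∀ i (x : K), x ∈ 𝓕.A (S i) → (∀ p, ψ i p x = 0) → x = 0 := by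
    intro i x hx h
    have h1 : (γ i).repr ⟨x, hx⟩ = 0 := by
      ext p
      rw [← hψ' i p x hx, h]
      rfl
    have h2 : (⟨x, hx⟩ : 𝓕.A (S i)) = 0 := by
      rw [← (γ i).repr.map_eq_zero_iff]
      exact h1
    exact congrArg Subtype.val h2
  let bK : Fin (Module.finrank ℝ (𝓕.A s)) → K := fun q => (β q : K)
  have hbK : LinearIndependent ℝ bK := by
    have := β.linearIndependent.map' (𝓕.A s).subtype (Submodule.ker_subtype _)
    exact this
  have hcard : Fintype.card (Σ i : κ, Fin (Module.finrank ℝ (𝓕.A (S i)))) <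
      Fintype.card (Fin n × Fin (Module.finrank ℝ (𝓕.A s))) := by
    rw [Fintype.card_sigma, Fintype.card_prod, Fintype.card_fin, Fintype.card_fin, 𝓕.rank]
    simp only [Fintype.card_fin, 𝓕.rank]
    rw [← Finset.mul_sum, mul_left_comm]
    apply Nat.mul_lt_mul_of_pos_left _ 𝓕.D_pos
    have e : ∑ i, (S i + 1) = (∑ i, (a i + b i)) * s + s := by
      simp only [S]
      rw [hs, Finset.sum_mul, ← Finset.sum_add_distrib]
      apply Finset.sum_congr rfl
      intro i _
      ring
    rw [e]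
    have h1 : (∑ i, (a i + b i) + 1) * (s + 1) ≤ n * (s + 1) := Nat.mul_le_mul_right _ hn
    have h2 : (∑ i, (a i + b i) + 1) * (s + 1) =
        (∑ i, (a i + b i)) * s + s + (∑ i, (a i + b i) + 1) := by ring
    omega
  obtain ⟨y, hy, h0⟩ := borsuk_ulam_circle hcard
    (fun ip y => fun2 (ψ ip.1 ip.2) (δ ip.1 • g ip.1 (uu bK y)))
    (fun ip => (a ip.1 : ℤ) - b ip.1) (by
      intro ip
      have h1 : Nice (fun y : Fin n × Fin (Module.finrank ℝ (𝓕.A s)) → ℂ =>
          algebraMap K (LL K) (δ ip.1) * g ip.1 (uu bK y)) :=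
        Nice.mul (Nice.const _) ((hg ip.1).nice bK)
      have h2 := h1.continuous (ψ ip.1 ip.2)
      simpa only [← Algebra.smul_def] using h2) (by
      intro ip h
      apply hab ip.1
      have : (a ip.1 : ℤ) = b ip.1 := by linarith
      exact_mod_cast this) (by
      intro ip v ζ hζ
      have e1 : (uu bK fun l => ζ * v l) = fun l => cc ζ * uu bK v l := by
        funext l
        unfold uu
        rw [Finset.mul_sum]
        apply Finset.sum_congr rfl
        intro q _
        rw [map_mul]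
        ring
      rw [e1, (hg ip.1).scale, ← mul_smul_comm, fun2_cc]
      congr 1
      have hζ0 : ζ ≠ 0 := by
        intro h
        rw [h, norm_zero] at hζ
        exact zero_ne_one hζ
      rw [zpow_sub₀ hζ0, zpow_natCast, zpow_natCast, ← Complex.inv_eq_conj hζ, inv_pow]
      rfl)
  refine ⟨uu bK y, ?_, ?_⟩
  · intro hu
    apply hy
    funext ⟨l, q⟩
    have h1 := congrFun hu l
    have hre : ∑ q, (y (l, q)).re • bK q = 0 := by
      have := congrArg QuadraticAlgebra.re h1
      unfold uu at this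
      have e : ∀ (t : Finset (Fin (Module.finrank ℝ (𝓕.A s)))),
          (∑ q ∈ t, cc (y (l, q)) * algebraMap K (LL K) (bK q)).re =
          ∑ q ∈ t, (y (l, q)).re • bK q := by
        intro t
        induction t using Finset.induction_on with
        | empty => simp
        | insert q t hq ih =>
          rw [Finset.sum_insert hq, Finset.sum_insert hq, QuadraticAlgebra.re_add, ih, LL_mul_re]
          simp [cc_re, Algebra.smul_def]
      rw [e] at this
      simpa using this
    have him : ∑ q, (y (l, q)).im • bK q = 0 := by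
      have := congrArg QuadraticAlgebra.im h1
      unfold uu at this
      have e : ∀ (t : Finset (Fin (Module.finrank ℝ (𝓕.A s)))),
          (∑ q ∈ t, cc (y (l, q)) * algebraMap K (LL K) (bK q)).im =
          ∑ q ∈ t, (y (l, q)).im • bK q := by
        intro t
        induction t using Finset.induction_on with
        | empty => simp
        | insert q t hq ih =>
          rw [Finset.sum_insert hq, Finset.sum_insert hq, QuadraticAlgebra.im_add, ih, LL_mul_im]
          simp [cc_im, Algebra.smul_def]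
      rw [e] at this
      simpa using this
    rw [Fintype.linearIndependent_iff] at hbK
    have h2 := hbK _ hre q
    have h3 := hbK _ him q
    exact Complex.ext h2 h3
  · intro i
    have hmem : ∀ l, 𝓕.mem2 s (uu bK y l) := by
      intro l
      have e : ∀ (t : Finset (Fin (Module.finrank ℝ (𝓕.A s)))),
          𝓕.mem2 s (∑ q ∈ t, cc (y (l, q)) * algebraMap K (LL K) (bK q)) := by
        intro t
        induction t using Finset.induction_on with
        | empty => simpa using mem2.zero 𝓕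
        | insert q t hq ih =>
          rw [Finset.sum_insert hq]
          apply mem2.add 𝓕 _ ih
          constructor
          · rw [LL_mul_re]
            simp only [cc_re, cc_im, QuadraticAlgebra.algebraMap_re, QuadraticAlgebra.algebraMap_im,
              mul_zero, sub_zero]
            rw [← Algebra.smul_def]
            exact Submodule.smul_mem _ _ (β q).2
          · rw [LL_mul_im]
            simp only [cc_re, cc_im, QuadraticAlgebra.algebraMap_re, QuadraticAlgebra.algebraMap_im,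
              mul_zero, zero_add]
            rw [← Algebra.smul_def]
            exact Submodule.smul_mem _ _ (β q).2
      exact e Finset.univ
    have h1 := hr i s (uu bK y) hmem
    have h2 : δ i • g i (uu bK y) = 0 := by
      apply QuadraticAlgebra.ext
      · rw [QuadraticAlgebra.re_zero]
        apply hψ0 i _ h1.1
        intro p
        have := congrArg Complex.re (h0 ⟨i, p⟩)
        exact this
      · rw [QuadraticAlgebra.im_zero]
        apply hψ0 i _ h1.2
        intro p
        have := congrArg Complex.im (h0 ⟨i, p⟩)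
        exact this
    rcases smul_eq_zero.1 h2 with h3 | h3
    · exact absurd h3 (hδ i)
    · exact h3

end Filt

end Pool.Agent.Work.MP_638b00_ag
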