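import Pool.Agent.Work.MP_638b00_ag.Final

/-!
# The Hermitian Tsen-Lang theorem for polynomials
-/

set_option linter.unusedVariables false
set_option linter.unusedSectionVars false

namespace Pool.Agent.Work.MP_638b00_ag

open Finset MvPolynomial

variable {K : Type*} [Field K]

lemma Bih.prod {n : ℕ} {σ : Type*} (s : Finset σ) (a b : σ → ℕ)
    (f : σ → (Fin n → LL K) → LL K) (h : ∀ i ∈ s, Bih (a i) (b i) (f i)) :
    Bih (∑ i ∈ s, a i) (∑ i ∈ s, b i) (fun u => ∏ i ∈ s, f i u) := by
  classical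
  induction s using Finset.induction_on with
  | empty => exact (Bih.const (K := K) (n := n) 1).congr (by simp) (by simp) (by funext u; simp)
  | insert i s hi ih =>
    have h1 := Bih.mul (h i (Finset.mem_insert_self _ _))
      (ih fun l hl => h l (Finset.mem_insert_of_mem hl))
    exact h1.congr (by rw [Finset.sum_insert hi]) (by rw [Finset.sum_insert hi])
      (by funext u; rw [Finset.prod_insert hi])

/-- a bihomogeneous polynomial in the variables and their conjugates gives a bihomogeneous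
function -/
lemma Bih.of_poly {n : ℕ} (g : MvPolynomial (Fin n ⊕ Fin n) (LL K)) (a b : ℕ)
    (hg : g.IsWeightedHomogeneous (Sum.elim (fun _ => ((1 : ℕ), (0 : ℕ))) (fun _ => (0, 1)))
      (a, b)) :
    Bih a b (fun u : Fin n → LL K => eval (Sum.elim u (fun l => star (u l))) g) := by
  classical
  have h : Bih a b (fun u : Fin n → LL K => ∑ μ ∈ g.support, coeff μ g *
      ((∏ l, u l ^ μ (Sum.inl l)) * ∏ l, star (u l) ^ μ (Sum.inr l))) := by
    apply Bih.sum
    intro μ hμ
    have hw := hg (mem_support_iff.1 hμ)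
    rw [Finsupp.weight_apply, Finsupp.sum_fintype _ _ (by simp), Fintype.sum_sum_type] at hw
    have ha : ∑ l, μ (Sum.inl l) = a := by
      have := congrArg Prod.fst hw
      simpa [Prod.fst_sum] using this
    have hb : ∑ l, μ (Sum.inr l) = b := by
      have := congrArg Prod.snd hw
      simpa [Prod.snd_sum] using this
    have h1 : Bih (∑ l, μ (Sum.inl l)) (∑ _l : Fin n, 0)
        (fun u : Fin n → LL K => ∏ l, u l ^ μ (Sum.inl l)) := by
      apply Bih.prod Finset.univ (fun l => μ (Sum.inl l)) (fun _ => 0)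
        (fun l u => u l ^ μ (Sum.inl l))
      intro l _
      exact ((Bih.var (K := K) l).pow (μ (Sum.inl l))).congr (by ring) (by ring) rfl
    have h2 : Bih (∑ _l : Fin n, 0) (∑ l, μ (Sum.inr l))
        (fun u : Fin n → LL K => ∏ l, star (u l) ^ μ (Sum.inr l)) := by
      apply Bih.prod Finset.univ (fun _ => 0) (fun l => μ (Sum.inr l))
        (fun l u => star (u l) ^ μ (Sum.inr l))
      intro l _
      exact ((Bih.cvar (K := K) l).pow (μ (Sum.inr l))).congr (by ring) (by ring) rfl
    exact (Bih.mul (Bih.const (coeff μ g)) (Bih.mul h1 h2)).congr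
      (by rw [ha]; simp) (by rw [hb]; simp) rfl
  refine h.congr rfl rfl ?_
  funext u
  rw [eval_eq']
  apply Finset.sum_congr rfl
  intro μ _
  rw [Fintype.prod_sum_type]
  rfl

/-- **Hermitian Tsen-Lang theorem.** -/
theorem hermitian_tsen_lang (K : Type*) [Field K] [Algebra ℝ K]
    (hfg : (⊤ : IntermediateField ℝ K).FG) (htr : Algebra.trdeg ℝ K = 1) (m n : ℕ)
    (g : Fin m → MvPolynomial (Fin n ⊕ Fin n) (QuadraticAlgebra K (-1) 0)) (a b : Fin m → ℕ)
    (hg : ∀ i, (g i).IsWeightedHomogeneous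
      (Sum.elim (fun _ => ((1 : ℕ), (0 : ℕ))) (fun _ => (0, 1))) (a i, b i))
    (hab : ∀ i, a i ≠ b i) (hn : ∑ i, (a i + b i) < n) :
    ∃ u : Fin n → QuadraticAlgebra K (-1) 0, u ≠ 0 ∧
      ∀ i, MvPolynomial.eval (Sum.elim u (fun l => star (u l))) (g i) = 0 := by
  obtain ⟨𝓕⟩ := filt_of_trdeg K hfg htr
  exact 𝓕.htl (fun i u => eval (Sum.elim u (fun l => star (u l))) (g i)) a b
    (fun i => Bih.of_poly (g i) (a i) (b i) (hg i)) hab hn

end Pool.Agent.Work.MP_638b00_ag
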