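import Pool.Agent.Work.MP_638b00_ag.Expand
import Pool.Agent.Work.MP_638b00_ag.FiltEx

/-!
# Forms in many variables over nonreal function fields of one variable over the reals
-/

set_option linter.unusedVariables false
set_option linter.unusedSectionVars false

namespace Pool.Agent.Work.MP_638b00_ag

open Finset MvPolynomial

variable {K : Type*} [Field K]

/-- the part of a polynomial in norms: `c` is the real or the imaginary part -/
noncomputable def half {k : ℕ} (c : LL K → K) (P : MvPolynomial (Tau k) (LL K)) :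
    MvPolynomial (Fin k) K :=
  ∑ μ ∈ P.support, monomial (Finsupp.equivFunOnFinite.symm fun j => μ (Sum.inl j)) (c (coeff μ P))

/-- symmetric exponents -/
def Sym {k : ℕ} (P : MvPolynomial (Tau k) (LL K)) : Prop :=
  ∀ μ : Tau k →₀ ℕ, coeff μ P ≠ 0 → ∀ j, μ (Sum.inl j) = μ (Sum.inr j)

lemma half_hom {k : ℕ} (c : LL K → K) (P : MvPolynomial (Tau k) (LL K)) (hs : Sym P) {d : ℕ}
    (hd : 0 < d) (hP : P.IsHomogeneous d) :
    half c P = 0 ∨ ∃ e, 0 < e ∧ e ≤ d / 2 ∧ (half c P).IsHomogeneous e := by
  by_cases h0 : P.support = ∅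
  · left
    unfold half
    rw [h0, Finset.sum_empty]
  · right
    have key : ∀ μ ∈ P.support, 2 * ∑ j, μ (Sum.inl j) = d := by
      intro μ hμ
      have h1 : coeff μ P ≠ 0 := mem_support_iff.1 hμ
      have h2 := hP h1
      have h3 := hs μ h1
      have h4 : Finsupp.weight 1 μ = ∑ j, μ (Sum.inl j) + ∑ j, μ (Sum.inr j) := by
        rw [Finsupp.weight_apply, Finsupp.sum_fintype _ _ (by simp), Fintype.sum_sum_type]
        simp
      rw [h4] at h2
      have h5 : ∑ j, μ (Sum.inr j) = ∑ j, μ (Sum.inl j) :=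
        Finset.sum_congr rfl fun j _ => (h3 j).symm
      omega
    obtain ⟨μ0, hμ0⟩ := Finset.nonempty_iff_ne_empty.2 h0
    have h1 := key μ0 hμ0
    refine ⟨d / 2, by omega, le_rfl, ?_⟩
    unfold half
    apply IsHomogeneous.sum
    intro μ hμ
    apply isHomogeneous_monomial
    have h2 := key μ hμ
    rw [Finsupp.degree_eq_sum]
    simp only [Finsupp.equivFunOnFinite_symm_apply_apply]
    omega

lemma eval_half {k : ℕ} (P : MvPolynomial (Tau k) (LL K)) (hs : Sym P) (z : Fin k → K)
    (lam : Fin k → LL K) (hz : ∀ j, lam j * star (lam j) = algebraMap K (LL K) (z j))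
    (h1 : eval z (half QuadraticAlgebra.re P) = 0) (h2 : eval z (half QuadraticAlgebra.im P) = 0) :
    eval (Sum.elim lam (fun j => star (lam j))) P = 0 := by
  have key : ∀ μ ∈ P.support, ∏ i : Tau k, (Sum.elim lam (fun j => star (lam j))) i ^ μ i =
      algebraMap K (LL K) (∏ j, z j ^ μ (Sum.inl j)) := by
    intro μ hμ
    have h3 := hs μ (mem_support_iff.1 hμ)
    rw [Fintype.prod_sum_type, ← Finset.prod_mul_distrib, map_prod]
    apply Finset.prod_congr rfl
    intro j _
    rw [Sum.elim_inl, Sum.elim_inr, ← h3 j, ← mul_pow, hz, map_pow]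
  have e1 : eval (Sum.elim lam (fun j => star (lam j))) P =
      ∑ μ ∈ P.support, coeff μ P * algebraMap K (LL K) (∏ j, z j ^ μ (Sum.inl j)) := by
    rw [eval_eq']
    apply Finset.sum_congr rfl
    intro μ hμ
    rw [key μ hμ]
  have e2 : ∀ c : LL K → K, eval z (half c P) =
      ∑ μ ∈ P.support, c (coeff μ P) * ∏ j, z j ^ μ (Sum.inl j) := by
    intro c
    unfold half
    rw [map_sum]
    apply Finset.sum_congr rfl
    intro μ _
    rw [eval_monomial, Finsupp.prod_fintype _ _ (by simp)]
    simp
  rw [e2] at h1 h2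
  have hre : ∀ (s : Finset (Tau k →₀ ℕ)) (f : (Tau k →₀ ℕ) → LL K),
      (∑ μ ∈ s, f μ).re = ∑ μ ∈ s, (f μ).re := by
    classical
    intro s f
    induction s using Finset.induction_on with
    | empty => simp
    | insert a s ha ih => rw [Finset.sum_insert ha, Finset.sum_insert ha,
        QuadraticAlgebra.re_add, ih]
  have him : ∀ (s : Finset (Tau k →₀ ℕ)) (f : (Tau k →₀ ℕ) → LL K),
      (∑ μ ∈ s, f μ).im = ∑ μ ∈ s, (f μ).im := by
    classical
    intro s f
    induction s using Finset.induction_on with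
    | empty => simp
    | insert a s ha ih => rw [Finset.sum_insert ha, Finset.sum_insert ha,
        QuadraticAlgebra.im_add, ih]
  rw [e1]
  apply QuadraticAlgebra.ext
  · rw [hre, QuadraticAlgebra.re_zero]
    refine (Finset.sum_congr rfl ?_).trans h1
    intro μ _
    rw [LL_mul_re, QuadraticAlgebra.algebraMap_re, QuadraticAlgebra.algebraMap_im]
    ring
  · rw [him, QuadraticAlgebra.im_zero]
    refine (Finset.sum_congr rfl ?_).trans h2
    intro μ _
    rw [LL_mul_im, QuadraticAlgebra.algebraMap_re, QuadraticAlgebra.algebraMap_im]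
    ring

/-- uniqueness of digits -/
lemma digits {B : ℕ} (k : ℕ) (a b : Fin k → ℕ) (ha : ∀ j, a j < B) (hb : ∀ j, b j < B)
    (h : ∑ j : Fin k, B ^ (j : ℕ) * a j = ∑ j : Fin k, B ^ (j : ℕ) * b j) : a = b := by
  induction k with
  | zero => exact Subsingleton.elim _ _
  | succ k ih =>
    rw [Fin.sum_univ_succ, Fin.sum_univ_succ] at h
    have e : ∀ c : Fin (k + 1) → ℕ, ∑ j : Fin k, B ^ ((j.succ : Fin (k + 1)) : ℕ) * c j.succ =
        B * ∑ j : Fin k, B ^ (j : ℕ) * c j.succ := by
      intro c
      rw [Finset.mul_sum]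
      apply Finset.sum_congr rfl
      intro j _
      rw [Fin.val_succ, pow_succ]
      ring
    rw [e, e] at h
    simp only [Fin.val_zero, pow_zero, one_mul] at h
    have hB : 0 < B := (Nat.zero_le _).trans_lt (ha 0)
    have h0 : a 0 = b 0 := by
      have h1 := congrArg (· % B) h
      simp only [Nat.add_mul_mod_self_left] at h1
      rwa [Nat.mod_eq_of_lt (ha 0), Nat.mod_eq_of_lt (hb 0)] at h1
    have h2 : ∑ j : Fin k, B ^ (j : ℕ) * a j.succ = ∑ j : Fin k, B ^ (j : ℕ) * b j.succ := by
      rw [h0] at h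
      exact Nat.eq_of_mul_eq_mul_left hB (Nat.add_left_cancel h)
    have h3 := ih (fun j => a j.succ) (fun j => b j.succ) (fun j => ha _) (fun j => hb _) h2
    funext j
    refine Fin.cases h0 (fun j => ?_) j
    exact congrFun h3 j

/-- every system of at most `r` forms of degrees at most `D` in `n` variables has a nontrivial
zero -/
def Solv (K : Type*) [Field K] (r D n : ℕ) : Prop :=
  ∀ (ι : Type) [Fintype ι], Fintype.card ι ≤ r → ∀ f : ι → MvPolynomial (Fin n) K,
    (∀ i, f i = 0 ∨ ∃ d, 0 < d ∧ d ≤ D ∧ (f i).IsHomogeneous d) →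
      ∃ x : Fin n → K, x ≠ 0 ∧ ∀ i, eval x (f i) = 0

lemma solv_zero (K : Type*) [Field K] (r n : ℕ) (hn : 1 ≤ n) : Solv K r 0 n := by
  intro ι _ _ f hf
  refine ⟨fun _ => 1, ?_, ?_⟩
  · intro h
    have := congrFun h ⟨0, by omega⟩
    exact one_ne_zero this
  · intro i
    rcases hf i with h | ⟨d, h1, h2, _⟩
    · rw [h, map_zero]
    · omega

/-- the inductive step -/
lemma solv_step [Algebra ℝ K] (𝓕 : Filt K) (hS : ∀ z : K, S2 z) {r D k n : ℕ} (hk : 0 < k)
    (h : Solv K (2 * r) (D / 2) k)
    (hn : r * (D + 1) ^ (2 * k) * (2 * (k * ((D + 1) ^ k * D))) < n) : Solv K r D n := by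
  classical
  intro ι _ hι f hf
  set w : Fin k → ℕ := fun j => (D + 1) ^ (j : ℕ) with hw
  -- the conditions
  let Q : Type := {ν : Tau k → Fin (D + 1) // ∃ j, ν (Sum.inl j) ≠ ν (Sum.inr j)}
  let μ : Q → (Tau k →₀ ℕ) := fun ν => Finsupp.equivFunOnFinite.symm fun i => (ν.1 i : ℕ)
  have hμ : ∀ (ν : Q) i, μ ν i = (ν.1 i : ℕ) := fun ν i => rfl
  have hwle : ∀ j : Fin k, w j ≤ (D + 1) ^ k := fun j =>
    Nat.pow_le_pow_right (by omega) j.2.le
  have hcount : ∑ x : ι × Q, (wA w (μ x.2) + wB w (μ x.2)) < n := by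
    refine lt_of_le_of_lt ?_ hn
    have h1 : ∀ x : ι × Q, wA w (μ x.2) + wB w (μ x.2) ≤ 2 * (k * ((D + 1) ^ k * D)) := by
      intro x
      have h2 : wA w (μ x.2) ≤ k * ((D + 1) ^ k * D) := by
        unfold wA
        calc ∑ j, w j * (μ x.2) (Sum.inl j) ≤ ∑ _j : Fin k, (D + 1) ^ k * D := by
              apply Finset.sum_le_sum
              intro j _
              apply Nat.mul_le_mul (hwle j)
              rw [hμ]
              have := (x.2.1 (Sum.inl j)).2
              omega
          _ = _ := by simp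
      have h3 : wB w (μ x.2) ≤ k * ((D + 1) ^ k * D) := by
        unfold wB
        calc ∑ j, w j * (μ x.2) (Sum.inr j) ≤ ∑ _j : Fin k, (D + 1) ^ k * D := by
              apply Finset.sum_le_sum
              intro j _
              apply Nat.mul_le_mul (hwle j)
              rw [hμ]
              have := (x.2.1 (Sum.inr j)).2
              omega
          _ = _ := by simp
      omega
    calc ∑ x : ι × Q, (wA w (μ x.2) + wB w (μ x.2))
        ≤ ∑ _x : ι × Q, 2 * (k * ((D + 1) ^ k * D)) := Finset.sum_le_sum fun x _ => h1 x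
      _ = Fintype.card (ι × Q) * (2 * (k * ((D + 1) ^ k * D))) := by simp
      _ ≤ _ := by
          apply Nat.mul_le_mul_right
          rw [Fintype.card_prod]
          apply Nat.mul_le_mul hι
          refine (Fintype.card_subtype_le _).trans ?_
          rw [Fintype.card_fun, Fintype.card_fin, Fintype.card_sum, Fintype.card_fin]
          apply le_of_eq
          congr 1
          omega
  obtain ⟨u, hu, hu0⟩ := 𝓕.htl (fun (x : ι × Q) u => coeff (μ x.2) (PP w (f x.1) u))
    (fun x => wA w (μ x.2)) (fun x => wB w (μ x.2)) (fun x => Good.PP w (f x.1) (μ x.2)) (by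
      intro x hx
      obtain ⟨j, hj⟩ := x.2.2
      apply hj
      have h1 := digits k (fun j => μ x.2 (Sum.inl j)) (fun j => μ x.2 (Sum.inr j))
        (fun j => (x.2.1 (Sum.inl j)).2) (fun j => (x.2.1 (Sum.inr j)).2) hx
      exact Fin.ext (congrFun h1 j)) hcount
  obtain ⟨l0, hl0⟩ : ∃ l, u l ≠ 0 := by
    by_contra hcon
    push Not at hcon
    exact hu (funext hcon)
  have hsym : ∀ i, Sym (PP w (f i) u) := by
    intro i ν hν j
    by_contra hcon
    rcases hf i with h1 | ⟨d, h1, h2, h3⟩
    · apply hν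
      rw [h1]
      simp [PP]
    · have h4 := PP_hom w h3 u hν
      have h5 : ∀ t : Tau k, ν t < D + 1 := by
        intro t
        have h6 : ν t ≤ Finsupp.weight 1 ν := by
          rw [Finsupp.weight_apply, Finsupp.sum_fintype _ _ (by simp)]
          simp only [Pi.one_apply, smul_eq_mul, mul_one]
          exact Finset.single_le_sum (f := fun t => ν t) (fun _ _ => Nat.zero_le _)
            (Finset.mem_univ t)
        omega
      have h7 := hu0 (i, ⟨fun t => ⟨ν t, h5 t⟩, j, fun h8 => hcon (by
        have := congrArg Fin.val h8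
        exact this)⟩)
      apply hν
      rw [← h7]
      congr 1
      exact Finsupp.ext fun t => rfl
  -- the system of half degree
  obtain ⟨z, hz, hz0⟩ := h (ι ⊕ ι) (by rw [Fintype.card_sum]; omega)
    (Sum.elim (fun i => half QuadraticAlgebra.re (PP w (f i) u))
      (fun i => half QuadraticAlgebra.im (PP w (f i) u))) (by
      have key : ∀ (c : LL K → K), c 0 = 0 → ∀ i, half c (PP w (f i) u) = 0 ∨
          ∃ d, 0 < d ∧ d ≤ D / 2 ∧ (half c (PP w (f i) u)).IsHomogeneous d := by
        intro c hc i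
        rcases hf i with h1 | ⟨d, h1, h2, h3⟩
        · left
          unfold half
          rw [h1]
          simp [PP]
        · rcases half_hom c _ (hsym i) h1 (PP_hom w h3 u) with h4 | ⟨e, h4, h5, h6⟩
          · exact Or.inl h4
          · exact Or.inr ⟨e, h4, h5.trans (Nat.div_le_div_right h2), h6⟩
      rintro (i | i)
      · exact key _ (by simp) i
      · exact key _ (by simp) i)
  have hre : ∀ i, eval z (half QuadraticAlgebra.re (PP w (f i) u)) = 0 := fun i => hz0 (Sum.inl i)
  have him : ∀ i, eval z (half QuadraticAlgebra.im (PP w (f i) u)) = 0 := fun i => hz0 (Sum.inr i)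
  obtain ⟨j0, hj0⟩ : ∃ j, z j ≠ 0 := by
    by_contra hcon
    push Not at hcon
    exact hz (funext hcon)
  choose xx yy hxy using fun j => hS (z j)
  let lam0 : Fin k → LL K := fun j => ⟨xx j, yy j⟩
  have hlam0 : ∀ j, lam0 j * star (lam0 j) = algebraMap K (LL K) (z j) := by
    intro j
    apply QuadraticAlgebra.ext
    · rw [LL_mul_re, LL_star_re, LL_star_im, QuadraticAlgebra.algebraMap_re, hxy]
      ring
    · rw [LL_mul_im, LL_star_re, LL_star_im, QuadraticAlgebra.algebraMap_im]
      ring
  -- the vector attached to a choice of the `λ_j`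
  let vec : (Fin k → LL K) → Fin n → K := fun lam l => 2 * (∑ j, lam j * u l ^ w j).re
  have hstar : ∀ v : LL K, v + star v = algebraMap K (LL K) (2 * v.re) := by
    intro v
    apply QuadraticAlgebra.ext
    · rw [QuadraticAlgebra.re_add, LL_star_re, QuadraticAlgebra.algebraMap_re]
      ring
    · rw [QuadraticAlgebra.im_add, LL_star_im, QuadraticAlgebra.algebraMap_im]
      ring
  have hvec : ∀ (lam : Fin k → LL K),
      (∀ j, lam j * star (lam j) = algebraMap K (LL K) (z j)) →
      ∀ i, eval (vec lam) (f i) = 0 := by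
    intro lam hlam i
    have h1 : ∀ l, algebraMap K (LL K) (vec lam l) =
        ∑ j, (lam j * u l ^ w j + star (lam j) * star (u l) ^ w j) := by
      intro l
      rw [Finset.sum_add_distrib, ← hstar]
      congr 1
      rw [star_sum]
      apply Finset.sum_congr rfl
      intro j _
      rw [star_mul', star_pow]
    have h2 := eval_PP w (f i) u lam (vec lam) h1
    rw [eval_half _ (hsym i) z lam hlam (hre i) (him i)] at h2
    exact (QuadraticAlgebra.algebraMap_injective (a := (-1 : K)) (b := 0)
      (by rw [map_zero]; exact h2)).symm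
  -- a nonzero vector
  by_contra hcon
  push Not at hcon
  have hall : ∀ (lam : Fin k → LL K),
      (∀ j, lam j * star (lam j) = algebraMap K (LL K) (z j)) → vec lam = 0 := by
    intro lam hlam
    by_contra h1
    obtain ⟨i, hi⟩ := hcon (vec lam) h1
    exact hi (hvec lam hlam i)
  have htwo := two_ne K
  -- multiply one of the `λ_j` by a unit of norm one
  have hunit : ∀ ε : LL K, ε * star ε = 1 → (ε * (lam0 j0 * u l0 ^ w j0)).re = 0 := by
    intro ε hε
    have h1 : ∀ δ : LL K, δ * star δ = 1 →
        vec (Function.update lam0 j0 (δ * lam0 j0)) = 0 := by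
      intro δ hδ
      apply hall
      intro j
      by_cases hj : j = j0
      · subst hj
        rw [Function.update_self, star_mul', ← hlam0 j]
        have : δ * lam0 j * (star δ * star (lam0 j)) = (δ * star δ) * (lam0 j * star (lam0 j)) := by
          ring
        rw [this, hδ, one_mul]
      · rw [Function.update_of_ne hj]
        exact hlam0 j
    have h2 : ∀ δ : LL K, ∑ j, Function.update lam0 j0 (δ * lam0 j0) j * u l0 ^ w j =
        δ * (lam0 j0 * u l0 ^ w j0) + ∑ j ∈ Finset.univ.erase j0, lam0 j * u l0 ^ w j := by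
      intro δ
      rw [← Finset.add_sum_erase _ _ (Finset.mem_univ j0), Function.update_self]
      congr 1
      · ring
      · apply Finset.sum_congr rfl
        intro j hj
        rw [Function.update_of_ne (Finset.ne_of_mem_erase hj)]
    have h3 := congrFun (h1 ε hε) l0
    have h4 := congrFun (h1 (-ε) (by rw [star_neg]; rw [neg_mul_neg]; exact hε)) l0
    simp only [vec, h2, Pi.zero_apply] at h3 h4
    rw [QuadraticAlgebra.re_add] at h3 h4
    rw [neg_mul, QuadraticAlgebra.re_neg] at h4
    have h5 : 2 * (2 * (ε * (lam0 j0 * u l0 ^ w j0)).re) = 0 := by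
      linear_combination h3 - h4
    exact (mul_eq_zero.1 ((mul_eq_zero.1 h5).resolve_left htwo)).resolve_left htwo
  have h1 := hunit 1 (by simp)
  have h2 := hunit ⟨0, 1⟩ (by
    apply QuadraticAlgebra.ext
    · rw [LL_mul_re, LL_star_re, LL_star_im, QuadraticAlgebra.re_one]
      ring
    · rw [LL_mul_im, LL_star_re, LL_star_im, QuadraticAlgebra.im_one]
      ring)
  rw [one_mul] at h1
  rw [LL_mul_re] at h2
  have h3 : (lam0 j0 * u l0 ^ w j0).im = 0 := by
    linear_combination -h2
  have h4 : lam0 j0 * u l0 ^ w j0 = 0 := QuadraticAlgebra.ext h1 h3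
  have h5 : u l0 ^ w j0 = 0 := by
    have h6 : (star (lam0 j0) * lam0 j0) * u l0 ^ w j0 = 0 := by
      rw [mul_assoc, h4, mul_zero]
    rw [mul_comm (star (lam0 j0)), hlam0, ← Algebra.smul_def] at h6
    exact (smul_eq_zero.1 h6).resolve_left hj0
  have hred : ∀ v : LL K, v * v = 0 → v = 0 := by
    intro v hv
    have e1 := congrArg QuadraticAlgebra.re hv
    have e2 := congrArg QuadraticAlgebra.im hv
    rw [LL_mul_re, QuadraticAlgebra.re_zero] at e1
    rw [LL_mul_im, QuadraticAlgebra.im_zero] at e2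
    have e3 : v.re * v.im = 0 := by
      have : 2 * (v.re * v.im) = 0 := by linear_combination e2
      exact (mul_eq_zero.1 this).resolve_left htwo
    rcases mul_eq_zero.1 e3 with h6 | h6
    · rw [h6] at e1
      have : v.im * v.im = 0 := by linear_combination -e1
      exact QuadraticAlgebra.ext h6 (mul_self_eq_zero.1 this)
    · rw [h6] at e1
      have : v.re * v.re = 0 := by linear_combination e1
      exact QuadraticAlgebra.ext (mul_self_eq_zero.1 this) h6
  have hpow : ∀ m : ℕ, u l0 ^ (m + 1) ≠ 0 := by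
    intro m
    have hnil : ∀ N : ℕ, ∀ v : LL K, v ^ N = 0 → N ≠ 0 → v = 0 := by
      intro N
      induction N using Nat.strong_induction_on with
      | _ N ih =>
        intro v hv hN
        by_cases h7 : N = 1
        · subst h7
          simpa using hv
        · have h8 : v ^ ((N + 1) / 2) * v ^ ((N + 1) / 2) = 0 := by
            rw [← pow_add]
            have h9 : (N + 1) / 2 + (N + 1) / 2 = N + ((N + 1) / 2 + (N + 1) / 2 - N) := by omega
            rw [h9, pow_add, hv, zero_mul]
          exact ih ((N + 1) / 2) (by omega) v (hred _ h8) (by omega)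
    intro h7
    exact hl0 (hnil _ _ h7 (by omega))
  have hwpos : w j0 ≠ 0 := by
    simp only [hw]
    positivity
  obtain ⟨m, hm⟩ := Nat.exists_eq_succ_of_ne_zero hwpos
  rw [hm] at h5
  exact hpow m h5

/-- **Main theorem**, with the filtration as hypothesis -/
theorem main_filt (D : ℕ) : ∀ r : ℕ, ∃ N : ℕ, ∀ (K : Type*) [Field K] [Algebra ℝ K] (𝓕 : Filt K)
    (hS : ∀ z : K, S2 z), ∀ n, N ≤ n → Solv K r D n := by
  induction D using Nat.strong_induction_on with
  | _ D ih =>
    intro r
    by_cases hD : D = 0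
    · subst hD
      exact ⟨1, fun K _ _ _ _ n hn => solv_zero K r n hn⟩
    · obtain ⟨N, hN⟩ := ih (D / 2) (by omega) (2 * r)
      refine ⟨r * (D + 1) ^ (2 * (N + 1)) * (2 * ((N + 1) * ((D + 1) ^ (N + 1) * D))) + 1,
        fun K _ _ 𝓕 hS n hn => ?_⟩
      exact solv_step (k := N + 1) 𝓕 hS (Nat.succ_pos N) (hN K 𝓕 hS (N + 1) (Nat.le_succ N))
        (Nat.lt_of_succ_le hn)

end Pool.Agent.Work.MP_638b00_ag
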