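import Pool.Agent.Work.MP_638b00_ag.BU

/-!
# The prism operator, and faces of all radii

Used for a relative version of the Borsuk-Ulam theorem for the circle group.
-/

set_option linter.unusedVariables false
set_option linter.unusedSectionVars false

namespace Pool.Agent.Work.MP_638b00_ag

open Finset Metric

section prism

variable {V R : Type*} [CommRing R]

/-- the prism operator of a self-map -/
def prism (φ : V → V) : (n : ℕ) → Coch V R (n + 1) →ₗ[R] Coch V R n
  | 0 => 0
  | n + 1 =>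
    { toFun := fun c => fun σ =>
        c (Fin.cons (σ 0) (Fin.cons (φ (σ 0)) (fun i => φ ((Fin.tail σ : Fin n → V) i)))) -
          prism φ n (ins (σ 0) c) (Fin.tail σ)
      map_add' := fun c c' => by
        ext σ
        simp only [map_add, Pi.add_apply]
        ring
      map_smul' := fun r c => by
        ext σ
        simp only [map_smul, Pi.smul_apply, RingHom.id_apply, smul_eq_mul]
        ring }

lemma prism_succ (φ : V → V) {n : ℕ} (c : Coch V R (n + 2)) (σ : Fin (n + 1) → V) :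
    prism φ (n + 1) c σ =
      c (Fin.cons (σ 0) (Fin.cons (φ (σ 0)) (fun i => φ ((Fin.tail σ : Fin n → V) i)))) -
          prism φ n (ins (σ 0) c) (Fin.tail σ) := rfl

lemma ins_prism (φ : V → V) {n : ℕ} (c : Coch V R (n + 2)) (a : V) :
    ins a (prism φ (n + 1) c) =
      act φ (ins (φ a) (ins a c)) - prism φ n (ins a c) := by
  ext τ
  rw [ins_apply, prism_succ, Pi.sub_apply, act_apply, ins_apply, ins_apply]
  simp only [Fin.cons_zero, Fin.tail_cons]

lemma act_coch_zero (φ : V → V) (c : Coch V R 0) : act φ c = c := by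
  ext σ
  rw [act_apply]
  exact coch_zero c _ _

lemma prism_homotopy (φ : V → V) (n : ℕ) (c : Coch V R (n + 1)) :
    dl (prism φ n c) + prism φ (n + 1) (dl c) = act φ c - c := by
  induction n with
  | zero =>
    have h0 : dl (prism φ 0 c) = 0 := (congrArg dl (rfl : prism φ 0 c = 0)).trans (map_zero _)
    refine (congrArg (fun x => x + prism φ (0 + 1) (dl c)) h0).trans ?_
    refine (zero_add (prism φ (0 + 1) (dl c))).trans ?_
    apply ext_ins
    intro a
    have h1 : ∀ c' : Coch V R 1, prism φ 0 c' = 0 := fun _ => rfl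
    have h2 : ins a (dl c) = c - dl (ins a c) := ins_dl (n := 0) a c
    have h3 : ins (φ a) (dl (ins a c)) = ins a c := ins_dl_zero (φ a) (ins a c)
    have h4 : ins a (prism φ (0 + 1) (dl c)) =
        act φ (ins (φ a) (ins a (dl c))) - prism φ 0 (ins a (dl c)) := ins_prism φ (dl c) a
    refine h4.trans ?_
    rw [h1, sub_zero, h2, map_sub (ins (φ a)), h3, map_sub (act φ), act_coch_zero φ (ins a c),
      map_sub (ins a), ins_act]
  | succ n ih =>
    apply ext_ins
    intro a
    have h1 : ins a (dl (prism φ (n + 1) c)) =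
        prism φ (n + 1) c - dl (ins a (prism φ (n + 1) c)) := ins_dl a _
    have h1' : ins a (prism φ (n + 1) c) =
        act φ (ins (φ a) (ins a c)) - prism φ n (ins a c) := ins_prism φ c a
    have h2 : ins a (dl c) = c - dl (ins a c) := ins_dl a c
    have h3 : ins (φ a) (dl (ins a c)) = ins a c - dl (ins (φ a) (ins a c)) := ins_dl (φ a) _
    have h4 : ins a (prism φ (n + 1 + 1) (dl c)) =
        act φ (ins (φ a) (ins a (dl c))) - prism φ (n + 1) (ins a (dl c)) := ins_prism φ (dl c) a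
    have ih' := ih (ins a c)
    have e1 : prism φ (n + 1) (dl (ins a c)) =
        act φ (ins a c) - ins a c - dl (prism φ n (ins a c)) := by
      rw [← ih']
      abel
    have e2 : ins a (act φ c) = act φ (ins (φ a) c) := ins_act φ a c
    have e3 : ins (φ a) (c - dl (ins a c)) = ins (φ a) c - ins (φ a) (dl (ins a c)) :=
      map_sub _ _ _
    have e4 : act φ (ins (φ a) c - (ins a c - dl (ins (φ a) (ins a c)))) =
        act φ (ins (φ a) c) - (act φ (ins a c) - act φ (dl (ins (φ a) (ins a c)))) := by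
      rw [map_sub, map_sub]
    have e5 : prism φ (n + 1) (c - dl (ins a c)) =
        prism φ (n + 1) c - prism φ (n + 1) (dl (ins a c)) := map_sub _ _ _
    have e6 : dl (act φ (ins (φ a) (ins a c)) - prism φ n (ins a c)) =
        act φ (dl (ins (φ a) (ins a c))) - dl (prism φ n (ins a c)) := by
      rw [map_sub, dl_act]
    rw [map_add, map_sub, h1, h1', e6, h4, h2, e3, h3, e4, e5, e1, e2]
    abel

lemma prism_act (φ g : V → V) (h : ∀ v, φ (g v) = g (φ v)) (n : ℕ) (c : Coch V R (n + 1)) :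
    act g (prism φ n c) = prism φ n (act g c) := by
  induction n with
  | zero => rfl
  | succ n ih =>
    apply ext_ins
    intro a
    rw [ins_act, ins_prism, ins_prism, map_sub, ih, ins_act, ins_act, act_act, act_act]
    have e1 : φ ∘ g = g ∘ φ := funext h
    rw [e1, h]

lemma prism_vanish (φ : V → V) {C : Set V} (n : ℕ) (c : Coch V R (n + 1))
    (h : ∀ σ : Fin (n + 1) → V, (∀ i, σ i ∈ C) → c σ = 0) (τ : Fin n → V)
    (h1 : ∀ i, τ i ∈ C) (h2 : ∀ i, φ (τ i) ∈ C) : prism φ n c τ = 0 := by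
  induction n with
  | zero => rfl
  | succ n ih =>
    rw [prism_succ, ih (ins (τ 0) c) ?_ (Fin.tail τ) (fun i => h1 _) (fun i => h2 _), sub_zero]
    · apply h
      intro i
      refine Fin.cases ?_ (fun i => ?_) i
      · exact h1 0
      · refine Fin.cases ?_ (fun i => ?_) i
        · exact h2 0
        · exact h2 _
    · intro σ hσ
      rw [ins_apply]
      apply h
      intro i
      refine Fin.cases ?_ (fun i => ?_) i
      · exact h1 0
      · exact hσ i

variable {p : ℕ} {g : V → V} {e : ℕ → V}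

lemma act_comm (φ : V → V) (h : ∀ v, φ (g v) = g (φ v)) (k : ℕ) {n : ℕ} (c : Coch V R n) :
    act (g^[k]) (act φ c) = act φ (act (g^[k]) c) := by
  rw [act_act, act_act]
  have h1 : Function.Commute φ g := h
  have e : φ ∘ g^[k] = g^[k] ∘ φ := funext fun v => (h1.iterate_right k) v
  rw [e]

lemma EE_comp (φ : V → V) (h : ∀ v, φ (g v) = g (φ v)) (j : ℕ) (c : Coch V R (2 * j)) :
    EE p g (fun i => φ (e i)) j c = EE p g e j (act φ c) := by
  induction j with
  | zero =>
    exact congrArg c (funext fun i => i.elim0)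
  | succ j ih =>
    rw [EE_succ, EE_succ]
    apply Finset.sum_congr rfl
    intro k _
    have e1 : ins (e j) (act φ (act (g^[k]) c)) = act φ (ins (φ (e j)) (act (g^[k]) c)) :=
      ins_act φ (e j) _
    have e2 : ins (g (e j)) (act φ (ins (φ (e j)) (act (g^[k]) c))) =
        act φ (ins (φ (g (e j))) (ins (φ (e j)) (act (g^[k]) c))) := ins_act φ (g (e j)) _
    rw [eB_apply, eB_apply, ih, act_comm φ h, e1, e2, h]

lemma eA_comp (φ : V → V) (h : ∀ v, φ (g v) = g (φ v)) (j : ℕ) (c : Coch V R (2 * j + 1)) :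
    eA p g (fun i => φ (e i)) j c = eA p g e j (act φ c) := by
  rw [eA_apply, eA_apply, EE_comp φ h, ins_act]

lemma eB_vanish_vert (j : ℕ) (c : Coch V R (2 * j + 2))
    (h : ∀ k : ℕ → ℕ, ∀ σ : Fin (2 * j + 2) → V,
      (∀ l, ∃ i ≤ j, σ l = g^[k i] (e i) ∨ σ l = g^[k i + 1] (e i)) → c σ = 0) :
    eB p g e j c = 0 := by
  rw [eB_apply]
  apply EE_vanish
  intro k σ hσ
  rw [ins_apply, ins_apply]
  apply h (fun i => if i = j then 0 else k i)
  intro l
  refine Fin.cases ?_ (fun l => ?_) l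
  · exact ⟨j, le_rfl, Or.inl (by simp)⟩
  · refine Fin.cases ?_ (fun l => ?_) l
    · exact ⟨j, le_rfl, Or.inr (by simp)⟩
    · obtain ⟨i, hi, h1⟩ := hσ l
      refine ⟨i, hi.le, ?_⟩
      simp only [if_neg hi.ne, Fin.cons_succ]
      exact h1

lemma eA_vanish_vert (j : ℕ) (c : Coch V R (2 * j + 1))
    (h : ∀ k : ℕ → ℕ, ∀ σ : Fin (2 * j + 1) → V,
      (∀ l, ∃ i ≤ j, σ l = g^[k i] (e i) ∨ σ l = g^[k i + 1] (e i)) → c σ = 0) :
    eA p g e j c = 0 := by
  rw [eA_apply]
  apply EE_vanish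
  intro k σ hσ
  rw [ins_apply]
  apply h (fun i => if i = j then 0 else k i)
  intro l
  refine Fin.cases ?_ (fun l => ?_) l
  · exact ⟨j, le_rfl, Or.inl (by simp)⟩
  · obtain ⟨i, hi, h1⟩ := hσ l
    refine ⟨i, hi.le, ?_⟩
    simp only [if_neg hi.ne, Fin.cons_succ]
    exact h1

/-- homotopy invariance of the evaluation on the even cell -/
lemma eA_homotopy (hg : g^[p] = id) (φ : V → V) (h : ∀ v, φ (g v) = g (φ v)) (j : ℕ)
    (U : Coch V R (2 * (j + 1) + 1))
    (h1 : ∀ k : ℕ → ℕ, ∃ C : Set V, (∀ i ≤ j + 1, g^[k i] (e i) ∈ C ∧ g^[k i + 1] (e i) ∈ C ∧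
      φ (g^[k i] (e i)) ∈ C ∧ φ (g^[k i + 1] (e i)) ∈ C) ∧
      (∀ σ : Fin (2 * (j + 1) + 1) → V, (∀ i, σ i ∈ C) → (∑ k ∈ range p, act (g^[k]) U) σ = 0) ∧
      (∀ σ : Fin (2 * (j + 1) + 2) → V, (∀ i, σ i ∈ C) → dl U σ = 0)) :
    eA p g (fun i => φ (e i)) (j + 1) U = eA p g e (j + 1) U := by
  rw [eA_comp φ h, ← sub_eq_zero, ← map_sub]
  have h2 := prism_homotopy φ (2 * (j + 1)) U
  rw [← h2, map_add]
  have h3 : eA p g e (j + 1) (dl (prism φ (2 * (j + 1)) U)) = 0 := by
    have e1 : eA p g e (j + 1) (dl (prism φ (2 * (j + 1)) U)) =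
        EE p g e (j + 1) (prism φ (2 * (j + 1)) U) := eA_dl hg j (prism φ (2 * j + 2) U)
    rw [e1]
    have e2 : EE p g e (j + 1) (prism φ (2 * (j + 1)) U) =
        eB p g e j (∑ k ∈ range p, act (g^[k]) (prism φ (2 * (j + 1)) U)) := EE_succ' p g e j _
    rw [e2]
    have e3 : ∑ k ∈ range p, act (g^[k]) (prism φ (2 * (j + 1)) U) =
        prism φ (2 * (j + 1)) (∑ k ∈ range p, act (g^[k]) U) := by
      rw [map_sum]
      apply Finset.sum_congr rfl
      intro k _
      apply prism_act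
      have : Function.Commute φ g := h
      exact fun v => (this.iterate_right k) v
    rw [e3]
    apply eB_vanish_vert
    intro k σ hσ
    obtain ⟨C, hC1, hC2, -⟩ := h1 k
    apply prism_vanish φ _ _ hC2
    · intro l
      obtain ⟨i, hi, h4 | h4⟩ := hσ l
      · rw [h4]; exact (hC1 i (by omega)).1
      · rw [h4]; exact (hC1 i (by omega)).2.1
    · intro l
      obtain ⟨i, hi, h4 | h4⟩ := hσ l
      · rw [h4]; exact (hC1 i (by omega)).2.2.1
      · rw [h4]; exact (hC1 i (by omega)).2.2.2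
  have h4 : eA p g e (j + 1) (prism φ (2 * (j + 1) + 1) (dl U)) = 0 := by
    apply eA_vanish_vert
    intro k σ hσ
    obtain ⟨C, hC1, -, hC3⟩ := h1 k
    apply prism_vanish φ _ _ hC3
    · intro l
      obtain ⟨i, hi, h4 | h4⟩ := hσ l
      · rw [h4]; exact (hC1 i hi).1
      · rw [h4]; exact (hC1 i hi).2.1
    · intro l
      obtain ⟨i, hi, h4 | h4⟩ := hσ l
      · rw [h4]; exact (hC1 i hi).2.2.1
      · rw [h4]; exact (hC1 i hi).2.2.2
  rw [h3, h4, add_zero]

end prism

section faces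

variable {m : ℕ}

/-- the face given by the exponents `k`, all radii between `s` and `t` -/
def FaceI (p m : ℕ) (k : ℕ → ℕ) (s t : ℝ) : Set (Fin (m + 1) → ℂ) :=
  {v | ∃ a b : Fin (m + 1) → ℝ, (∀ i, 0 ≤ a i) ∧ (∀ i, 0 ≤ b i) ∧ s ≤ ∑ i, (a i + b i) ∧
    ∑ i, (a i + b i) ≤ t ∧ ∀ i : Fin (m + 1), v i = zt p ^ (k i) * ((a i : ℂ) + b i * zt p)}

/-- the annulus -/
def XI (p m : ℕ) (s t : ℝ) : Set (Fin (m + 1) → ℂ) :=
  {v | ‖v‖ ≤ t ∧ s * (Real.cos (Real.pi / p) / (m + 1)) ≤ ‖v‖}

lemma convex_FaceI (p m : ℕ) (k : ℕ → ℕ) (s t : ℝ) : Convex ℝ (FaceI p m k s t) := by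
  rintro x ⟨a, b, ha, hb, hab, hab', hx⟩ y ⟨a', b', ha', hb', hab2, hab2', hy⟩ u v hu hv huv
  have hsum : ∑ i, (u * a i + v * a' i + (u * b i + v * b' i)) =
      u * ∑ i, (a i + b i) + v * ∑ i, (a' i + b' i) := by
    rw [Finset.mul_sum, Finset.mul_sum, ← Finset.sum_add_distrib]
    apply Finset.sum_congr rfl
    intro i _
    ring
  refine ⟨fun i => u * a i + v * a' i, fun i => u * b i + v * b' i, ?_, ?_, ?_, ?_, ?_⟩
  · intro i
    have := ha i
    have := ha' i
    positivity
  · intro i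
    have := hb i
    have := hb' i
    positivity
  · rw [hsum]
    calc s = u * s + v * s := by rw [← add_mul, huv, one_mul]
      _ ≤ _ := add_le_add (mul_le_mul_of_nonneg_left hab hu) (mul_le_mul_of_nonneg_left hab2 hv)
  · rw [hsum]
    calc _ ≤ u * t + v * t :=
          add_le_add (mul_le_mul_of_nonneg_left hab' hu) (mul_le_mul_of_nonneg_left hab2' hv)
      _ = t := by rw [← add_mul, huv, one_mul]
  · intro i
    simp only [Pi.add_apply, Pi.smul_apply, Complex.real_smul]
    rw [hx, hy]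
    push_cast
    ring

lemma FaceI_subset {p : ℕ} (hp : 3 ≤ p) (m : ℕ) (k : ℕ → ℕ) {s t : ℝ} (hs : 0 < s) :
    FaceI p m k s t ⊆ XI p m s t := by
  rintro v ⟨a, b, ha, hb, hab, hab', hv⟩
  have hnorm : ∀ i, ‖v i‖ = ‖(a i : ℂ) + b i * zt p‖ := by
    intro i
    rw [hv, norm_mul, norm_pow, norm_zt, one_pow, one_mul]
  have ht : 0 ≤ t := (Finset.sum_nonneg fun i _ => add_nonneg (ha i) (hb i)).trans hab'
  constructor
  · rw [pi_norm_le_iff_of_nonneg ht]
    intro i
    rw [hnorm]
    refine le_trans ?_ hab'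
    refine (norm_add_le _ _).trans ?_
    rw [norm_mul, norm_zt, mul_one, Complex.norm_real, Complex.norm_real, Real.norm_eq_abs,
      Real.norm_eq_abs, abs_of_nonneg (ha i), abs_of_nonneg (hb i)]
    exact Finset.single_le_sum (f := fun i => a i + b i)
      (fun i _ => add_nonneg (ha i) (hb i)) (Finset.mem_univ i)
  · have hex : ∃ i : Fin (m + 1), s / ((m : ℝ) + 1) ≤ a i + b i := by
      by_contra hcon
      push Not at hcon
      have h1 : ∑ i : Fin (m + 1), (a i + b i) < ∑ i : Fin (m + 1), s / ((m : ℝ) + 1) :=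
        Finset.sum_lt_sum_of_nonempty ⟨0, Finset.mem_univ _⟩ fun i _ => hcon i
      rw [Finset.sum_const, Finset.card_univ, Fintype.card_fin, nsmul_eq_mul] at h1
      push_cast at h1
      have h2 : ((m : ℝ) + 1) * (s / ((m : ℝ) + 1)) = s := by
        field_simp
      rw [h2] at h1
      linarith
    obtain ⟨i, hi⟩ := hex
    refine le_trans ?_ (norm_le_pi_norm v i)
    rw [hnorm]
    refine le_trans ?_ (norm_comb hp (ha i) (hb i))
    calc s * (Real.cos (Real.pi / p) / (m + 1)) = s / (m + 1) * Real.cos (Real.pi / p) := by ring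
      _ ≤ _ := mul_le_mul_of_nonneg_right hi (cos_pos hp).le

lemma ee_mem_FaceI {p : ℕ} (m : ℕ) (k : ℕ → ℕ) {s t r : ℝ} (hr0 : 0 ≤ r) (hsr : s ≤ r)
    (hrt : r ≤ t) {i : ℕ} (hi : i ≤ m) :
    (gg p m)^[k i] (r • ee m i) ∈ FaceI p m k s t ∧
      (gg p m)^[k i + 1] (r • ee m i) ∈ FaceI p m k s t := by
  have hsum : ∑ l : Fin (m + 1), ((if (l : ℕ) = i then r else 0 : ℝ) + 0) = r := by
    simp only [add_zero]
    rw [Finset.sum_eq_single ⟨i, by omega⟩]
    · simp
    · intro l _ hl
      rw [if_neg]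
      intro h
      exact hl (Fin.ext h)
    · intro h
      exact absurd (Finset.mem_univ _) h
  have hsum' : ∑ l : Fin (m + 1), ((0 : ℝ) + (if (l : ℕ) = i then r else 0 : ℝ)) = r :=
    (Finset.sum_congr rfl fun l _ => add_comm _ _).trans hsum
  constructor
  · refine ⟨fun l => if (l : ℕ) = i then r else 0, fun _ => 0, ?_, ?_, ?_, ?_, ?_⟩
    · intro l
      dsimp only
      split_ifs
      · exact hr0
      · exact le_rfl
    · intro l
      exact le_rfl
    · rw [hsum]; exact hsr
    · rw [hsum]; exact hrt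
    · intro l
      rw [gg_iter, Pi.smul_apply]
      unfold ee
      dsimp only
      by_cases h : (l : ℕ) = i
      · simp [h]
      · simp [h]
  · refine ⟨fun _ => 0, fun l => if (l : ℕ) = i then r else 0, ?_, ?_, ?_, ?_, ?_⟩
    · intro l
      exact le_rfl
    · intro l
      dsimp only
      split_ifs
      · exact hr0
      · exact le_rfl
    · rw [hsum']; exact hsr
    · rw [hsum']; exact hrt
    · intro l
      rw [gg_iter, Pi.smul_apply]
      unfold ee
      dsimp only
      by_cases h : (l : ℕ) = i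
      · simp [h, pow_succ]
        ring
      · simp [h]

lemma region_gen {p : ℕ} (hp : 3 ≤ p) (m : ℕ) {s t r : ℝ} (hs : 0 < s) (hsr : s ≤ r) (hrt : r ≤ t)
    (ht : t ≤ 1) : Region p (gg p m) (fun i => r • ee m i) m (XI p m s t) where
  face k := ⟨FaceI p m k s t, convex_FaceI p m k s t, FaceI_subset hp m k hs,
    fun i hi => ee_mem_FaceI m k (hs.le.trans hsr) hsr hrt hi⟩
  diam a ha b hb := by
    rw [dist_eq_norm]
    have := norm_sub_le a b
    linarith [ha.1, hb.1]
  inv a ha := by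
    constructor
    · rw [norm_gg]; exact ha.1
    · rw [norm_gg]; exact ha.2

lemma ne_zero_of_mem_XI {p : ℕ} (hp : 3 ≤ p) {s t : ℝ} (hs : 0 < s) {v : Fin (m + 1) → ℂ}
    (hv : v ∈ XI p m s t) : v ≠ 0 := by
  rintro rfl
  have h := hv.2
  rw [norm_zero] at h
  have := cos_pos hp
  have h2 : 0 < s * (Real.cos (Real.pi / p) / (m + 1)) := by positivity
  linarith

end faces

end Pool.Agent.Work.MP_638b00_ag
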