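import Pool.Agent.Work.MP_638b00_ag.Prism

/-!
# A relative Borsuk-Ulam theorem for the circle group

`M` continuous functions `F j` on `ℂ^n`, `n > M`, each multiplied by `ζ ^ w` with `w ≠ 0` when the
variable is multiplied by `ζ`, `|ζ| = 1`, and an invariant continuous real function `c0` with
`c0 0 > 0` which is negative at the common zeros of the `F j` outside the unit ball, have a
common zero.
-/

set_option linter.unusedVariables false

namespace Pool.Agent.Work.MP_638b00_ag

open Finset Metric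

lemma low_bound {V : Type*} [TopologicalSpace V] {M : ℕ} {X : Set V} (hX : IsCompact X)
    (F : Fin M → V → ℂ) (b : V → ℝ) (hF : ∀ j, Continuous (F j)) (hb : Continuous b)
    (h : ∀ v ∈ X, (∀ j, F j v = 0) → 0 < b v) :
    ∃ low : ℝ, 0 < low ∧ ∀ v ∈ X, (∃ j, low ≤ ‖F j v‖) ∨ low ≤ b v := by
  by_cases hne : X.Nonempty
  · have hG : ContinuousOn (fun v => ∑ j, ‖F j v‖ + max (b v) 0) X :=
      ((continuous_finsetSum _ fun j _ => (hF j).norm).add (hb.max continuous_const)).continuousOn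
    obtain ⟨v0, hv0, hmin⟩ := hX.exists_isMinOn hne hG
    have hpos : 0 < ∑ j, ‖F j v0‖ + max (b v0) 0 := by
      by_cases h1 : ∀ j, F j v0 = 0
      · have := h v0 hv0 h1
        have h2 : 0 ≤ ∑ j, ‖F j v0‖ := Finset.sum_nonneg fun _ _ => norm_nonneg _
        have h3 : b v0 ≤ max (b v0) 0 := le_max_left _ _
        linarith
      · push Not at h1
        obtain ⟨j, hj⟩ := h1
        have h2 : 0 < ∑ j, ‖F j v0‖ :=
          Finset.sum_pos' (fun _ _ => norm_nonneg _) ⟨j, Finset.mem_univ _, norm_pos_iff.2 hj⟩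
        have h3 : 0 ≤ max (b v0) 0 := le_max_right _ _
        linarith
    set μ := ∑ j, ‖F j v0‖ + max (b v0) 0 with hμ
    refine ⟨μ / (M + 1), by positivity, fun v hv => ?_⟩
    by_contra hcon
    push Not at hcon
    have h1 : μ ≤ ∑ j, ‖F j v‖ + max (b v) 0 := hmin hv
    have h2 : ∑ j, ‖F j v‖ ≤ ∑ _j : Fin M, μ / (M + 1) :=
      Finset.sum_le_sum fun j _ => (hcon.1 j).le
    rw [Finset.sum_const, Finset.card_univ, Fintype.card_fin, nsmul_eq_mul] at h2
    have h3 : max (b v) 0 < μ / (M + 1) := max_lt hcon.2 (by positivity)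
    have h4 : (M : ℝ) * (μ / (M + 1)) + μ / (M + 1) = μ := by
      field_simp
    linarith
  · exact ⟨1, one_pos, fun v hv => absurd ⟨v, hv⟩ hne⟩

lemma XI_subset_ball {p m : ℕ} {s t : ℝ} (ht : t ≤ 1) : XI p m s t ⊆ closedBall 0 1 := by
  intro v hv
  rw [mem_closedBall, dist_zero_right]
  exact hv.1.trans ht

theorem rel_core (M : ℕ) (hM : 0 < M) {p : ℕ} [Fact p.Prime] (hp3 : 3 ≤ p)
    (F : Fin M → (Fin (M + 1) → ℂ) → ℂ) (w : Fin M → ℤ) (c0 : (Fin (M + 1) → ℂ) → ℝ)
    (hc : ∀ i, Continuous (F i)) (hc0 : Continuous c0) (hwp : ∀ i, ((w i : ℤ) : ZMod p) ≠ 0)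
    (hF : ∀ i v, F i (gg p M v) = zt p ^ (w i) * F i v)
    (hinv : ∀ v, c0 (gg p M v) = c0 v) (h0 : 0 < c0 0)
    (h1 : ∀ v ∈ XX p M, (∀ j, F j v = 0) → c0 v < 0)
    (h2 : ∀ v, (∀ j, F j v = 0) → c0 v ≠ 0) : False := by
  classical
  have hp0 : 0 < p := by omega
  -- a small ball on which `c0` is positive
  obtain ⟨ε, hε, hε1, hball⟩ : ∃ ε : ℝ, 0 < ε ∧ ε ≤ 1 ∧ ∀ v, ‖v‖ ≤ ε → 0 < c0 v := by
    have h3 : ∀ᶠ v in nhds (0 : Fin (M + 1) → ℂ), 0 < c0 v :=
      hc0.continuousAt.eventually (lt_mem_nhds h0)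
    rw [Metric.eventually_nhds_iff] at h3
    obtain ⟨r, hr, h4⟩ := h3
    refine ⟨min (r / 2) 1, lt_min (by positivity) one_pos, min_le_right _ _, fun v hv => h4 ?_⟩
    rw [dist_zero_right]
    have := min_le_left (r / 2) (1 : ℝ)
    linarith
  -- lower bounds
  obtain ⟨low1, hlow1, hl1⟩ := low_bound (isCompact_closedBall (0 : Fin (M + 1) → ℂ) 1) F
    (fun v => |c0 v|) hc hc0.abs (fun v _ hv => abs_pos.2 (h2 v hv))
  obtain ⟨low2, hlow2, hl2⟩ := low_bound (isCompact_XX p M) F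
    (fun v => -c0 v) hc hc0.neg (fun v hv hv' => neg_pos.2 (h1 v hv hv'))
  set low := min low1 low2 with hlow
  have hlow0 : 0 < low := lt_min hlow1 hlow2
  -- nearby sectors
  obtain ⟨η, hη, hη1, hnear⟩ := sec_near hp0
  -- uniform continuity
  obtain ⟨δ, hδ, hunif⟩ : ∃ δ : ℝ, 0 < δ ∧ ∀ v ∈ closedBall (0 : Fin (M + 1) → ℂ) 1,
      ∀ w ∈ closedBall (0 : Fin (M + 1) → ℂ) 1, dist v w < δ →
      (∀ j, ‖F j v - F j w‖ < η * low) ∧ |c0 v - c0 w| < low := by
    have hF : ContinuousOn (fun v => ((fun j => F j v), c0 v)) (closedBall (0 : Fin (M + 1) → ℂ) 1) :=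
      ((continuous_pi fun j => hc j).prodMk hc0).continuousOn
    have hU := (isCompact_closedBall (0 : Fin (M + 1) → ℂ) 1).uniformContinuousOn_of_continuous hF
    rw [Metric.uniformContinuousOn_iff] at hU
    have hηc : 0 < η * low := by positivity
    obtain ⟨δ, hδ, h⟩ := hU (min (η * low) low) (lt_min hηc hlow0)
    refine ⟨δ, hδ, fun v hv w hw hvw => ?_⟩
    have h3 := h v hv w hw hvw
    rw [Prod.dist_eq, max_lt_iff] at h3
    refine ⟨fun j => ?_, ?_⟩
    · have h4 := h3.1.trans_le (min_le_left _ _)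
      rw [dist_pi_lt_iff hηc] at h4
      have h5 := h4 j
      rwa [dist_eq_norm] at h5
    · have h4 := h3.2.trans_le (min_le_right _ _)
      rwa [Real.dist_eq] at h4
  obtain ⟨N, hN⟩ : ∃ N : ℕ, (((2 * M + 1 : ℕ) : ℝ) / ((2 * M + 1 : ℕ) + 1)) ^ N < δ / 2 := by
    apply exists_pow_lt_of_lt_one (by positivity)
    rw [div_lt_one (by positivity)]
    linarith
  -- the functions `q`
  let W : ℕ → ZMod p := fun i => if h : i < M then ((w ⟨i, h⟩ : ℤ) : ZMod p) else 1
  let q : ℕ → (Fin (M + 1) → ℂ) → ZMod p := fun i v =>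
    if h : i < M then (if F ⟨i, h⟩ v ≠ 0 then sec p (F ⟨i, h⟩ v) else (w ⟨i, h⟩ : ℤ) * rr p M v)
    else rr p M v
  have hW : ∀ i, W i ≠ 0 := by
    intro i
    by_cases h : i < M
    · simp only [W, h, dif_pos]
      exact hwp _
    · simp only [W, h, dif_neg, not_false_eq_true]
      exact one_ne_zero
  have hq : ∀ i, ∀ a, a ≠ 0 → q i (gg p M a) = q i a + W i := by
    intro i a ha0
    by_cases h : i < M
    · simp only [q, W, h, dif_pos]
      have e1 : F ⟨i, h⟩ (gg p M a) = zt p ^ (w ⟨i, h⟩) * F ⟨i, h⟩ a := hF ⟨i, h⟩ a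
      rw [e1]
      by_cases h0 : F ⟨i, h⟩ a = 0
      · rw [h0, mul_zero, if_neg (by simp), if_neg (by simp), rr_gg hp0 ha0]
        ring
      · rw [if_pos (mul_ne_zero (zpow_ne_zero _ (zt_ne p)) h0), if_pos h0, sec_rot hp0 h0]
    · simp only [q, W, h, dif_neg, not_false_eq_true]
      exact rr_gg hp0 ha0
  have hgne : ∀ a : Fin (M + 1) → ℂ, a ≠ 0 → gg p M a ≠ 0 := by
    intro a ha h
    apply ha
    rw [← norm_eq_zero, ← norm_gg p M a, h, norm_zero]
  have hgkne : ∀ k : ℕ, ∀ a : Fin (M + 1) → ℂ, a ≠ 0 → (gg p M)^[k] a ≠ 0 := by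
    intro k
    induction k with
    | zero => intro a ha; exact ha
    | succ k ih =>
      intro a ha
      rw [Function.iterate_succ_apply']
      exact hgne _ (ih a ha)
  have hqk : ∀ i, ∀ a, a ≠ 0 → ∀ k : ℕ, q i ((gg p M)^[k] a) = q i a + k * W i := by
    intro i a ha k
    induction k with
    | zero => simp
    | succ k ih =>
      rw [Function.iterate_succ_apply', hq i _ (hgkne k a ha), ih]
      push_cast
      ring
  have hgp : ((gg p M : (Fin (M + 1) → ℂ) → (Fin (M + 1) → ℂ)))^[p] = id := by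
    funext v
    ext i
    rw [gg_iter, zt_pow_p hp0, one_mul]
    rfl
  set T : ℕ → (Fin (M + 1) → ℂ) → (Fin (M + 1) → ℂ) → (Fin (M + 1) → ℂ) → ZMod p :=
    fun i a b c => YY p (q i) b c - YY p (q i) a c + YY p (q i) a b with hT
  have hTinv : ∀ i, ∀ a ∈ {a : Fin (M + 1) → ℂ | a ≠ 0}, ∀ b ∈ {a : Fin (M + 1) → ℂ | a ≠ 0},
      ∀ c ∈ {a : Fin (M + 1) → ℂ | a ≠ 0},
      T i (gg p M a) (gg p M b) (gg p M c) = T i a b c := by
    intro i a ha b hb c hc
    exact YY_inv (q i) (gg p M) (W i) (hq i a ha) (hq i b hb) (hq i c hc)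
  let Wm : Coch (Fin (M + 1) → ℂ) (ZMod p) (2 * M + 1) := fun σ =>
    if 0 < c0 (σ 0) then WW T M σ else 0
  -- inner evaluation
  have inner : eA p (gg p M) (fun i => ε • ee M i) M (sdN N (2 * M + 1) Wm) =
      ∏ i ∈ range M, W i := by
    have hreg := region_gen hp3 M hε le_rfl le_rfl hε1 (s := ε) (t := ε) (r := ε)
    have main := eval_WW hreg hgp N q W (fun i => YY p (q i))
      (fun i a ha => hq i a (ne_zero_of_mem_XI hp3 hε ha))
      (fun i a ha b hb => sum_YY (q i) (gg p M) (hW i)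
        (hqk i a (ne_zero_of_mem_XI hp3 hε ha)) (hqk i b (ne_zero_of_mem_XI hp3 hε hb)))
      (fun i a ha b hb c hc => YY_inv (q i) (gg p M) (W i)
        (hq i a (ne_zero_of_mem_XI hp3 hε ha)) (hq i b (ne_zero_of_mem_XI hp3 hε hb))
        (hq i c (ne_zero_of_mem_XI hp3 hε hc)))
      M le_rfl
    rw [← main]
    rw [← sub_eq_zero, ← map_sub, ← map_sub]
    apply eA_vanish hreg N le_rfl
    intro σ hσ _
    have h3 : 0 < c0 (σ 0) := hball _ (hσ 0).1
    rw [Pi.sub_apply]
    simp only [Wm, if_pos h3]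
    exact sub_self _
  -- vanishing of the cocycle on small tuples at points where some `F j` is not small
  have hsmall : ∀ v0 ∈ closedBall (0 : Fin (M + 1) → ℂ) 1, ∀ j, low ≤ ‖F j v0‖ →
      ∀ σ : Fin (2 * M + 1) → (Fin (M + 1) → ℂ), (∀ l, σ l ∈ closedBall (0 : Fin (M + 1) → ℂ) 1) →
        (∀ l, dist (σ l) v0 < δ) → WW T M σ = 0 := by
    intro v0 hv0 j hj σ hσ hσ2
    apply WW_eq_zero _ j.2
    intro a b c
    have hj0 : F j v0 ≠ 0 := by
      intro h
      rw [h, norm_zero] at hj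
      linarith
    obtain ⟨y0, hy0⟩ := hnear (F j v0) hj0
    have hclose : ∀ l, ∃ n : ℤ, q j (σ l) = n ∧ |(n : ℝ) - y0| < 1 := by
      intro l
      have h2 := (hunif (σ l) (hσ l) v0 hv0 (hσ2 l)).1 j
      have h3 : ‖F j (σ l) - F j v0‖ < η * ‖F j v0‖ := by
        refine h2.trans_le ?_
        gcongr
      obtain ⟨n, hn1, hn2⟩ := hy0 _ h3
      refine ⟨n, ?_, hn2⟩
      by_cases hl0 : F j (σ l) = 0
      · exfalso
        rw [hl0, zero_sub, norm_neg] at h3
        have := norm_nonneg (F j v0)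
        nlinarith
      · simp only [q, j.2, dif_pos, Fin.eta]
        rw [if_pos hl0, hn1]
    obtain ⟨na, ha1, ha2⟩ := hclose a
    obtain ⟨nb, hb1, hb2⟩ := hclose b
    obtain ⟨nc, hc1, hc2⟩ := hclose c
    exact YY_zero_of_near hp3 (q j) ha1 hb1 hc1 ha2 hb2 hc2
  -- outer evaluation
  have outer : eA p (gg p M) (ee M) M (sdN N (2 * M + 1) Wm) = 0 := by
    apply eA_vanish (region hp3 M) N le_rfl
    intro σ hσ hσ2
    have hmem : ∀ l, σ l ∈ closedBall (0 : Fin (M + 1) → ℂ) 1 := by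
      intro l
      rw [mem_closedBall, dist_zero_right]
      exact (hσ l).1
    simp only [Wm]
    split_ifs with h3
    · rcases hl2 (σ 0) (hσ 0) with ⟨j, hj⟩ | h4
      · apply hsmall (σ 0) (hmem 0) j ((min_le_right _ _).trans hj) σ hmem
        intro l
        refine (hσ2 l 0).trans_lt ?_
        linarith
      · linarith
    · rfl
  -- homotopy
  have hgk : ∀ k : ℕ, (gg p M : (Fin (M + 1) → ℂ) → (Fin (M + 1) → ℂ))^[k] =
      (((gg p M) ^ k : (Fin (M + 1) → ℂ) →ₗ[ℝ] (Fin (M + 1) → ℂ)) :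
        (Fin (M + 1) → ℂ) → (Fin (M + 1) → ℂ)) := by
    intro k
    rw [Module.End.coe_pow]
  have hc0k : ∀ k : ℕ, ∀ v, c0 ((gg p M)^[k] v) = c0 v := by
    intro k
    induction k with
    | zero => intro v; rfl
    | succ k ih => intro v; rw [Function.iterate_succ_apply', hinv, ih]
  have hact : ∀ k : ℕ, ∀ σ : Fin (2 * M + 1) → (Fin (M + 1) → ℂ), (∀ l, σ l ≠ 0) →
      WW T M (fun i => (gg p M)^[k] (σ i)) = WW T M σ := by
    intro k
    induction k with
    | zero => intro σ _; rfl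
    | succ k ihk =>
      intro σ hσ
      have e1 : (fun i => (gg p M)^[k + 1] (σ i)) = fun i => gg p M ((gg p M)^[k] (σ i)) := by
        ext i
        rw [Function.iterate_succ_apply']
      rw [e1]
      have e2 := WW_act T (gg p M) hTinv M (fun i => (gg p M)^[k] (σ i))
        (fun l => hgkne k _ (hσ l))
      rw [act_apply] at e2
      rw [e2, ihk σ hσ]
  have hφ : ∀ v : Fin (M + 1) → ℂ, (fun v : Fin (M + 1) → ℂ => ε • v) (gg p M v) =
      gg p M ((fun v : Fin (M + 1) → ℂ => ε • v) v) := by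
    intro v
    exact (map_smul (gg p M) ε v).symm
  have homot : eA p (gg p M) (fun i => ε • ee M i) M (sdN N (2 * M + 1) Wm) =
      eA p (gg p M) (ee M) M (sdN N (2 * M + 1) Wm) := by
    obtain ⟨M', hM'⟩ : ∃ M', M = M' + 1 := ⟨M - 1, by omega⟩
    have key : ∀ (j : ℕ) (hj : M = j + 1) (U : Coch (Fin (M + 1) → ℂ) (ZMod p) (2 * M + 1))
      (h1 : ∀ k : ℕ → ℕ, ∃ C : Set (Fin (M + 1) → ℂ), (∀ i ≤ M, (gg p M)^[k i] (ee M i) ∈ C ∧
        (gg p M)^[k i + 1] (ee M i) ∈ C ∧ ε • ((gg p M)^[k i] (ee M i)) ∈ C ∧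
          ε • ((gg p M)^[k i + 1] (ee M i)) ∈ C) ∧
        (∀ σ : Fin (2 * M + 1) → (Fin (M + 1) → ℂ), (∀ i, σ i ∈ C) →
          (∑ k ∈ range p, act ((gg p M)^[k]) U) σ = 0) ∧
        (∀ σ : Fin (2 * M + 2) → (Fin (M + 1) → ℂ), (∀ i, σ i ∈ C) → dl U σ = 0)),
      eA p (gg p M) (fun i => ε • ee M i) M U = eA p (gg p M) (ee M) M U := by
      have key' : ∀ (j L : ℕ) (hL : L = j + 1)
        (U : Coch (Fin (M + 1) → ℂ) (ZMod p) (2 * L + 1))
        (h1 : ∀ k : ℕ → ℕ, ∃ C : Set (Fin (M + 1) → ℂ), (∀ i ≤ L, (gg p M)^[k i] (ee M i) ∈ C ∧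
          (gg p M)^[k i + 1] (ee M i) ∈ C ∧ ε • ((gg p M)^[k i] (ee M i)) ∈ C ∧
            ε • ((gg p M)^[k i + 1] (ee M i)) ∈ C) ∧
          (∀ σ : Fin (2 * L + 1) → (Fin (M + 1) → ℂ), (∀ i, σ i ∈ C) →
            (∑ k ∈ range p, act ((gg p M)^[k]) U) σ = 0) ∧
          (∀ σ : Fin (2 * L + 2) → (Fin (M + 1) → ℂ), (∀ i, σ i ∈ C) → dl U σ = 0)),
        eA p (gg p M) (fun i => ε • ee M i) L U = eA p (gg p M) (ee M) L U := by
        intro j L hL U h1
        subst hL
        exact eA_homotopy (e := ee M) hgp (fun v => ε • v) hφ j U h1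
      intro j hj U h1
      exact key' j M hj U h1
    apply key M' hM'
    intro k
    refine ⟨FaceI p M k ε 1, ?_, ?_, ?_⟩
    · intro i hi
      have e1 := ee_mem_FaceI (p := p) M k (s := ε) (t := 1) (r := 1) zero_le_one hε1 le_rfl hi
      have e2 := ee_mem_FaceI (p := p) M k (s := ε) (t := 1) (r := ε) hε.le le_rfl hε1 hi
      rw [one_smul] at e1
      refine ⟨e1.1, e1.2, ?_, ?_⟩
      · rw [hgk, ← map_smul, ← hgk]
        exact e2.1
      · rw [hgk, ← map_smul, ← hgk]
        exact e2.2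
    · intro σ hσ
      have e3 : ∑ k ∈ range p, act ((gg p M)^[k]) (sdN N (2 * M + 1) Wm) =
          sdN N (2 * M + 1) (∑ k ∈ range p, act ((gg p M)^[k]) Wm) := by
        rw [map_sum]
        apply Finset.sum_congr rfl
        intro k _
        rw [hgk, sdN_act]
      rw [e3]
      refine sdN_vanish (2 * M + 1) N (d := 2) (by norm_num) (by omega)
        (convex_FaceI p M k ε 1) _ ?_ σ hσ ?_
      · intro τ hτ _
        rw [Finset.sum_apply]
        have e4 : ∀ k ∈ range p, act ((gg p M)^[k]) Wm τ = Wm τ := by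
          intro k _
          rw [act_apply]
          simp only [Wm, hc0k]
          rw [hact k τ (fun l => ne_zero_of_mem_XI hp3 hε (FaceI_subset hp3 M _ hε (hτ l)))]
        rw [Finset.sum_congr rfl e4, Finset.sum_const, Finset.card_range, nsmul_eq_mul,
          CharP.cast_eq_zero, zero_mul]
      · intro i l
        have a1 := (FaceI_subset hp3 M _ hε (hσ i)).1
        have a2 := (FaceI_subset hp3 M _ hε (hσ l)).1
        rw [dist_eq_norm]
        have := norm_sub_le (σ i) (σ l)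
        linarith
    · intro σ hσ
      rw [← sdN_dl]
      refine sdN_vanish (2 * M + 1) N (d := 2) (by norm_num) (by omega)
        (convex_FaceI p M k ε 1) _ ?_ σ hσ ?_
      · intro τ hτ hτ2
        have hmem : ∀ l, τ l ∈ closedBall (0 : Fin (M + 1) → ℂ) 1 := fun l =>
          XI_subset_ball le_rfl (FaceI_subset hp3 M _ hε (hτ l))
        have hd : ∀ l, dist (τ l) (τ 0) < δ := by
          intro l
          refine (hτ2 l 0).trans_lt ?_
          linarith
        rcases hl1 (τ 0) (hmem 0) with ⟨j, hj⟩ | h3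
        · have h4 : ∀ r : Fin (2 * M + 1 + 1), Wm (fun i => τ (r.succAbove i)) = 0 := by
            intro r
            simp only [Wm]
            rw [hsmall (τ 0) (hmem 0) j ((min_le_left _ _).trans hj) _ (fun l => hmem _)
              (fun l => hd _), ite_self]
          rw [dl_apply]
          apply Finset.sum_eq_zero
          intro r _
          rw [h4, mul_zero]
        · have h4 : ∀ l, |c0 (τ l) - c0 (τ 0)| < |c0 (τ 0)| := by
            intro l
            refine (hunif _ (hmem l) _ (hmem 0) (hd l)).2.trans_le ?_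
            exact (min_le_left _ _).trans h3
          rcases lt_or_ge 0 (c0 (τ 0)) with h5 | h5
          · have h6 : ∀ l, 0 < c0 (τ l) := by
              intro l
              have h7 := h4 l
              rw [abs_of_pos h5, abs_lt] at h7
              linarith [h7.1]
            have h8 : dl Wm τ = dl (WW T M) τ := by
              rw [dl_apply, dl_apply]
              apply Finset.sum_congr rfl
              intro r _
              simp only [Wm, if_pos (h6 _)]
            rw [h8, hT, dl_WW]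
            rfl
          · have h6 : ∀ l, ¬ 0 < c0 (τ l) := by
              intro l
              have h7 := h4 l
              rw [abs_of_nonpos h5, abs_lt] at h7
              linarith [h7.2]
            rw [dl_apply]
            apply Finset.sum_eq_zero
            intro r _
            simp only [Wm, if_neg (h6 _), mul_zero]
      · intro i l
        have a1 := (FaceI_subset hp3 M _ hε (hσ i)).1
        have a2 := (FaceI_subset hp3 M _ hε (hσ l)).1
        rw [dist_eq_norm]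
        have := norm_sub_le (σ i) (σ l)
        linarith
  rw [inner, outer] at homot
  exact Finset.prod_ne_zero_iff.2 (fun i _ => hW i) homot

theorem rel_bu_aux (M : ℕ) (hM : 0 < M) (F : Fin M → (Fin (M + 1) → ℂ) → ℂ) (w : Fin M → ℤ)
    (c0 : (Fin (M + 1) → ℂ) → ℝ)
    (hc : ∀ i, Continuous (F i)) (hc0 : Continuous c0) (hw : ∀ i, w i ≠ 0)
    (hF : ∀ i v (ζ : ℂ), ‖ζ‖ = 1 → F i (fun l => ζ * v l) = ζ ^ (w i) * F i v)
    (hinv : ∀ v (ζ : ℂ), ‖ζ‖ = 1 → c0 (fun l => ζ * v l) = c0 v) (h0 : 0 < c0 0)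
    (h1 : ∀ v, 1 ≤ ‖v‖ → (∀ j, F j v = 0) → c0 v < 0) :
    ∃ v, (∀ j, F j v = 0) ∧ c0 v = 0 := by
  classical
  by_contra hcon
  push Not at hcon
  -- the prime
  obtain ⟨p, hp1, hp2⟩ := Nat.exists_infinite_primes (∑ i, (w i).natAbs + 3)
  have : Fact p.Prime := ⟨hp2⟩
  have hp3 : 3 ≤ p := by omega
  have hwp : ∀ i, ((w i : ℤ) : ZMod p) ≠ 0 := by
    intro i h
    rw [ZMod.intCast_zmod_eq_zero_iff_dvd] at h
    have h1 : (w i).natAbs < p := by
      have h2 : (w i).natAbs ≤ ∑ i, (w i).natAbs :=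
        Finset.single_le_sum (f := fun i => (w i).natAbs) (fun _ _ => Nat.zero_le _)
          (Finset.mem_univ i)
      omega
    have h2 : p ∣ (w i).natAbs := by
      rw [← Int.natCast_dvd]
      exact h
    have h3 := Nat.eq_zero_of_dvd_of_lt h2 h1
    exact hw i (Int.natAbs_eq_zero.1 h3)
  have hcos := cos_pos hp3
  set s : ℝ := ((M : ℝ) + 1) / Real.cos (Real.pi / p) with hs
  have hs0 : 0 < s := by positivity
  have hsm : Continuous fun v : Fin (M + 1) → ℂ => s • v := continuous_const_smul s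
  have hcomm : ∀ v : Fin (M + 1) → ℂ, s • (gg p M v) = fun l => zt p * (s • v) l := by
    intro v
    ext l
    rw [Pi.smul_apply, gg_apply, Pi.smul_apply, Complex.real_smul, Complex.real_smul]
    ring
  refine rel_core M hM hp3 (fun j v => F j (s • v)) w (fun v => c0 (s • v))
    (fun i => (hc i).comp hsm) (hc0.comp hsm) hwp ?_ ?_ ?_ ?_ ?_
  · intro i v
    rw [hcomm, hF i _ _ (norm_zt p)]
  · intro v
    rw [hcomm, hinv _ _ (norm_zt p)]
  · rw [smul_zero]
    exact h0
  · intro v hv hv2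
    refine h1 (s • v) ?_ hv2
    rw [norm_smul, Real.norm_eq_abs, abs_of_pos hs0]
    have h3 := hv.2
    calc (1 : ℝ) = s * (Real.cos (Real.pi / p) / (M + 1)) := by
          rw [hs]
          field_simp
      _ ≤ s * ‖v‖ := mul_le_mul_of_nonneg_left h3 hs0.le
  · intro v hv
    exact hcon _ hv

/-- **Relative Borsuk-Ulam theorem for the circle group.** -/
theorem rel_bu {ι κ : Type*} [Fintype ι] [Fintype κ] [Nonempty κ]
    (hcard : Fintype.card κ < Fintype.card ι) (F : κ → (ι → ℂ) → ℂ) (w : κ → ℤ)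
    (c0 : (ι → ℂ) → ℝ)
    (hc : ∀ i, Continuous (F i)) (hc0 : Continuous c0) (hw : ∀ i, w i ≠ 0)
    (hF : ∀ i v (ζ : ℂ), ‖ζ‖ = 1 → F i (fun l => ζ * v l) = ζ ^ (w i) * F i v)
    (hinv : ∀ v (ζ : ℂ), ‖ζ‖ = 1 → c0 (fun l => ζ * v l) = c0 v) (h0 : 0 < c0 0)
    (h1 : ∀ v, 1 ≤ ‖v‖ → (∀ j, F j v = 0) → c0 v < 0) :
    ∃ v : ι → ℂ, (∀ j, F j v = 0) ∧ c0 v = 0 := by
  classical
  set m := Fintype.card κ with hm
  have hm0 : 0 < m := Fintype.card_pos
  obtain ⟨f⟩ : Nonempty (Fin (m + 1) ↪ ι) :=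
    Function.Embedding.nonempty_of_card_le (by simpa using hcard)
  let en : κ ≃ Fin m := Fintype.equivFin κ
  let ex : (Fin (m + 1) → ℂ) → (ι → ℂ) := fun v l => if h : ∃ j, f j = l then v h.choose else 0
  have hex : ∀ v j, ex v (f j) = v j := by
    intro v j
    have h : ∃ j', f j' = f j := ⟨j, rfl⟩
    simp only [ex]
    rw [dif_pos h]
    exact congrArg v (f.injective h.choose_spec)
  have hexc : Continuous ex := by
    refine continuous_pi fun l => ?_
    by_cases h : ∃ j, f j = l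
    · have : (fun v => ex v l) = fun v => v h.choose := by
        funext v; simp only [ex]; rw [dif_pos h]
      rw [this]
      exact continuous_apply _
    · have : (fun v => ex v l) = fun v => 0 := by
        funext v; simp only [ex]; rw [dif_neg h]
      rw [this]
      exact continuous_const
  have hexm : ∀ (ζ : ℂ) v, ex (fun l => ζ * v l) = fun l => ζ * ex v l := by
    intro ζ v
    funext l
    by_cases h : ∃ j, f j = l
    · simp only [ex]; rw [dif_pos h, dif_pos h]
    · simp only [ex]; rw [dif_neg h, dif_neg h, mul_zero]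
  have hex0 : ex 0 = 0 := by
    funext l
    by_cases h : ∃ j, f j = l
    · simp only [ex]; rw [dif_pos h]; rfl
    · simp only [ex]; rw [dif_neg h]; rfl
  obtain ⟨v, hv, hv0⟩ := rel_bu_aux m hm0 (fun i v => F (en.symm i) (ex v))
    (fun i => w (en.symm i)) (fun v => c0 (ex v)) (fun i => (hc _).comp hexc) (hc0.comp hexc)
    (fun i => hw _) (by
      intro i v ζ hζ
      rw [hexm, hF _ _ _ hζ]) (by
      intro v ζ hζ
      rw [hexm, hinv _ _ hζ]) (by
      rw [hex0]
      exact h0) (by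
      intro v hv hv2
      apply h1
      · refine hv.trans ?_
        rw [pi_norm_le_iff_of_nonneg (norm_nonneg _)]
        intro j
        rw [← hex v j]
        exact norm_le_pi_norm _ _
      · intro j
        have := hv2 (en j)
        simpa using this)
  refine ⟨ex v, fun i => ?_, hv0⟩
  have := hv (en i)
  simpa using this

end Pool.Agent.Work.MP_638b00_ag
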