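import Pool.Agent.Work.MP_638b00_ag.Cup

/-!
# Sectors of the plane and the Bockstein cochains
-/

set_option linter.unusedVariables false

namespace Pool.Agent.Work.MP_638b00_ag

open Finset Metric

/-- the primitive root of unity `exp (2 π i / p)` -/
noncomputable def zt (p : ℕ) : ℂ := Complex.exp (((2 * Real.pi / p : ℝ) : ℂ) * Complex.I)

lemma norm_zt (p : ℕ) : ‖zt p‖ = 1 := Complex.norm_exp_ofReal_mul_I _

lemma zt_ne (p : ℕ) : zt p ≠ 0 := Complex.exp_ne_zero _

lemma zt_zpow (p : ℕ) (w : ℤ) :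
    zt p ^ w = Complex.exp (((2 * Real.pi * w / p : ℝ) : ℂ) * Complex.I) := by
  unfold zt
  rw [← Complex.exp_int_mul]
  congr 1
  push_cast
  ring

lemma zt_pow_p {p : ℕ} (hp : 0 < p) : zt p ^ p = 1 := by
  have h := zt_zpow p (p : ℤ)
  rw [zpow_natCast] at h
  rw [h]
  have hp' : (p : ℝ) ≠ 0 := by positivity
  have e : ((2 * Real.pi * ((p : ℤ) : ℝ) / p : ℝ) : ℂ) * Complex.I = 2 * Real.pi * Complex.I := by
    have : (2 * Real.pi * ((p : ℤ) : ℝ) / p : ℝ) = 2 * Real.pi := by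
      push_cast
      field_simp
    rw [this]
    push_cast
    ring
  rw [e, Complex.exp_two_pi_mul_I]

/-- the sector containing a nonzero complex number -/
noncomputable def sec (p : ℕ) (z : ℂ) : ZMod p := ((⌊p * Complex.arg z / (2 * Real.pi)⌋ : ℤ) : ZMod p)

lemma sec_eq {p : ℕ} (hp : 0 < p) {r : ℝ} (hr : 0 < r) (x : ℝ) :
    sec p (r * Complex.exp (((2 * Real.pi * x / p : ℝ) : ℂ) * Complex.I)) = ((⌊x⌋ : ℤ) : ZMod p) := by
  unfold sec
  rw [Complex.arg_real_mul _ hr, Complex.arg_exp_mul_I]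
  have hp' : (p : ℝ) ≠ 0 := by positivity
  have h2 : (2 * Real.pi : ℝ) ≠ 0 := by positivity
  obtain ⟨n, hn⟩ : ∃ n : ℤ, toIocMod (mul_pos two_pos Real.pi_pos) (-Real.pi)
      (2 * Real.pi * x / p) = 2 * Real.pi * x / p - n * (2 * Real.pi) := by
    refine ⟨toIocDiv (mul_pos two_pos Real.pi_pos) (-Real.pi) (2 * Real.pi * x / p), ?_⟩
    rw [← self_sub_toIocDiv_zsmul, zsmul_eq_mul]
  rw [hn]
  have h3 : (p : ℝ) * (2 * Real.pi * x / p - n * (2 * Real.pi)) / (2 * Real.pi) =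
      x - ((n * p : ℤ) : ℝ) := by
    push_cast
    field_simp
  rw [h3, Int.floor_sub_intCast]
  push_cast
  simp

lemma polar {p : ℕ} (hp : 0 < p) {z : ℂ} (hz : z ≠ 0) : ∃ r : ℝ, 0 < r ∧ ∃ x : ℝ,
    x = p * Complex.arg z / (2 * Real.pi) ∧
    z = r * Complex.exp (((2 * Real.pi * x / p : ℝ) : ℂ) * Complex.I) := by
  refine ⟨‖z‖, norm_pos_iff.2 hz, _, rfl, ?_⟩
  have hp' : (p : ℝ) ≠ 0 := by positivity
  have h2 : (2 * Real.pi : ℝ) ≠ 0 := by positivity
  have e : 2 * Real.pi * (p * Complex.arg z / (2 * Real.pi)) / p = Complex.arg z := by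
    field_simp
  rw [e]
  exact (Complex.norm_mul_exp_arg_mul_I z).symm

lemma sec_rot {p : ℕ} (hp : 0 < p) {z : ℂ} (hz : z ≠ 0) (w : ℤ) :
    sec p (zt p ^ w * z) = sec p z + w := by
  obtain ⟨r, hr, x, -, hx⟩ := polar hp hz
  have h1 : zt p ^ w * z = r * Complex.exp (((2 * Real.pi * (x + w) / p : ℝ) : ℂ) * Complex.I) := by
    rw [hx, zt_zpow, mul_left_comm, ← Complex.exp_add]
    congr 2
    push_cast
    ring
  rw [h1, sec_eq hp hr, hx, sec_eq hp hr, Int.floor_add_intCast]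
  push_cast
  rfl

/-- nearby points lie in adjacent sectors -/
lemma sec_near {p : ℕ} (hp : 0 < p) : ∃ η : ℝ, 0 < η ∧ η ≤ 1 ∧ ∀ z0 : ℂ, z0 ≠ 0 → ∃ y0 : ℝ,
    ∀ z : ℂ, ‖z - z0‖ < η * ‖z0‖ → ∃ n : ℤ, sec p z = n ∧ |(n : ℝ) - y0| < 1 := by
  have hp' : (0 : ℝ) < p := by exact_mod_cast hp
  have hpi := Real.pi_pos
  have hc : ContinuousAt Complex.arg (1 : ℂ) := by
    apply Complex.continuousAt_arg
    rw [Complex.mem_slitPlane_iff]
    left
    simp
  rw [Metric.continuousAt_iff] at hc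
  obtain ⟨η0, hη0, h0⟩ := hc (Real.pi / p) (by positivity)
  refine ⟨min η0 1, lt_min hη0 one_pos, min_le_right _ _, ?_⟩
  intro z0 hz0
  obtain ⟨r, hr, x, -, hx⟩ := polar hp hz0
  refine ⟨x - 1 / 2, ?_⟩
  intro z hz
  have hn0 : 0 < ‖z0‖ := norm_pos_iff.2 hz0
  have hu : ‖z / z0 - 1‖ < min η0 1 := by
    have e : z / z0 - 1 = (z - z0) / z0 := by
      field_simp
    rw [e, norm_div, div_lt_iff₀ hn0]
    exact hz
  have hz1 : z / z0 ≠ 0 := by
    intro h
    rw [h] at hu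
    simp at hu
  obtain ⟨r', hr', x', hx'1, hx'2⟩ := polar hp hz1
  have harg : |Complex.arg (z / z0)| < Real.pi / p := by
    have h1 := h0 (x := z / z0) (by
      rw [dist_eq_norm]
      exact hu.trans_le (min_le_left _ _))
    rw [Complex.arg_one, Real.dist_eq, sub_zero] at h1
    exact h1
  have hx'3 : |x'| < 1 / 2 := by
    rw [hx'1, abs_div, abs_mul, abs_of_pos hp', abs_of_pos (by positivity : 0 < 2 * Real.pi),
      div_lt_iff₀ (by positivity)]
    rw [lt_div_iff₀ hp'] at harg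
    nlinarith
  have hz2 : z = (r * r' : ℝ) * Complex.exp (((2 * Real.pi * (x + x') / p : ℝ) : ℂ) *
      Complex.I) := by
    have e1 : z = z0 * (z / z0) := by
      field_simp
    have e2 : (((2 * Real.pi * (x + x') / p : ℝ) : ℂ) * Complex.I) =
        ((2 * Real.pi * x / p : ℝ) : ℂ) * Complex.I + ((2 * Real.pi * x' / p : ℝ) : ℂ) *
          Complex.I := by
      push_cast
      ring
    rw [e1, hx'2, e2, Complex.exp_add]
    conv_lhs => rw [hx]
    push_cast
    ring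
  refine ⟨⌊x + x'⌋, ?_, ?_⟩
  · rw [hz2, sec_eq hp (by positivity)]
  · have h1 := Int.floor_le (x + x')
    have h2 := Int.lt_floor_add_one (x + x')
    rw [abs_lt] at hx'3 ⊢
    constructor <;> linarith [hx'3.1, hx'3.2]

/-! ### The Bockstein cochain -/

section Bock

variable {p : ℕ} {V : Type*}

/-- the integral cochain -/
noncomputable def Yint (p : ℕ) (q : V → ZMod p) (a b : V) : ℤ :=
  ((q b - q a).valMinAbs - (((q b).val : ℤ) - ((q a).val : ℤ))) / p

lemma Yint_spec [NeZero p] (q : V → ZMod p) (a b : V) :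
    (p : ℤ) * Yint p q a b =
      (q b - q a).valMinAbs - (((q b).val : ℤ) - ((q a).val : ℤ)) := by
  unfold Yint
  apply Int.mul_ediv_cancel'
  rw [← ZMod.intCast_zmod_eq_zero_iff_dvd]
  push_cast
  rw [ZMod.natCast_zmod_val, ZMod.natCast_zmod_val]
  simp

/-- its reduction mod `p` -/
noncomputable def YY (p : ℕ) (q : V → ZMod p) (a b : V) : ZMod p := (Yint p q a b : ZMod p)

lemma YY_inv [NeZero p] (q : V → ZMod p) (g : V → V) (w : ZMod p) {a b c : V}
    (ha : q (g a) = q a + w) (hb : q (g b) = q b + w) (hc : q (g c) = q c + w) :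
    YY p q (g b) (g c) - YY p q (g a) (g c) + YY p q (g a) (g b) =
      YY p q b c - YY p q a c + YY p q a b := by
  have hp : (p : ℤ) ≠ 0 := by exact_mod_cast (NeZero.ne p)
  have key : Yint p q (g b) (g c) - Yint p q (g a) (g c) + Yint p q (g a) (g b) =
      Yint p q b c - Yint p q a c + Yint p q a b := by
    apply mul_left_cancel₀ hp
    rw [mul_add, mul_sub, mul_add, mul_sub, Yint_spec, Yint_spec, Yint_spec, Yint_spec, Yint_spec,
      Yint_spec]
    have e1 : q (g c) - q (g b) = q c - q b := by rw [hb, hc]; ring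
    have e2 : q (g c) - q (g a) = q c - q a := by rw [ha, hc]; ring
    have e3 : q (g b) - q (g a) = q b - q a := by rw [ha, hb]; ring
    rw [e1, e2, e3]
    ring
  unfold YY
  exact_mod_cast congrArg (fun n : ℤ => (n : ZMod p)) key

lemma YY_zero [NeZero p] (q : V → ZMod p) {a b c : V}
    (h : (q c - q b).valMinAbs - (q c - q a).valMinAbs + (q b - q a).valMinAbs = 0) :
    YY p q b c - YY p q a c + YY p q a b = 0 := by
  have hp : (p : ℤ) ≠ 0 := by exact_mod_cast (NeZero.ne p)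
  have key : Yint p q b c - Yint p q a c + Yint p q a b = 0 := by
    apply mul_left_cancel₀ hp
    rw [mul_add, mul_sub, Yint_spec, Yint_spec, Yint_spec]
    linarith
  unfold YY
  exact_mod_cast congrArg (fun n : ℤ => (n : ZMod p)) key

lemma YY_zero_of_near [NeZero p] (hp3 : 3 ≤ p) (q : V → ZMod p) {a b c : V} {y0 : ℝ}
    {na nb nc : ℤ} (ha : q a = na) (hb : q b = nb) (hc : q c = nc) (ha' : |(na : ℝ) - y0| < 1)
    (hb' : |(nb : ℝ) - y0| < 1) (hc' : |(nc : ℝ) - y0| < 1) :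
    YY p q b c - YY p q a c + YY p q a b = 0 := by
  apply YY_zero
  have key : ∀ m n : ℤ, |(m : ℝ) - y0| < 1 → |(n : ℝ) - y0| < 1 →
      ((m : ZMod p) - (n : ZMod p)).valMinAbs = m - n := by
    intro m n hm hn
    rw [abs_lt] at hm hn
    have h1 : ((m - n : ℤ) : ℝ) < 2 := by push_cast; linarith [hm.2, hn.1]
    have h2 : (-2 : ℝ) < ((m - n : ℤ) : ℝ) := by push_cast; linarith [hm.1, hn.2]
    have h1' : m - n < 2 := by exact_mod_cast h1
    have h2' : -2 < m - n := by exact_mod_cast h2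
    rw [ZMod.valMinAbs_spec]
    refine ⟨by push_cast; ring, ?_, ?_⟩
    · omega
    · omega
  rw [ha, hb, hc, key _ _ hc' hb', key _ _ hc' ha', key _ _ hb' ha']
  ring

lemma sum_YY [Fact p.Prime] (q : V → ZMod p) (g : V → V) {w : ZMod p} (hw : w ≠ 0) {a b : V}
    (ha : ∀ k : ℕ, q (g^[k] a) = q a + k * w) (hb : ∀ k : ℕ, q (g^[k] b) = q b + k * w) :
    ∑ k ∈ range p, YY p q (g^[k] a) (g^[k] b) = q b - q a := by
  have hp : (p : ℤ) ≠ 0 := by exact_mod_cast (NeZero.ne p)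
  have hsum : ∀ x : ZMod p, ∑ k ∈ range p, ((x + k * w).val : ℤ) = ∑ y : ZMod p, (y.val : ℤ) := by
    intro x
    apply Finset.sum_bij (fun (k : ℕ) _ => x + (k : ZMod p) * w)
    · intro k _
      exact Finset.mem_univ _
    · intro k hk l hl h
      have h1 : (k : ZMod p) * w = l * w := add_left_cancel h
      have h2 : (k : ZMod p) = l := mul_right_cancel₀ hw h1
      rw [ZMod.natCast_eq_natCast_iff'] at h2
      rwa [Nat.mod_eq_of_lt (mem_range.1 hk), Nat.mod_eq_of_lt (mem_range.1 hl)] at h2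
    · intro y _
      refine ⟨((y - x) / w).val, mem_range.2 (ZMod.val_lt _), ?_⟩
      rw [ZMod.natCast_zmod_val, div_mul_cancel₀ _ hw]
      ring
    · intro k _
      rfl
  have key : ∑ k ∈ range p, Yint p q (g^[k] a) (g^[k] b) = (q b - q a).valMinAbs := by
    apply mul_left_cancel₀ hp
    rw [Finset.mul_sum]
    have e1 : ∀ k ∈ range p, (p : ℤ) * Yint p q (g^[k] a) (g^[k] b) =
        (q b - q a).valMinAbs - (((q b + k * w).val : ℤ) - ((q a + k * w).val : ℤ)) := by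
      intro k _
      rw [Yint_spec, ha, hb]
      congr 2
      ring
    rw [Finset.sum_congr rfl e1, Finset.sum_sub_distrib, Finset.sum_sub_distrib, hsum, hsum]
    simp
  unfold YY
  rw [← Int.cast_sum, key, ZMod.coe_valMinAbs]

end Bock

end Pool.Agent.Work.MP_638b00_ag
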