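import Pool.Agent.Work.MP_638b00_ag.Herm

/-!
# Witt's theorem: in a nonreal function field of one variable over the reals every element is
a sum of two squares
-/

set_option linter.unusedVariables false
set_option linter.unusedSectionVars false

namespace Pool.Agent.Work.MP_638b00_ag

open Finset

variable {K : Type*} [Field K] [Algebra ℝ K]

lemma two_ne (K : Type*) [Field K] [Algebra ℝ K] : (2 : K) ≠ 0 := by
  have h : (2 : K) = algebraMap ℝ K 2 := (map_ofNat (algebraMap ℝ K) 2).symm
  rw [h]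
  exact (map_ne_zero _).2 two_ne_zero

/-- a ternary quadratic form over `K[i]` of diagonal shape has a nontrivial zero -/
lemma ternary (𝓕 : Filt K) (a : K) (β : LL K) : ∃ x y z : LL K,
    (x ≠ 0 ∨ y ≠ 0 ∨ z ≠ 0) ∧ x * x + algebraMap K (LL K) (-a) * (y * y) + (-β) * (z * z) = 0 := by
  obtain ⟨u, hu, h⟩ := 𝓕.htl (n := 3) (κ := Unit)
    (fun _ u => u 0 * u 0 + algebraMap K (LL K) (-a) * (u 1 * u 1) + (-β) * (u 2 * u 2))
    (fun _ => 2) (fun _ => 0) (by
      intro _
      have h1 : Bih 2 0 (fun u : Fin 3 → LL K => u 0 * u 0) :=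
        Bih.mul (Bih.var (0 : Fin 3)) (Bih.var 0)
      have h2 : Bih 2 0 (fun u : Fin 3 → LL K => algebraMap K (LL K) (-a) * (u 1 * u 1)) := by
        have := Bih.mul (Bih.const (n := 3) (algebraMap K (LL K) (-a)))
          (Bih.mul (Bih.var (1 : Fin 3)) (Bih.var 1))
        simpa using this
      have h3 : Bih 2 0 (fun u : Fin 3 → LL K => (-β) * (u 2 * u 2)) := by
        have := Bih.mul (Bih.const (n := 3) (-β))
          (Bih.mul (Bih.var (2 : Fin 3)) (Bih.var 2))
        simpa using this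
      exact Bih.add (Bih.add h1 h2) h3) (by intro _; norm_num) (by simp)
  refine ⟨u 0, u 1, u 2, ?_, h ()⟩
  by_contra hcon
  push Not at hcon
  apply hu
  funext l
  fin_cases l
  · exact hcon.1
  · exact hcon.2.1
  · exact hcon.2.2

/-- sums of two squares -/
def S2 (a : K) : Prop := ∃ x y : K, a = x * x + y * y

lemma S2.mul_sq {a : K} (h : S2 a) (c : K) : S2 (a * (c * c)) := by
  obtain ⟨x, y, rfl⟩ := h
  exact ⟨x * c, y * c, by ring⟩

lemma S2.mul {a b : K} (h : S2 a) (h' : S2 b) : S2 (a * b) := by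
  obtain ⟨x, y, rfl⟩ := h
  obtain ⟨z, w, rfl⟩ := h'
  exact ⟨x * z - y * w, x * w + y * z, by ring⟩

lemma S2.inv {a : K} (h : S2 a) : S2 a⁻¹ := by
  by_cases ha : a = 0
  · subst ha
    rw [inv_zero]
    exact ⟨0, 0, by ring⟩
  · have : a⁻¹ = a * (a⁻¹ * a⁻¹) := by
      field_simp
    rw [this]
    exact h.mul_sq _

lemma sum_ne_zero_of {K : Type*} [Field K] (hi : ∀ j : K, j * j ≠ -1) {x y : K}
    (h : x * x + y * y = 0) : x = 0 ∧ y = 0 := by
  by_cases hy : y = 0
  · subst hy
    simp at h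
    exact ⟨h, rfl⟩
  · exfalso
    apply hi (x / y)
    field_simp
    linear_combination h

lemma S2_add_sq (𝓕 : Filt K) (hi : ∀ j : K, j * j ≠ -1) {b : K} (hb : S2 b) (a1 : K) :
    S2 (a1 * a1 + b) := by
  obtain ⟨b1, b2, hb12⟩ := hb
  set a := a1 * a1 + b with ha
  obtain ⟨x, y, z, hne, h⟩ := ternary 𝓕 a (⟨b1, b2⟩ : LL K)
  have hre := congrArg QuadraticAlgebra.re h
  have him := congrArg QuadraticAlgebra.im h
  simp only [QuadraticAlgebra.re_add, QuadraticAlgebra.im_add, LL_mul_re, LL_mul_im,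
    QuadraticAlgebra.algebraMap_re, QuadraticAlgebra.algebraMap_im, QuadraticAlgebra.re_neg,
    QuadraticAlgebra.im_neg, QuadraticAlgebra.re_zero, QuadraticAlgebra.im_zero] at hre him
  set x1 := x.re
  set x2 := x.im
  set y1 := y.re
  set y2 := y.im
  set z1 := z.re
  set z2 := z.im
  set P := x1 * x1 + x2 * x2 + a * (y1 * y1 + y2 * y2) with hP
  set Q := 2 * (x1 * y1 + x2 * y2) with hQ
  set n := z1 * z1 + z2 * z2 with hn
  have key : P * P - a * (Q * Q) = b * (n * n) := by
    have e1 : x1 * x1 - x2 * x2 - a * (y1 * y1 - y2 * y2) =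
        b1 * (z1 * z1 - z2 * z2) - b2 * (2 * (z1 * z2)) := by linear_combination hre
    have e2 : 2 * (x1 * x2) - a * (2 * (y1 * y2)) =
        b1 * (2 * (z1 * z2)) + b2 * (z1 * z1 - z2 * z2) := by linear_combination him
    have e3 : P * P - a * (Q * Q) = (x1 * x1 - x2 * x2 - a * (y1 * y1 - y2 * y2)) *
        (x1 * x1 - x2 * x2 - a * (y1 * y1 - y2 * y2)) +
        (2 * (x1 * x2) - a * (2 * (y1 * y2))) * (2 * (x1 * x2) - a * (2 * (y1 * y2))) := by
      rw [hP, hQ]
      ring
    rw [e3, e1, e2, hb12, hn]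
    ring
  by_cases hz : n = 0
  · -- `z = 0`
    obtain ⟨hz1, hz2⟩ := sum_ne_zero_of hi hz
    have hre' : x1 * x1 - x2 * x2 = a * (y1 * y1 - y2 * y2) := by
      rw [hz1, hz2] at hre
      linear_combination hre
    have him' : x1 * x2 + x2 * x1 = a * (y1 * y2 + y2 * y1) := by
      rw [hz1, hz2] at him
      linear_combination him
    set m := y1 * y1 + y2 * y2 with hm
    have hm0 : m ≠ 0 := by
      intro hm'
      obtain ⟨hy1, hy2⟩ := sum_ne_zero_of hi hm'
      have h3 : x1 = 0 ∧ x2 = 0 := by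
        rw [hy1, hy2] at hre' him'
        have h4 : x1 * x1 - x2 * x2 = 0 := by linear_combination hre'
        have h5 : x1 * x2 = 0 := by
          have : 2 * (x1 * x2) = 0 := by linear_combination him'
          exact (mul_eq_zero.1 this).resolve_left (two_ne K)
        rcases mul_eq_zero.1 h5 with h6 | h6
        · rw [h6] at h4
          have : x2 * x2 = 0 := by linear_combination -h4
          exact ⟨h6, mul_self_eq_zero.1 this⟩
        · rw [h6] at h4
          have : x1 * x1 = 0 := by linear_combination h4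
          exact ⟨mul_self_eq_zero.1 this, h6⟩
      rcases hne with h7 | h7 | h7
      · exact h7 (QuadraticAlgebra.ext h3.1 h3.2)
      · exact h7 (QuadraticAlgebra.ext hy1 hy2)
      · exact h7 (QuadraticAlgebra.ext hz1 hz2)
    -- `c = x * conj y`
    set c1 := x1 * y1 + x2 * y2 with hc1
    set c2 := x2 * y1 - x1 * y2 with hc2
    have e1 : c1 * c1 - c2 * c2 = a * (m * m) := by
      rw [hc1, hc2, hm]
      linear_combination (y1 * y1 - y2 * y2) * hre' + (2 * y1 * y2) * him'
    have e2 : c1 * c2 = 0 := by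
      have : 2 * (c1 * c2) = 0 := by
        rw [hc1, hc2]
        linear_combination (y1 * y1 - y2 * y2) * him' - (2 * y1 * y2) * hre'
      exact (mul_eq_zero.1 this).resolve_left (two_ne K)
    rcases mul_eq_zero.1 e2 with h6 | h6
    · -- `a = - (c2/m)^2`
      set d := c2 / m with hd
      have e3 : a = -(d * d) := by
        rw [h6] at e1
        rw [hd]
        field_simp
        linear_combination -e1
      by_cases hd0 : d = 0
      · exact ⟨0, 0, by rw [e3, hd0]; ring⟩
      · have e4 : d * d + a1 * a1 ≠ 0 := fun h8 => hd0 (sum_ne_zero_of hi h8).1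
        have e5 : b1 * b1 + b2 * b2 = -(d * d + a1 * a1) := by
          rw [← hb12]
          linear_combination e3 - ha
        have e6 : a = (d * d) * ((b1 * b1 + b2 * b2) * (d * d + a1 * a1)⁻¹) := by
          rw [e5, neg_mul, mul_inv_cancel₀ e4, e3]
          ring
        rw [e6]
        exact S2.mul ⟨d, 0, by ring⟩ (S2.mul ⟨b1, b2, rfl⟩ (S2.inv ⟨d, a1, rfl⟩))
    · refine ⟨c1 / m, 0, ?_⟩
      rw [h6] at e1
      field_simp
      linear_combination -e1
  · -- `z ≠ 0`
    set P' := P / n with hP'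
    set Q' := Q / n with hQ'
    have e1 : P' * P' - a * (Q' * Q') = b := by
      rw [hP', hQ']
      field_simp
      linear_combination key
    have e2 : (1 : K) * 1 + Q' * Q' ≠ 0 := fun h8 => one_ne_zero (sum_ne_zero_of hi h8).1
    have e3 : a = (P' * P' + a1 * a1) * (1 * 1 + Q' * Q')⁻¹ := by
      rw [eq_mul_inv_iff_mul_eq₀ e2]
      linear_combination ha - e1
    rw [e3]
    exact S2.mul ⟨P', a1, rfl⟩ (S2.inv ⟨1, Q', rfl⟩)

/-- **Witt's theorem** -/
theorem all_S2 (𝓕 : Filt K) (h : IsSumSq (-1 : K)) (z : K) : S2 z := by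
  have h2 := two_ne K
  by_cases hi : ∃ j : K, j * j = -1
  · obtain ⟨j, hj⟩ := hi
    have hj0 : j ≠ 0 := by
      rintro rfl
      simp at hj
    refine ⟨(z + 1) / 2, (z - 1) / 2 * j, ?_⟩
    have e : (z - 1) / 2 * j * ((z - 1) / 2 * j) = -((z - 1) / 2 * ((z - 1) / 2)) := by
      linear_combination ((z - 1) / 2 * ((z - 1) / 2)) * hj
    rw [e]
    field_simp
    ring
  · push Not at hi
    have hsum : ∀ a : K, IsSumSq a → S2 a := by
      intro a ha
      induction ha with
      | zero => exact ⟨0, 0, by ring⟩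
      | sq_add x _ ih => exact S2_add_sq 𝓕 hi ih x
    obtain ⟨u, v, huv⟩ := hsum _ h
    have e : z = (z + 1) / 2 * ((z + 1) / 2) + ((z - 1) / 2 * u * ((z - 1) / 2 * u) +
        (z - 1) / 2 * v * ((z - 1) / 2 * v)) := by
      have e1 : (z - 1) / 2 * u * ((z - 1) / 2 * u) + (z - 1) / 2 * v * ((z - 1) / 2 * v) =
          -((z - 1) / 2 * ((z - 1) / 2)) := by
        linear_combination -((z - 1) / 2 * ((z - 1) / 2)) * huv
      rw [e1]
      field_simp
      ring
    rw [e]
    exact S2_add_sq 𝓕 hi ⟨_, _, rfl⟩ _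

end Pool.Agent.Work.MP_638b00_ag
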